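import Mathlib

/-!
# Block codes and controlled block operations on bi-infinite sequences
-/

namespace Pool.Agent.Lib.MP_e5892f_al

/-- A block code: every `m : M` is coded by a block `B m` of length `b` over the alphabet `A`;
the block of `0` is constant, and the other blocks start with two letters `z`, end with a letter
different from `z` and have no further pair of adjacent letters `z`. -/
structure BlockCode (M A : Type*) [Zero M] where
  /-- the background letter -/
  z : A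
  /-- the block length -/
  b : ℕ
  /-- the blocks -/
  B : M → ℕ → A
  /-- a letter different from the background letter -/
  o : A
  ho : o ≠ z
  hb : 4 ≤ b
  B_zero : ∀ i, B 0 i = z
  B_fst : ∀ m, B m 0 = z
  B_snd : ∀ m, B m 1 = z
  B_two : ∀ m, m ≠ 0 → B m 2 ≠ z
  B_last : ∀ m, m ≠ 0 → B m (b - 1) ≠ z
  B_pair : ∀ m, m ≠ 0 → ∀ i, 2 ≤ i → i + 1 < b → B m i = z → B m (i + 1) ≠ z
  inj : ∀ m m', (∀ i < b, B m i = B m' i) → m = m'

namespace BlockCode

variable {M A : Type*} [Zero M] (C : BlockCode M A)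

/-- The sequence `c` has the block of `m` at position `p`. -/
def Blk (c : ℤ → A) (p : ℤ) (m : M) : Prop := ∀ i : ℕ, i < C.b → c (p + i) = C.B m i

variable {C}

lemma Blk.unique {c : ℤ → A} {p : ℤ} {m m' : M} (h : C.Blk c p m) (h' : C.Blk c p m') :
    m = m' :=
  C.inj m m' fun i hi => (h i hi).symm.trans (h' i hi)

/-- Nonzero blocks do not overlap. -/
lemma Blk.no_overlap {c : ℤ → A} {p q : ℤ} {m m' : M} (h : C.Blk c p m) (h' : C.Blk c q m')
    (hm : m ≠ 0) (hpq : p < q) (hq : q < p + C.b) : False := by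
  have hb := C.hb
  obtain ⟨d, hd⟩ : ∃ d : ℕ, q = p + d := ⟨(q - p).toNat, by omega⟩
  have hd0 : 0 < d := by omega
  have hdb : d < C.b := by omega
  have h1 : C.B m d = C.z := by
    rw [← h d hdb, ← hd]
    have := h' 0 (by omega)
    simp only [Nat.cast_zero, add_zero] at this
    rw [this, C.B_fst]
  have h2 : c (q + 1) = C.z := by
    have := h' 1 (by omega)
    simp only [Nat.cast_one] at this
    rw [this, C.B_snd]
  by_cases hlast : d + 1 = C.b
  · apply C.B_last m hm
    rw [show C.b - 1 = d by omega]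
    exact h1
  · have hd1 : d + 1 < C.b := by omega
    have h3 : C.B m (d + 1) = C.z := by
      rw [← h (d + 1) hd1, ← h2]
      congr 1
      push_cast
      omega
    by_cases hd2 : 2 ≤ d
    · exact C.B_pair m hm d hd2 hd1 h1 h3
    · have : d = 1 := by omega
      subst this
      exact C.B_two m hm h3

/-- A block followed by a nonzero block; another nonzero block is aligned or disjoint from the
first window. -/
lemma Blk.aligned {c : ℤ → A} {p q : ℤ} {m' m n : M} (h' : C.Blk c p m')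
    (h : C.Blk c (p + C.b) m) (_hm : m ≠ 0) (hq : C.Blk c q n) (hn : n ≠ 0) :
    q + C.b ≤ p ∨ q = p ∨ p + C.b ≤ q := by
  have hb := C.hb
  by_contra hcon
  push Not at hcon
  obtain ⟨h1, h2, h3⟩ := hcon
  rcases lt_or_gt_of_ne h2 with hlt | hgt
  · -- `q < p < q + b`
    by_cases hm' : m' = 0
    · have e1 := hq (C.b - 1) (by omega)
      apply C.B_last n hn
      rw [← e1]
      have e2 := h' ((q + (C.b - 1 : ℕ) - p).toNat) (by omega)
      rw [hm', C.B_zero] at e2
      rw [← e2]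
      congr 1
      omega
    · exact hq.no_overlap h' hn hlt h1
  · exact hq.no_overlap h hn h3 (by omega)

variable (C)

/-- The window at `p` is active for the control map `θ`. -/
def Act (θ : M → Equiv.Perm M) (c : ℤ → A) (p : ℤ) (m' m : M) : Prop :=
  C.Blk c p m' ∧ C.Blk c (p + C.b) m ∧ θ m ≠ 1

open Classical in
/-- The controlled block operation: a block `m'` followed by the block of `m` is replaced by the
block of `θ m m'`. -/
noncomputable def T (θ : M → Equiv.Perm M) (c : ℤ → A) (i : ℤ) : A :=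
  if h : ∃ q : ℤ × M × M, C.Act θ c q.1 q.2.1 q.2.2 ∧ q.1 ≤ i ∧ i < q.1 + C.b then
    C.B (θ h.choose.2.2 h.choose.2.1) (i - h.choose.1).toNat
  else c i

variable {C}

section

variable {θ : M → Equiv.Perm M}

lemma Act.ne_zero {c : ℤ → A} {p : ℤ} {m' m : M} (hθ0 : θ 0 = 1) (h : C.Act θ c p m' m) :
    m ≠ 0 := by
  rintro rfl
  exact h.2.2 hθ0

lemma Act.unique (hθ0 : θ 0 = 1) {c : ℤ → A} {p p' : ℤ} {m' m n' n : M}
    (h : C.Act θ c p m' m) (h' : C.Act θ c p' n' n) (h1 : p < p' + C.b) (h2 : p' < p + C.b) :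
    p = p' ∧ m' = n' ∧ m = n := by
  have hpp : p = p' := by
    by_contra hne
    rcases lt_or_gt_of_ne hne with hlt | hgt
    · exact h.2.1.no_overlap h'.2.1 (h.ne_zero hθ0) (by omega) (by omega)
    · exact h'.2.1.no_overlap h.2.1 (h'.ne_zero hθ0) (by omega) (by omega)
  subst hpp
  exact ⟨rfl, h.1.unique h'.1, h.2.1.unique h'.2.1⟩

lemma T_act (hθ0 : θ 0 = 1) {c : ℤ → A} {p : ℤ} {m' m : M} (h : C.Act θ c p m' m) :
    C.Blk (C.T θ c) p (θ m m') := by
  intro i hi
  have hex : ∃ q : ℤ × M × M, C.Act θ c q.1 q.2.1 q.2.2 ∧ q.1 ≤ p + i ∧ p + i < q.1 + C.b :=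
    ⟨(p, m', m), h, by simp, by simpa using hi⟩
  rw [T, dif_pos hex]
  obtain ⟨h1, h2, h3⟩ := hex.choose_spec
  obtain ⟨e1, e2, e3⟩ := h.unique hθ0 h1 (by omega) (by omega)
  rw [← e1, ← e2, ← e3]
  congr 1
  omega

lemma T_not {c : ℤ → A} {i : ℤ}
    (h : ∀ p m' m, C.Act θ c p m' m → i < p ∨ p + C.b ≤ i) : C.T θ c i = c i := by
  rw [T, dif_neg]
  rintro ⟨q, h1, h2, h3⟩
  rcases h _ _ _ h1 with h4 | h4 <;> omega

/-- The two cases. -/
lemma T_cases (hθ0 : θ 0 = 1) (c : ℤ → A) (i : ℤ) :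
    (∃ p m' m, C.Act θ c p m' m ∧ p ≤ i ∧ i < p + C.b ∧
      C.T θ c i = C.B (θ m m') (i - p).toNat) ∨
    ((∀ p m' m, C.Act θ c p m' m → i < p ∨ p + C.b ≤ i) ∧ C.T θ c i = c i) := by
  by_cases h : ∃ p m' m, C.Act θ c p m' m ∧ p ≤ i ∧ i < p + C.b
  · obtain ⟨p, m', m, h1, h2, h3⟩ := h
    refine Or.inl ⟨p, m', m, h1, h2, h3, ?_⟩
    have := T_act hθ0 h1 (i - p).toNat (by omega)
    rw [← this]
    congr 1
    omega
  · right
    push Not at h
    have h' : ∀ p m' m, C.Act θ c p m' m → i < p ∨ p + C.b ≤ i := by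
      intro p m' m h1
      by_contra hcon
      push Not at hcon
      have := h p m' m h1 hcon.1
      omega
    exact ⟨h', T_not h'⟩

/-- If all active windows are disjoint from `[q, q+b)` then blocks there are unchanged. -/
lemma blk_T_of_disjoint {c : ℤ → A} {q : ℤ} (n : M)
    (h : ∀ p m' m, C.Act θ c p m' m → q + C.b ≤ p ∨ p + C.b ≤ q) :
    C.Blk (C.T θ c) q n ↔ C.Blk c q n := by
  have key : ∀ i : ℕ, i < C.b → C.T θ c (q + i) = c (q + i) := by
    intro i hi
    apply T_not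
    intro p m' m h1
    rcases h p m' m h1 with h2 | h2
    · left; omega
    · right; omega
  constructor
  · intro h1 i hi
    rw [← key i hi]; exact h1 i hi
  · intro h1 i hi
    rw [key i hi]; exact h1 i hi

/-- The source of an active window is a nonzero block after the operation, with the same
control value. -/
lemma T_source (hθ0 : θ 0 = 1) (hθ : ∀ m n, θ (θ n m) = θ m) {c : ℤ → A} {p : ℤ} {m' m : M}
    (h : C.Act θ c p m' m) : ∃ n, C.Blk (C.T θ c) (p + C.b) n ∧ θ n = θ m := by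
  by_cases hact : ∃ n' n, C.Act θ c (p + C.b) n' n
  · obtain ⟨n', n, h1⟩ := hact
    have : n' = m := h1.1.unique h.2.1
    subst this
    exact ⟨θ n n', T_act hθ0 h1, hθ _ _⟩
  · refine ⟨m, ?_, rfl⟩
    rw [blk_T_of_disjoint]
    · exact h.2.1
    · intro q n' n h1
      rcases h1.1.aligned h1.2.1 (h1.ne_zero hθ0) h.2.1 (h.ne_zero hθ0) with h2 | h2 | h2
      · exact Or.inl h2
      · exact absurd ⟨n', n, by rw [h2]; exact h1⟩ hact
      · exact Or.inr h2

/-- The inverse control map. -/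
def inv' (θ : M → Equiv.Perm M) : M → Equiv.Perm M := fun m => (θ m)⁻¹

lemma inv'_zero (hθ0 : θ 0 = 1) : inv' θ 0 = 1 := by simp [inv', hθ0]

omit [Zero M] in
lemma inv'_inv' : inv' (inv' θ) = θ := by
  funext m; simp [inv']

omit [Zero M] in
lemma inv'_compat (hθ : ∀ m n, θ (θ n m) = θ m) (m n : M) :
    inv' θ (inv' θ n m) = inv' θ m := by
  simp only [inv']
  congr 1
  have := hθ ((θ n)⁻¹ m) n
  rw [show θ n ((θ n)⁻¹ m) = m from (θ n).apply_symm_apply m] at this
  exact this.symm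

lemma Act.after (hθ0 : θ 0 = 1) (hθ : ∀ m n, θ (θ n m) = θ m) {c : ℤ → A} {p : ℤ} {m' m : M}
    (h : C.Act θ c p m' m) :
    ∃ n, C.Act (inv' θ) (C.T θ c) p (θ m m') n ∧ inv' θ n = (θ m)⁻¹ := by
  obtain ⟨n, h1, h2⟩ := T_source hθ0 hθ h
  refine ⟨n, ⟨T_act hθ0 h, h1, ?_⟩, ?_⟩
  · simp only [inv', h2, ne_eq, inv_eq_one]
    exact h.2.2
  · simp only [inv', h2]

/-- Windows active for the inverse operation come from active windows. -/
lemma Act.before (hθ0 : θ 0 = 1) (hθ : ∀ m n, θ (θ n m) = θ m) {c : ℤ → A} {q : ℤ} {n' n : M}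
    (h : C.Act (inv' θ) (C.T θ c) q n' n) : ∃ m' m, C.Act θ c q m' m := by
  have hn0 : n ≠ 0 := h.ne_zero (inv'_zero hθ0)
  have hθn : θ n ≠ 1 := by
    have := h.2.2
    simpa [inv'] using this
  by_cases hq : ∃ m' m, C.Act θ c q m' m
  · exact hq
  -- the source
  obtain ⟨m, hm, hθm⟩ : ∃ m, C.Blk c (q + C.b) m ∧ θ m = θ n := by
    by_cases hact : ∃ m1 m2, C.Act θ c (q + C.b) m1 m2
    · obtain ⟨m1, m2, h1⟩ := hact
      have h2 := (T_act hθ0 h1).unique h.2.1
      exact ⟨m1, h1.1, by rw [← h2, hθ]⟩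
    · refine ⟨n, ?_, rfl⟩
      rw [← blk_T_of_disjoint (θ := θ)]
      · exact h.2.1
      · intro p m1 m2 h1
        obtain ⟨m3, h3, h3'⟩ := h1.after hθ0 hθ
        rcases h3.1.aligned h3.2.1 (h3.ne_zero (inv'_zero hθ0)) h.2.1 hn0 with h4 | h4 | h4
        · exact Or.inl h4
        · exact absurd ⟨m1, m2, by rw [h4]; exact h1⟩ hact
        · exact Or.inr h4
  -- the target
  have ht : C.Blk c q n' := by
    rw [← blk_T_of_disjoint (θ := θ)]
    · exact h.1
    · intro p m1 m2 h1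
      by_contra hcon
      push Not at hcon
      obtain ⟨m3, h3, h3'⟩ := h1.after hθ0 hθ
      have h5 := h.unique (inv'_zero hθ0) h3 (by omega) (by omega)
      exact hq ⟨m1, m2, by rw [h5.1]; exact h1⟩
  exact ⟨n', m, ht, hm, by rw [hθm]; exact hθn⟩

/-- The operation for `θ⁻¹` is the inverse. -/
theorem T_inv (hθ0 : θ 0 = 1) (hθ : ∀ m n, θ (θ n m) = θ m) (c : ℤ → A) :
    C.T (inv' θ) (C.T θ c) = c := by
  funext i
  rcases T_cases hθ0 c i with ⟨p, m', m, h1, h2, h3, h4⟩ | ⟨h1, h2⟩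
  · obtain ⟨n, h5, h6⟩ := h1.after hθ0 hθ
    have h7 := T_act (inv'_zero hθ0) h5 (i - p).toNat (by omega)
    have e : p + ((i - p).toNat : ℤ) = i := by omega
    rw [e] at h7
    rw [h7, h6, show (θ m)⁻¹ (θ m m') = m' from (θ m).symm_apply_apply m']
    have h8 := h1.1 (i - p).toNat (by omega)
    rw [e] at h8
    exact h8.symm
  · rw [← h2]
    apply T_not
    intro p m' m h3
    obtain ⟨n', n, h4⟩ := h3.before hθ0 hθ
    exact h1 _ _ _ h4

/-- Locality. -/
lemma Act.congr {c c' : ℤ → A} {p : ℤ} {m' m : M}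
    (hc : ∀ j, p ≤ j → j < p + 2 * C.b → c j = c' j) (h : C.Act θ c p m' m) :
    C.Act θ c' p m' m := by
  refine ⟨fun i hi => ?_, fun i hi => ?_, h.2.2⟩
  · have h1 := hc (p + i) (by omega) (by omega)
    rw [← h1]; exact h.1 i hi
  · have h1 := hc (p + C.b + i) (by omega) (by omega)
    rw [← h1]; exact h.2.1 i hi

lemma T_congr (hθ0 : θ 0 = 1) {c c' : ℤ → A} {i : ℤ}
    (hc : ∀ j, i - C.b < j → j < i + 2 * C.b → c j = c' j) : C.T θ c i = C.T θ c' i := by
  have hb := C.hb
  rcases T_cases hθ0 c i with ⟨p, m', m, h1, h2, h3, h4⟩ | ⟨h1, h2⟩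
  · have h5 : C.Act θ c' p m' m := h1.congr fun j hj hj' => hc j (by omega) (by omega)
    rw [h4]
    have := T_act hθ0 h5 (i - p).toNat (by omega)
    rw [← this]
    congr 1
    omega
  · rw [h2, hc i (by omega) (by omega)]
    symm
    apply T_not
    intro p m' m h3
    by_contra hcon
    push Not at hcon
    have h5 : C.Act θ c p m' m := h3.congr fun j hj hj' => (hc j (by omega) (by omega)).symm
    rcases h1 _ _ _ h5 with h6 | h6 <;> omega

/-- Compatibility with the shift. -/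
lemma Blk.shift {c : ℤ → A} {p k : ℤ} {m : M} :
    C.Blk (fun i => c (i + k)) p m ↔ C.Blk c (p + k) m := by
  unfold Blk
  have e : ∀ i : ℕ, p + (i : ℤ) + k = p + k + i := fun i => by ring
  simp only [e]

lemma Act.shift {c : ℤ → A} {p k : ℤ} {m' m : M} :
    C.Act θ (fun i => c (i + k)) p m' m ↔ C.Act θ c (p + k) m' m := by
  unfold Act
  rw [Blk.shift, Blk.shift, show p + k + C.b = p + C.b + k by ring]

lemma T_shift (hθ0 : θ 0 = 1) (c : ℤ → A) (k : ℤ) :
    C.T θ (fun i => c (i + k)) = fun i => C.T θ c (i + k) := by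
  funext i
  rcases T_cases hθ0 c (i + k) with ⟨p, m', m, h1, h2, h3, h4⟩ | ⟨h1, h2⟩
  · have h5 : C.Act θ (fun i => c (i + k)) (p - k) m' m := by
      rw [Act.shift, sub_add_cancel]; exact h1
    have := T_act hθ0 h5 (i + k - p).toNat (by omega)
    rw [h4, ← this]
    congr 1
    omega
  · rw [h2]
    apply T_not
    intro p m' m h3
    rw [Act.shift] at h3
    rcases h1 _ _ _ h3 with h4 | h4 <;> omega

end

end BlockCode

end Pool.Agent.Lib.MP_e5892f_al
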