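import Mathlib

/-!
# Conjugacy normal forms in a group generated by two subgroups

Every element of the subgroup generated by two subgroups `A` and `B` is conjugate (inside that
subgroup) to an element of `A`, to an element of `B`, or to a product
`a₁ b₁ a₂ b₂ ⋯ a_l b_l` with `l ≥ 1` and all `a_i ∈ A`, `b_i ∈ B` nontrivial.
-/

namespace Pool.Agent.Lib.MP_e5892f_al

variable {G : Type*} [Group G]

/-- The product `a₁ b₁ a₂ b₂ ⋯`. -/
def altProd (l : List (G × G)) : G := (l.map fun p => p.1 * p.2).prod

@[simp] lemma altProd_nil : altProd ([] : List (G × G)) = 1 := rfl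

@[simp] lemma altProd_cons (p : G × G) (l : List (G × G)) :
    altProd (p :: l) = p.1 * p.2 * altProd l := by
  simp [altProd]

lemma altProd_append (l l' : List (G × G)) : altProd (l ++ l') = altProd l * altProd l' := by
  simp [altProd]

/-- All syllables are nontrivial elements of `A`, `B`. -/
def IsAlt (A B : Subgroup G) (l : List (G × G)) : Prop :=
  ∀ p ∈ l, p.1 ∈ A ∧ p.1 ≠ 1 ∧ p.2 ∈ B ∧ p.2 ≠ 1

lemma IsAlt.nil (A B : Subgroup G) : IsAlt A B [] := by simp [IsAlt]

lemma isAlt_cons {A B : Subgroup G} {p : G × G} {l : List (G × G)} :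
    IsAlt A B (p :: l) ↔ (p.1 ∈ A ∧ p.1 ≠ 1 ∧ p.2 ∈ B ∧ p.2 ≠ 1) ∧ IsAlt A B l := by
  simp [IsAlt]

lemma isAlt_append {A B : Subgroup G} {l l' : List (G × G)} :
    IsAlt A B (l ++ l') ↔ IsAlt A B l ∧ IsAlt A B l' := by
  simp only [IsAlt, List.mem_append]
  constructor
  · intro h
    exact ⟨fun p hp => h p (Or.inl hp), fun p hp => h p (Or.inr hp)⟩
  · rintro ⟨h, h'⟩ p (hp | hp)
    · exact h p hp
    · exact h' p hp

lemma altProd_mem {A B : Subgroup G} {l : List (G × G)} (hl : IsAlt A B l) :
    altProd l ∈ A ⊔ B := by
  induction l with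
  | nil => exact one_mem _
  | cons p l ih =>
    rw [isAlt_cons] at hl
    rw [altProd_cons]
    exact mul_mem (mul_mem (Subgroup.mem_sup_left hl.1.1) (Subgroup.mem_sup_right hl.1.2.2.1))
      (ih hl.2)

/-- Normal form. -/
lemma exists_form (A B : Subgroup G) (g : G) (hg : g ∈ A ⊔ B) :
    ∃ b ∈ B, ∃ a ∈ A, ∃ l, IsAlt A B l ∧ g = b * altProd l * a := by
  have hg' : g ∈ Subgroup.closure ((A : Set G) ∪ B) := by
    rwa [Subgroup.closure_union, Subgroup.closure_eq, Subgroup.closure_eq]
  have key : ∀ x ∈ ((A : Set G) ∪ B), ∀ y, (∃ b ∈ B, ∃ a ∈ A, ∃ l, IsAlt A B l ∧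
      y = b * altProd l * a) → ∃ b ∈ B, ∃ a ∈ A, ∃ l, IsAlt A B l ∧ x * y = b * altProd l * a := by
    rintro x (hx | hx) y ⟨b, hb, a, ha, l, hl, rfl⟩
    · by_cases hb1 : b = 1
      · subst hb1
        cases l with
        | nil =>
          exact ⟨1, one_mem _, x * a, mul_mem hx ha, [], IsAlt.nil _ _, by simp⟩
        | cons p l =>
          rw [isAlt_cons] at hl
          by_cases h1 : x * p.1 = 1
          · refine ⟨p.2, hl.1.2.2.1, a, ha, l, hl.2, ?_⟩
            rw [altProd_cons]
            calc x * (1 * (p.1 * p.2 * altProd l) * a) = (x * p.1) * p.2 * altProd l * a := by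
                  group
              _ = _ := by rw [h1, one_mul]
          · refine ⟨1, one_mem _, a, ha, (x * p.1, p.2) :: l, ?_, ?_⟩
            · rw [isAlt_cons]
              exact ⟨⟨mul_mem hx hl.1.1, h1, hl.1.2.2.1, hl.1.2.2.2⟩, hl.2⟩
            · rw [altProd_cons, altProd_cons]
              group
      · by_cases hx1 : x = 1
        · subst hx1
          exact ⟨b, hb, a, ha, l, hl, by simp⟩
        · refine ⟨1, one_mem _, a, ha, (x, b) :: l, ?_, ?_⟩
          · rw [isAlt_cons]
            exact ⟨⟨hx, hx1, hb, hb1⟩, hl⟩
          · rw [altProd_cons]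
            group
    · exact ⟨x * b, mul_mem hx hb, a, ha, l, hl, by group⟩
  induction hg' using Subgroup.closure_induction_left with
  | one => exact ⟨1, one_mem _, 1, one_mem _, [], IsAlt.nil _ _, by simp⟩
  | mul_left x hx y hy ih =>
    have hy' : y ∈ A ⊔ B := by
      rwa [Subgroup.closure_union, Subgroup.closure_eq, Subgroup.closure_eq] at hy
    exact key x hx y (ih hy')
  | inv_mul_cancel x hx y hy ih =>
    have hy' : y ∈ A ⊔ B := by
      rwa [Subgroup.closure_union, Subgroup.closure_eq, Subgroup.closure_eq] at hy
    have hx' : x⁻¹ ∈ ((A : Set G) ∪ B) := by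
      rcases hx with hx | hx
      · exact Or.inl (inv_mem hx)
      · exact Or.inr (inv_mem hx)
    exact key x⁻¹ hx' y (ih hy')

/-- A conjugation invariant property of elements of `A ⊔ B` which holds on `A`, on `B` and on all
nonempty alternating products holds everywhere. -/
theorem conj_induction (A B : Subgroup G) (P : G → Prop)
    (hA : ∀ a ∈ A, P a) (hB : ∀ b ∈ B, P b)
    (hW : ∀ p l, IsAlt A B (p :: l) → P (altProd (p :: l)))
    (hconj : ∀ g ∈ A ⊔ B, ∀ k ∈ A ⊔ B, P g → P (k * g * k⁻¹)) (g : G) (hg : g ∈ A ⊔ B) :
    P g := by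
  have main : ∀ n : ℕ, ∀ l : List (G × G), l.length = n → IsAlt A B l → ∀ b ∈ B, ∀ a ∈ A,
      P (b * altProd l * a) := by
    intro n
    induction n using Nat.strong_induction_on with
    | _ n ih =>
      intro l hn hl b hb a ha
      have hmem : altProd l ∈ A ⊔ B := altProd_mem hl
      have haS : a ∈ A ⊔ B := Subgroup.mem_sup_left ha
      have hbS : b ∈ A ⊔ B := Subgroup.mem_sup_right hb
      by_cases hb1 : b = 1
      · subst hb1
        suffices h : P (a * altProd l) by
          have := hconj _ (mul_mem haS hmem) a⁻¹ (inv_mem haS) h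
          convert this using 1
          group
        cases l with
        | nil => simpa using hA a ha
        | cons p l =>
          have hl' := hl
          rw [isAlt_cons] at hl
          by_cases h1 : a * p.1 = 1
          · have h2 := ih l.length (by rw [← hn]; simp) l rfl hl.2 p.2 hl.1.2.2.1 1 (one_mem _)
            convert h2 using 1
            rw [altProd_cons]
            calc a * (p.1 * p.2 * altProd l) = (a * p.1) * p.2 * altProd l := by group
              _ = _ := by rw [h1]; group
          · have h2 := hW (a * p.1, p.2) l (by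
              rw [isAlt_cons]
              exact ⟨⟨mul_mem ha hl.1.1, h1, hl.1.2.2.1, hl.1.2.2.2⟩, hl.2⟩)
            convert h2 using 1
            rw [altProd_cons, altProd_cons]
            group
      · by_cases ha1 : a = 1
        · subst ha1
          suffices h : P (altProd l * b) by
            have := hconj _ (mul_mem hmem hbS) b hbS h
            convert this using 1
            group
          rcases List.eq_nil_or_concat l with rfl | ⟨l', q, rfl⟩
          · simpa using hB b hb
          · rw [List.concat_eq_append] at hn hl ⊢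
            rw [isAlt_append, isAlt_cons] at hl
            by_cases h1 : q.2 * b = 1
            · have h2 := ih l'.length (by rw [← hn]; simp) l' rfl hl.1 1 (one_mem _) q.1
                hl.2.1.1
              convert h2 using 1
              rw [altProd_append, altProd_cons, altProd_nil]
              calc altProd l' * (q.1 * q.2 * 1) * b = altProd l' * q.1 * (q.2 * b) := by group
                _ = _ := by rw [h1]; group
            · have h3 : IsAlt A B (l' ++ [(q.1, q.2 * b)]) := by
                rw [isAlt_append, isAlt_cons]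
                exact ⟨hl.1, ⟨hl.2.1.1, hl.2.1.2.1, mul_mem hl.2.1.2.2.1 hb, h1⟩, IsAlt.nil _ _⟩
              have h4 : altProd (l' ++ [q]) * b = altProd (l' ++ [(q.1, q.2 * b)]) := by
                rw [altProd_append, altProd_append, altProd_cons, altProd_cons, altProd_nil]
                group
              rw [h4]
              cases hcases : l' ++ [(q.1, q.2 * b)] with
              | nil => simp at hcases
              | cons p l'' =>
                rw [hcases] at h3
                exact hW p l'' h3
        · suffices h : P (altProd ((a, b) :: l)) by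
            have hm : altProd ((a, b) :: l) ∈ A ⊔ B := by
              rw [altProd_cons]
              exact mul_mem (mul_mem haS hbS) hmem
            have := hconj _ hm a⁻¹ (inv_mem haS) h
            convert this using 1
            rw [altProd_cons]
            group
          exact hW _ _ (by
            rw [isAlt_cons]
            exact ⟨⟨ha, ha1, hb, hb1⟩, hl⟩)
  obtain ⟨b, hb, a, ha, l, hl, rfl⟩ := exists_form A B g hg
  exact main _ l rfl hl b hb a ha

end Pool.Agent.Lib.MP_e5892f_al
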