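import Mathlib

/-!
# Ping-pong pairs, invariant probability measures, the dynamical Tits alternative, and the
groups of the problem
-/

namespace Pool.Agent.Lib.MP_e5892f_al

open MeasureTheory Set

/-- The subgroup `H` of homeomorphisms of `X` has a ping-pong pair: there are `g, h ∈ H` and
pairwise disjoint open sets `U₁, U₂, V₁, V₂` with `g (X ∖ U₁) ⊆ V₁` and `h (X ∖ U₂) ⊆ V₂`. -/
def HasPingPongPair {X : Type*} [TopologicalSpace X] (H : Subgroup (X ≃ₜ X)) : Prop :=
  ∃ g ∈ H, ∃ h ∈ H, ∃ U₁ U₂ V₁ V₂ : Set X,
    IsOpen U₁ ∧ IsOpen U₂ ∧ IsOpen V₁ ∧ IsOpen V₂ ∧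
    Disjoint U₁ U₂ ∧ Disjoint U₁ V₁ ∧ Disjoint U₁ V₂ ∧
    Disjoint U₂ V₁ ∧ Disjoint U₂ V₂ ∧ Disjoint V₁ V₂ ∧
    g '' U₁ᶜ ⊆ V₁ ∧ h '' U₂ᶜ ⊆ V₂

/-- The subgroup `H` of homeomorphisms of `X` preserves a regular Borel probability measure. -/
def PreservesProbability {X : Type*} [TopologicalSpace X] (H : Subgroup (X ≃ₜ X)) : Prop :=
  letI : MeasurableSpace X := borel X
  ∃ μ : Measure X, IsProbabilityMeasure μ ∧ μ.Regular ∧ ∀ g ∈ H, μ.map g = μ

/-- The dynamical Tits alternative for a set `G` of homeomorphisms of `X` (in the applications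
`G` is a group): every subgroup of homeomorphisms contained in `G` preserves a regular Borel
probability measure or has a ping-pong pair. -/
def DynamicalTitsAlternative {X : Type*} [TopologicalSpace X] (G : Set (X ≃ₜ X)) : Prop :=
  ∀ H : Subgroup (X ≃ₜ X), (H : Set (X ≃ₜ X)) ⊆ G → PreservesProbability H ∨ HasPingPongPair H

/-- Put the letter `a` in front of the sequence `x`. -/
def cns {A : Type*} (a : A) (x : ℕ → A) : ℕ → A
  | 0 => a
  | n + 1 => x n

/-- Put the word `l` in front of the sequence `x`. -/
def app {A : Type*} : List A → (ℕ → A) → (ℕ → A)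
  | [], x => x
  | a :: l, x => cns a (app l x)

/-- A finite-state asynchronous transducer over the alphabet `A`: at each transition it reads one
letter and writes a finite, possibly empty, word. -/
structure Transducer (A : Type) where
  /-- the states -/
  Q : Type
  /-- there are finitely many states -/
  finite : Finite Q
  /-- the initial state -/
  q₀ : Q
  /-- the transition function -/
  δ : Q → A → Q
  /-- the output function -/
  out : Q → A → List A

namespace Transducer

variable {A : Type} (T : Transducer A)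

/-- The state after reading `n` letters of `x`. -/
def state (x : ℕ → A) : ℕ → T.Q
  | 0 => T.q₀
  | n + 1 => T.δ (state x n) (x n)

/-- The word written while reading the first `n` letters of `x`. -/
def written (x : ℕ → A) : ℕ → List A
  | 0 => []
  | n + 1 => written x n ++ T.out (T.state x n) (x n)

/-- The transducer computes `f`: the infinite word written on input `x` is `f x`. -/
def Computes (f : (ℕ → A) → (ℕ → A)) : Prop :=
  ∀ x : ℕ → A, (∀ n, ∃ y : ℕ → A, f x = app (T.written x n) y) ∧
    ∀ L, ∃ n, L ≤ (T.written x n).length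

end Transducer

/-- The rational group of the alphabet `A`: all homeomorphisms of `A^ℕ` which are computed by a
finite-state asynchronous transducer. -/
def RationalGroup (A : Type) [TopologicalSpace A] : Set ((ℕ → A) ≃ₜ (ℕ → A)) :=
  {f | ∃ T : Transducer A, T.Computes f}

/-- The Brin-Thompson group `nV`, as a set of homeomorphisms of the `n`-th power of the Cantor
set of binary sequences: for some `N`, the restriction of `f` to each of the finitely many dyadic
boxes given by words `u₁, …, uₙ` of length `N` is a prefix replacement `u_i z_i ↦ v_i z_i` in each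
coordinate. -/
def BrinThompson (n : ℕ) : Set ((Fin n → ℕ → Bool) ≃ₜ (Fin n → ℕ → Bool)) :=
  {f | ∃ N : ℕ, ∀ u : Fin n → List Bool, (∀ i, (u i).length = N) →
    ∃ v : Fin n → List Bool, ∀ z : Fin n → ℕ → Bool,
      f (fun i => app (u i) (z i)) = fun i => app (v i) (z i)}

/-- The Higman-Thompson group `V_{d,k}`, as a set of homeomorphisms of the disjoint union
`{1,…,k} × {0,…,d-1}^ℕ` of `k` copies of the Cantor set of sequences over an alphabet with `d`
letters: for some `N`, the restriction of `h` to each of the finitely many cones given by an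
index `κ` and a word `u` of length `N` is a prefix replacement `(κ, u z) ↦ (κ', v z)`. -/
def HigmanThompson (d k : ℕ) : Set ((Fin k × (ℕ → Fin d)) ≃ₜ (Fin k × (ℕ → Fin d))) :=
  {h | ∃ N : ℕ, ∀ (κ : Fin k) (u : List (Fin d)), u.length = N →
    ∃ (κ' : Fin k) (v : List (Fin d)), ∀ z : ℕ → Fin d, h (κ, app u z) = (κ', app v z)}

/-- The homeomorphisms which induce automorphisms of `V_{d,k}` by conjugation. -/
def AutHigmanThompson (d k : ℕ) : Set ((Fin k × (ℕ → Fin d)) ≃ₜ (Fin k × (ℕ → Fin d))) :=
  {f | ∀ h : (Fin k × (ℕ → Fin d)) ≃ₜ (Fin k × (ℕ → Fin d)),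
    h ∈ HigmanThompson d k ↔ f * h * f⁻¹ ∈ HigmanThompson d k}

end Pool.Agent.Lib.MP_e5892f_al
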