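import Mathlib
import Pool.Agent.Lib.MP_e5892f_al.Defs

/-!
# Elementary facts on ping-pong sets
-/

namespace Pool.Agent.Lib.MP_e5892f_al

open MeasureTheory Set Filter Topology

variable {X : Type*} [TopologicalSpace X]

/-- `U` is repelling and `V` attracting for `g`. -/
structure IsPP (g : X ≃ₜ X) (U V : Set X) : Prop where
  openU : IsOpen U
  openV : IsOpen V
  disj : Disjoint U V
  maps : g '' Uᶜ ⊆ V

namespace IsPP

variable {g : X ≃ₜ X} {U V : Set X}

lemma map_compl (h : IsPP g U V) {x : X} (hx : x ∉ U) : g x ∈ V :=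
  h.maps ⟨x, hx, rfl⟩

lemma not_mem_U (h : IsPP g U V) {x : X} (hx : x ∈ V) : x ∉ U :=
  fun hU => (Set.disjoint_left.mp h.disj) hU hx

lemma not_mem_V (h : IsPP g U V) {x : X} (hx : x ∈ U) : x ∉ V :=
  fun hV => (Set.disjoint_left.mp h.disj) hx hV

lemma fwd (h : IsPP g U V) {x : X} (hx : x ∈ V) : g x ∈ V :=
  h.map_compl (h.not_mem_U hx)

lemma bwd (h : IsPP g U V) {x : X} (hx : x ∈ U) : g⁻¹ x ∈ U := by
  by_contra hc
  have := h.map_compl hc
  rw [show g (g⁻¹ x) = x from g.apply_symm_apply x] at this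
  exact h.not_mem_V hx this

/-- `V` is repelling and `U` attracting for the inverse. -/
lemma inv (h : IsPP g U V) : IsPP g⁻¹ V U := by
  refine ⟨h.openV, h.openU, h.disj.symm, ?_⟩
  rintro _ ⟨x, hx, rfl⟩
  by_contra hc
  have := h.map_compl hc
  rw [show g (g⁻¹ x) = x from g.apply_symm_apply x] at this
  exact hx this

lemma fwd_pow (h : IsPP g U V) {x : X} (hx : x ∈ V) (n : ℕ) : (g ^ n) x ∈ V := by
  induction n with
  | zero => simpa using hx
  | succ n ih =>
    rw [pow_succ']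
    exact h.fwd ih

lemma bwd_pow (h : IsPP g U V) {x : X} (hx : x ∈ U) (n : ℕ) : (g⁻¹ ^ n) x ∈ U :=
  h.inv.fwd_pow hx n

/-- Points fixed by a positive power lie in `U ∪ V`. -/
lemma periodic (h : IsPP g U V) {x : X} {n : ℕ} (hx : (g ^ (n + 1)) x = x) : x ∈ U ∪ V := by
  by_cases hU : x ∈ U
  · exact Or.inl hU
  · right
    have h1 : g x ∈ V := h.map_compl hU
    have h2 := h.fwd_pow h1 n
    have h3 : (g ^ n) (g x) = (g ^ (n + 1)) x := by
      rw [pow_succ]; rfl
    rw [h3, hx] at h2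
    exact h2

lemma fixed (h : IsPP g U V) {x : X} (hx : g x = x) : x ∈ U ∪ V :=
  h.periodic (n := 0) (by simpa using hx)

/-- If the forward orbit of `x` converges to a point of `U` then `x ∈ U`. -/
lemma mem_U_of_tendsto (h : IsPP g U V) {x q : X}
    (hlim : Tendsto (fun n : ℕ => (g ^ n) x) atTop (𝓝 q)) (hq : q ∈ U) : x ∈ U := by
  have := (hlim.eventually (h.openU.mem_nhds hq)).exists
  obtain ⟨n, hn⟩ := this
  have h2 := h.bwd_pow hn n
  have h3 : (g⁻¹ ^ n) ((g ^ n) x) = x := by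
    have : (g⁻¹ ^ n * g ^ n) x = x := by
      rw [inv_pow, inv_mul_cancel]; rfl
    exact this
  rwa [h3] at h2

/-- If the backward orbit of `x` converges to a point of `V` then `x ∈ V`. -/
lemma mem_V_of_tendsto (h : IsPP g U V) {x p : X}
    (hlim : Tendsto (fun n : ℕ => (g⁻¹ ^ n) x) atTop (𝓝 p)) (hp : p ∈ V) : x ∈ V :=
  h.inv.mem_U_of_tendsto hlim hp

/-- If `p` is a fixed point in `V`, and `x` is a point with backward limit `p` and forward
limit a fixed point `q`, then `q ∈ V`. -/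
lemma heteroclinic (h : IsPP g U V) {x p q : X}
    (hp : Tendsto (fun n : ℕ => (g⁻¹ ^ n) x) atTop (𝓝 p))
    (hq : Tendsto (fun n : ℕ => (g ^ n) x) atTop (𝓝 q)) (hqf : g q = q) (hpV : p ∈ V) :
    q ∈ V := by
  have hx : x ∈ V := h.mem_V_of_tendsto hp hpV
  rcases h.fixed hqf with hU | hV
  · exact absurd (h.mem_U_of_tendsto hq hU) (h.not_mem_U hx)
  · exact hV

/-- Conjugation. -/
lemma conj (k : X ≃ₜ X) (h : IsPP (k * g * k⁻¹) U V) :
    IsPP g (k ⁻¹' U) (k ⁻¹' V) := by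
  refine ⟨h.openU.preimage k.continuous, h.openV.preimage k.continuous,
    h.disj.preimage _, ?_⟩
  rintro _ ⟨x, hx, rfl⟩
  have h1 : k x ∉ U := hx
  have h2 := h.map_compl h1
  have h3 : (k * g * k⁻¹) (k x) = k (g x) := by
    change k (g (k⁻¹ (k x))) = _
    rw [show k⁻¹ (k x) = x from k.symm_apply_apply x]
  rw [h3] at h2
  exact h2

/-- Pulling back along a continuous equivariant map. -/
lemma pullback {Y : Type*} [TopologicalSpace Y] {g' : Y ≃ₜ Y} {j : Y → X} (hj : Continuous j)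
    (heq : ∀ y, j (g' y) = g (j y)) (h : IsPP g U V) : IsPP g' (j ⁻¹' U) (j ⁻¹' V) := by
  refine ⟨h.openU.preimage hj, h.openV.preimage hj, h.disj.preimage _, ?_⟩
  rintro _ ⟨y, hy, rfl⟩
  change j (g' y) ∈ V
  rw [heq]
  exact h.map_compl hy

/-- The image of `V` has closure inside `V`. -/
lemma closure_image_subset [CompactSpace X] [T2Space X] (h : IsPP g U V) {S : Set X}
    (hS : S ⊆ V) : closure (g '' S) ⊆ V := by
  have h1 : IsClosed (g '' Uᶜ) := by
    have : IsCompact (g '' Uᶜ) := (h.openU.isClosed_compl.isCompact).image g.continuous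
    exact this.isClosed
  refine (closure_minimal ?_ h1).trans h.maps
  apply Set.image_mono
  intro x hx
  exact h.not_mem_U (hS hx)

end IsPP

/-- If a nonempty set `Y₁` lies in `U ∪ V` for every `g ∈ H` with ping-pong sets `(U, V)`, then
`H` has no ping-pong pair. -/
lemma not_hasPingPongPair_of_common {H : Subgroup (X ≃ₜ X)} (p : X)
    (hp : ∀ g ∈ H, ∀ U V : Set X, IsPP g U V → p ∈ U ∪ V) : ¬ HasPingPongPair H := by
  rintro ⟨g, hg, h, hh, U₁, U₂, V₁, V₂, oU₁, oU₂, oV₁, oV₂, d1, d2, d3, d4, d5, d6, m1, m2⟩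
  have h1 := hp g hg U₁ V₁ ⟨oU₁, oV₁, d2, m1⟩
  have h2 := hp h hh U₂ V₂ ⟨oU₂, oV₂, d5, m2⟩
  rw [Set.disjoint_left] at d1 d3 d4 d6
  rcases h1 with h1 | h1 <;> rcases h2 with h2 | h2
  · exact d1 h1 h2
  · exact d3 h1 h2
  · exact d4 h2 h1
  · exact d6 h1 h2

/-- Elements of finite order have every point in `U ∪ V`. -/
lemma IsPP.of_pow_eq_one {g : X ≃ₜ X} {U V : Set X} (h : IsPP g U V) {n : ℕ}
    (hg : g ^ (n + 1) = 1) (x : X) : x ∈ U ∪ V :=
  h.periodic (n := n) (by rw [hg]; rfl)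

end Pool.Agent.Lib.MP_e5892f_al
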