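import Mathlib
import Pool.Agent.Lib.MP_e5892f_al.Defs

/-!
# One-sided infinite sequences
-/

namespace Pool.Agent.Lib.MP_e5892f_al

open Set Filter Topology

variable {A : Type*}

/-- Remove the first letter. -/
def tl (x : ℕ → A) : ℕ → A := fun n => x (n + 1)

@[simp] lemma cns_zero (a : A) (x : ℕ → A) : cns a x 0 = a := rfl

@[simp] lemma cns_succ (a : A) (x : ℕ → A) (n : ℕ) : cns a x (n + 1) = x n := rfl

@[simp] lemma tl_cns (a : A) (x : ℕ → A) : tl (cns a x) = x := rfl

@[simp] lemma tl_apply (x : ℕ → A) (n : ℕ) : tl x n = x (n + 1) := rfl

lemma cns_head_tl (x : ℕ → A) : cns (x 0) (tl x) = x := by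
  funext n
  cases n <;> rfl

@[simp] lemma app_nil (x : ℕ → A) : app [] x = x := rfl

@[simp] lemma app_cons (a : A) (l : List A) (x : ℕ → A) : app (a :: l) x = cns a (app l x) := rfl

lemma app_append (l l' : List A) (x : ℕ → A) : app (l ++ l') x = app l (app l' x) := by
  induction l with
  | nil => rfl
  | cons a l ih => simp [ih]

lemma cns_injective {a b : A} {x y : ℕ → A} (h : cns a x = cns b y) : a = b ∧ x = y := by
  refine ⟨?_, ?_⟩
  · simpa using congrFun h 0
  · funext n
    simpa using congrFun h (n + 1)

/-- Letters of `app l x`. -/
lemma app_apply_of_lt (l : List A) (x y : ℕ → A) (n : ℕ) (hn : n < l.length) :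
    app l x n = app l y n := by
  induction l generalizing n with
  | nil => simp at hn
  | cons a l ih =>
    cases n with
    | zero => rfl
    | succ n => exact ih n (by simpa using hn)

lemma app_apply_add (l : List A) (x : ℕ → A) (n : ℕ) : app l x (l.length + n) = x n := by
  induction l with
  | nil => simp
  | cons a l ih =>
    rw [List.length_cons, show l.length + 1 + n = (l.length + n) + 1 by omega]
    exact ih

lemma app_getElem (l : List A) (x : ℕ → A) (n : ℕ) (hn : n < l.length) : app l x n = l[n] := by
  induction l generalizing n with
  | nil => simp at hn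
  | cons a l ih =>
    cases n with
    | zero => rfl
    | succ n => exact ih n (by simpa using hn)

/-- The word formed by the first `n` letters. -/
def pre (x : ℕ → A) (n : ℕ) : List A := List.ofFn fun i : Fin n => x i

@[simp] lemma length_pre (x : ℕ → A) (n : ℕ) : (pre x n).length = n := by simp [pre]

lemma app_pre (x : ℕ → A) (n : ℕ) : app (pre x n) (fun k => x (n + k)) = x := by
  funext k
  by_cases hk : k < n
  · rw [app_getElem _ _ _ (by simpa using hk)]
    simp [pre]
  · obtain ⟨j, rfl⟩ := Nat.exists_eq_add_of_le (not_lt.mp hk)
    have := app_apply_add (pre x n) (fun k => x (n + k)) j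
    simpa using this

lemma pre_app (l : List A) (x : ℕ → A) : pre (app l x) l.length = l := by
  apply List.ext_getElem
  · simp
  · intro n h1 h2
    simp only [pre, List.getElem_ofFn]
    exact app_getElem l x n h2

/-- The periodic sequence `l l l ⋯` of a nonempty word. -/
def per (l : List A) (h : l ≠ []) : ℕ → A := fun n =>
  l[n % l.length]'(Nat.mod_lt _ (List.length_pos_of_ne_nil h))

lemma app_per (l : List A) (h : l ≠ []) : app l (per l h) = per l h := by
  funext n
  have hpos : 0 < l.length := List.length_pos_of_ne_nil h
  by_cases hn : n < l.length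
  · rw [app_getElem _ _ _ hn]
    simp [per, Nat.mod_eq_of_lt hn]
  · obtain ⟨j, rfl⟩ := Nat.exists_eq_add_of_le (not_lt.mp hn)
    rw [app_apply_add]
    simp [per]

section topology

variable [TopologicalSpace A]

@[fun_prop]
lemma continuous_cns {X : Type*} [TopologicalSpace X] {f : X → A} {g : X → ℕ → A}
    (hf : Continuous f) (hg : Continuous g) : Continuous fun x => cns (f x) (g x) := by
  apply continuous_pi
  intro n
  cases n with
  | zero => simpa using hf
  | succ n => exact (continuous_apply n).comp hg

@[fun_prop]
lemma continuous_tl {X : Type*} [TopologicalSpace X] {g : X → ℕ → A}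
    (hg : Continuous g) : Continuous fun x => tl (g x) := by
  apply continuous_pi
  intro n
  exact (continuous_apply (n + 1)).comp hg

lemma continuous_app (l : List A) : Continuous (app l) := by
  induction l with
  | nil => exact continuous_id
  | cons a l ih => exact continuous_cns continuous_const ih

/-- Iterating a nonempty prefix converges to any of its fixed points. -/
lemma tendsto_iterate_app (l : List A) (h : l ≠ []) (q : ℕ → A) (hq : app l q = q)
    (s : ℕ → A) : Tendsto (fun n => (app l)^[n] s) atTop (𝓝 q) := by
  have hpos : 0 < l.length := List.length_pos_of_ne_nil h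
  have key : ∀ n k, k < n → ∀ s t : ℕ → A, (app l)^[n] s k = (app l)^[n] t k := by
    intro n
    induction n with
    | zero => intro k hk; omega
    | succ n ih =>
      intro k hk s t
      rw [Function.iterate_succ_apply', Function.iterate_succ_apply']
      by_cases hkl : k < l.length
      · exact app_apply_of_lt _ _ _ _ hkl
      · obtain ⟨j, rfl⟩ := Nat.exists_eq_add_of_le (not_lt.mp hkl)
        rw [app_apply_add, app_apply_add]
        exact ih j (by omega) s t
  have hfix : ∀ n, (app l)^[n] q = q := fun n => Function.iterate_fixed hq n
  rw [tendsto_pi_nhds]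
  intro k
  apply tendsto_const_nhds.congr'
  filter_upwards [eventually_gt_atTop k] with n hn
  rw [key n k hn s q, hfix]

/-- Continuity of a conditional on a Boolean valued continuous function. -/
@[fun_prop]
lemma continuous_cond {X Y : Type*} [TopologicalSpace X] [TopologicalSpace Y] {c : X → Bool}
    {f g : X → Y} (hc : Continuous c) (hf : Continuous f) (hg : Continuous g) :
    Continuous fun x => cond (c x) (f x) (g x) := by
  rw [continuous_iff_continuousAt]
  intro x
  have hev : ∀ᶠ y in 𝓝 x, c y = c x := by
    have h1 : Tendsto c (𝓝 x) (𝓝 (c x)) := hc.continuousAt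
    rw [nhds_discrete Bool, tendsto_pure] at h1
    exact h1
  cases hcx : c x with
  | true =>
    apply hf.continuousAt.congr
    filter_upwards [hev] with y hy
    rw [hy, hcx]; rfl
  | false =>
    apply hg.continuousAt.congr
    filter_upwards [hev] with y hy
    rw [hy, hcx]; rfl

end topology

end Pool.Agent.Lib.MP_e5892f_al
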