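import Mathlib
import Pool.Agent.Lib.MP_e5892f_al.Seq
import Pool.Agent.Lib.MP_e5892f_al.PingPong
import Pool.Agent.Lib.MP_e5892f_al.GroupLemma

/-!
# The two-stack action of `Z/2 * Z/3` on `C × C`

The space `C × C` is cut into three regions `R`, `L`, `D`, each a copy of
`flag × C × C`, with flag `false` or `true`.
-/

namespace Pool.Agent.Lib.MP_e5892f_al

open Set Filter Topology MeasureTheory

/-- The Cantor set of binary sequences. -/
abbrev Can : Type := ℕ → Bool

/-- The region `R`. -/
def pR (f : Bool) (x y : Can) : Can × Can := (cns false x, cns f y)

/-- The region `L`. -/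
def pL (f : Bool) (x y : Can) : Can × Can := (cns true (cns false x), cns f y)

/-- The region `D`. -/
def pD (f : Bool) (x y : Can) : Can × Can := (cns true (cns true x), cns f y)

@[fun_prop]
lemma continuous_pR {X : Type*} [TopologicalSpace X] {f : Bool} {u v : X → Can}
    (hu : Continuous u) (hv : Continuous v) : Continuous fun p => pR f (u p) (v p) := by
  unfold pR; fun_prop

@[fun_prop]
lemma continuous_pL {X : Type*} [TopologicalSpace X] {f : Bool} {u v : X → Can}
    (hu : Continuous u) (hv : Continuous v) : Continuous fun p => pL f (u p) (v p) := by
  unfold pL; fun_prop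

@[fun_prop]
lemma continuous_pD {X : Type*} [TopologicalSpace X] {f : Bool} {u v : X → Can}
    (hu : Continuous u) (hv : Continuous v) : Continuous fun p => pD f (u p) (v p) := by
  unfold pD; fun_prop

/-- The flip of the flag. -/
def alphaFun (p : Can × Can) : Can × Can := (p.1, cns (!(p.2 0)) (tl p.2))

lemma alphaFun_R (f : Bool) (x y : Can) : alphaFun (pR f x y) = pR (!f) x y := rfl
lemma alphaFun_L (f : Bool) (x y : Can) : alphaFun (pL f x y) = pL (!f) x y := rfl
lemma alphaFun_D (f : Bool) (x y : Can) : alphaFun (pD f x y) = pD (!f) x y := rfl

/-- The map `β` on region `R`. -/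
def betaR (f : Bool) (x y : Can) : Can × Can :=
  cond f
    (cond (x 0) (pR false (tl x) (cns false y)) (pR true (cns true (tl x)) y))
    (cond (y 0)
      (cond (y 1) (pD true (cns true (cns true x)) (tl (tl y)))
        (pL false (cns true (cns false x)) (tl (tl y))))
      (pR true (cns false x) (tl y)))

/-- The map `β` on region `L`. -/
def betaL (f : Bool) (x y : Can) : Can × Can :=
  cond f
    (cond (y 0) (pL false (cns false x) (tl y)) (pL true x (cns true (tl y))))
    (cond (x 0)
      (cond (x 1) (pR false (tl (tl x)) (cns true (cns true y))) (pD true x y))
      (pL true (tl x) (cns false y)))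

/-- The map `β` on region `D`. -/
def betaD (f : Bool) (x y : Can) : Can × Can :=
  cond f
    (cond (x 0)
      (cond (x 1) (pL false x y) (pR false (tl (tl x)) (cns true (cns false y))))
      (cond (x 1) (pD false (tl (tl x)) y) (pD true (cns false (cns true (tl (tl x)))) y)))
    (pD true (cns false (cns false x)) y)

/-- The map `β`, of order three. -/
def betaFun (p : Can × Can) : Can × Can :=
  cond (p.1 0)
    (cond (p.1 1) (betaD (p.2 0) (tl (tl p.1)) (tl p.2)) (betaL (p.2 0) (tl (tl p.1)) (tl p.2)))
    (betaR (p.2 0) (tl p.1) (tl p.2))

lemma beta_RA0 (x y : Can) : betaFun (pR false x (cns false y)) = pR true (cns false x) y := rfl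
lemma beta_RA1f (x y : Can) : betaFun (pR false x (cns true (cns false y))) =
    pL false (cns true (cns false x)) y := rfl
lemma beta_RA1t (x y : Can) : betaFun (pR false x (cns true (cns true y))) =
    pD true (cns true (cns true x)) y := rfl
lemma beta_RBf (x y : Can) : betaFun (pR true (cns false x) y) = pR true (cns true x) y := rfl
lemma beta_RBt (x y : Can) : betaFun (pR true (cns true x) y) = pR false x (cns false y) := rfl
lemma beta_LA0 (x y : Can) : betaFun (pL false (cns false x) y) = pL true x (cns false y) := rfl
lemma beta_LA1f (x y : Can) : betaFun (pL false (cns true (cns false x)) y) =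
    pD true (cns true (cns false x)) y := rfl
lemma beta_LA1t (x y : Can) : betaFun (pL false (cns true (cns true x)) y) =
    pR false x (cns true (cns true y)) := rfl
lemma beta_LBf (x y : Can) : betaFun (pL true x (cns false y)) = pL true x (cns true y) := rfl
lemma beta_LBt (x y : Can) : betaFun (pL true x (cns true y)) = pL false (cns false x) y := rfl
lemma beta_DA (x y : Can) : betaFun (pD false x y) = pD true (cns false (cns false x)) y := rfl
lemma beta_DB0f (x y : Can) : betaFun (pD true (cns false (cns false x)) y) =
    pD true (cns false (cns true x)) y := rfl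
lemma beta_DB0t (x y : Can) : betaFun (pD true (cns false (cns true x)) y) =
    pD false x y := rfl
lemma beta_DB1f (x y : Can) : betaFun (pD true (cns true (cns false x)) y) =
    pR false x (cns true (cns false y)) := rfl
lemma beta_DB1t (x y : Can) : betaFun (pD true (cns true (cns true x)) y) =
    pL false (cns true (cns true x)) y := rfl

lemma cases_region {P : Can × Can → Prop} (hR : ∀ f x y, P (pR f x y))
    (hL : ∀ f x y, P (pL f x y)) (hD : ∀ f x y, P (pD f x y)) (p : Can × Can) : P p := by
  obtain ⟨u, v⟩ := p
  rw [← cns_head_tl v, ← cns_head_tl u]
  cases h0 : u 0 with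
  | false => exact hR _ _ _
  | true =>
    rw [← cns_head_tl (tl u)]
    cases h1 : tl u 0 with
    | false => exact hL _ _ _
    | true => exact hD _ _ _

lemma cases_cns {P : Can → Prop} (h : ∀ b x, P (cns b x)) (x : Can) : P x := by
  rw [← cns_head_tl x]; exact h _ _

lemma betaFun_cube (p : Can × Can) : betaFun (betaFun (betaFun p)) = p := by
  induction p using cases_region with
  | hR f x y =>
    cases f with
    | false =>
      induction y using cases_cns with
      | h b y =>
        cases b with
        | false => rfl
        | true =>
          induction y using cases_cns with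
          | h b y => cases b <;> rfl
    | true =>
      induction x using cases_cns with
      | h b x => cases b <;> rfl
  | hL f x y =>
    cases f with
    | false =>
      induction x using cases_cns with
      | h b x =>
        cases b with
        | false => rfl
        | true =>
          induction x using cases_cns with
          | h b x => cases b <;> rfl
    | true =>
      induction y using cases_cns with
      | h b y => cases b <;> rfl
  | hD f x y =>
    cases f with
    | false => rfl
    | true =>
      induction x using cases_cns with
      | h b x =>
        induction x using cases_cns with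
        | h b' x => cases b <;> cases b' <;> rfl

lemma alphaFun_sq (p : Can × Can) : alphaFun (alphaFun p) = p := by
  induction p using cases_region with
  | hR f x y => cases f <;> rfl
  | hL f x y => cases f <;> rfl
  | hD f x y => cases f <;> rfl

lemma continuous_alphaFun : Continuous alphaFun := by
  unfold alphaFun
  have : Continuous fun p : Can × Can => !(p.2 0) :=
    (continuous_of_discreteTopology (f := not)).comp
      ((continuous_apply 0).comp continuous_snd)
  fun_prop

lemma continuous_betaFun : Continuous betaFun := by
  unfold betaFun betaD betaL betaR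
  fun_prop

/-- `α` as a homeomorphism. -/
def alphaH : (Can × Can) ≃ₜ (Can × Can) where
  toFun := alphaFun
  invFun := alphaFun
  left_inv := alphaFun_sq
  right_inv := alphaFun_sq
  continuous_toFun := continuous_alphaFun
  continuous_invFun := continuous_alphaFun

/-- `β` as a homeomorphism. -/
def betaH : (Can × Can) ≃ₜ (Can × Can) where
  toFun := betaFun
  invFun := fun p => betaFun (betaFun p)
  left_inv := betaFun_cube
  right_inv := betaFun_cube
  continuous_toFun := continuous_betaFun
  continuous_invFun := continuous_betaFun.comp continuous_betaFun

lemma alphaH_apply (p : Can × Can) : alphaH p = alphaFun p := rfl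
lemma betaH_apply (p : Can × Can) : betaH p = betaFun p := rfl
lemma betaH_inv_apply (p : Can × Can) : betaH⁻¹ p = betaFun (betaFun p) := rfl

lemma alphaH_sq : alphaH ^ 2 = 1 := by
  ext1 p
  exact alphaFun_sq p

lemma betaH_cube : betaH ^ 3 = 1 := by
  ext1 p
  exact betaFun_cube p

end Pool.Agent.Lib.MP_e5892f_al
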