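import Mathlib
import Pool.Agent.Lib.MP_e5892f_al.TwoStack

/-!
# Dynamics of the two-stack action: no ping-pong pairs
-/

namespace Pool.Agent.Lib.MP_e5892f_al

open Set Filter Topology

lemma pow_apply_semiconj {X Z : Type*} [TopologicalSpace X] (g : X ≃ₜ X) (c : Z → X)
    (F : Z → Z) (h : ∀ z, g (c z) = c (F z)) (n : ℕ) (z : Z) : (g ^ n) (c z) = c (F^[n] z) := by
  induction n with
  | zero => rfl
  | succ n ih =>
    rw [pow_succ', Function.iterate_succ_apply', ← h, ← ih]
    rfl

/-- `β` or its inverse. -/
def bp (e : Bool) : (Can × Can) ≃ₜ (Can × Can) := cond e betaH⁻¹ betaH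

/-- The product `α β^e`. -/
def stp (e : Bool) : (Can × Can) ≃ₜ (Can × Can) := alphaH * bp e

/-- The product `α β^{e₁} α β^{e₂} ⋯`. -/
def W : List Bool → (Can × Can) ≃ₜ (Can × Can)
  | [] => 1
  | e :: l => stp e * W l

/-- The inverse word. -/
def li (l : List Bool) : List Bool := (l.map not).reverse

/-- Prepending `n` zeros. -/
def zr (n : ℕ) : Can → Can := app (List.replicate n false)

/-- The zero sequence. -/
def zz : Can := fun _ => false

lemma li_cons (e : Bool) (l : List Bool) : li (e :: l) = li l ++ [!e] := by simp [li]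

lemma li_append_singleton (e : Bool) (l : List Bool) : li (l ++ [e]) = (!e) :: li l := by
  simp [li]

lemma li_ne_nil {l : List Bool} (h : l ≠ []) : li l ≠ [] := by simp [li, h]

lemma li_li (l : List Bool) : li (li l) = l := by
  simp [li, List.map_reverse, Function.comp_def]

@[simp] lemma length_li (l : List Bool) : (li l).length = l.length := by simp [li]

lemma zr_succ (n : ℕ) (y : Can) : zr (n + 1) y = zr n (cns false y) := by
  rw [zr, List.replicate_succ', app_append]; rfl

lemma zr_succ' (n : ℕ) (y : Can) : zr (n + 1) y = cns false (zr n y) := by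
  rw [zr, List.replicate_succ]; rfl

lemma cns_false_zz : cns false zz = zz := by
  funext n; cases n <;> rfl

lemma zr_zz (n : ℕ) : zr n zz = zz := by
  induction n with
  | zero => rfl
  | succ n ih => rw [zr_succ', ih, cns_false_zz]

lemma tendsto_zr {n : ℕ} (hn : n ≠ 0) (y : Can) :
    Tendsto (fun k => (zr n)^[k] y) atTop (𝓝 zz) :=
  tendsto_iterate_app (List.replicate n false)
    (by intro h; apply hn; simpa using congrArg List.length h) zz (zr_zz n) y

lemma stp_apply (e : Bool) (p : Can × Can) :
    stp e p = alphaFun (cond e (betaFun (betaFun p)) (betaFun p)) := by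
  cases e <;> rfl

lemma stp_RA (e : Bool) (x y : Can) :
    stp e (pR false x (cns false y)) = pR false (cns e x) y := by
  cases e <;> rfl

lemma stp_LA (e : Bool) (x y : Can) :
    stp e (pL false (cns false x) y) = pL false x (cns e y) := by
  cases e <;> rfl

lemma stp_RB (e : Bool) (x y : Can) :
    stp e (pR true (cns (!e) x) y) = pR true x (cns false y) := by
  cases e <;> rfl

lemma stp_LB (e : Bool) (x y : Can) :
    stp e (pL true x (cns (!e) y)) = pL true (cns false x) y := by
  cases e <;> rfl

lemma stp_turn_R (e : Bool) (x y : Can) :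
    stp e (pR true (cns e x) y) = pR false (cns (!e) x) y := by
  cases e <;> rfl

lemma stp_turn_L (e : Bool) (x y : Can) :
    stp e (pL true x (cns e y)) = pL false x (cns (!e) y) := by
  cases e <;> rfl

lemma stp_cross_RL (e : Bool) (x y : Can) :
    stp e (pR false x (cns true (cns e y))) = pL true (cns true (cns e x)) y := by
  cases e <;> rfl

lemma stp_cross_LR (e : Bool) (x y : Can) :
    stp e (pL false (cns true (cns (!e) x)) y) = pR true x (cns true (cns (!e) y)) := by
  cases e <;> rfl

lemma W_cons_apply (e : Bool) (l : List Bool) (p : Can × Can) : W (e :: l) p = stp e (W l p) :=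
  rfl

lemma W_append (l l' : List Bool) : W (l ++ l') = W l * W l' := by
  induction l with
  | nil => simp [W]
  | cons e l ih => simp [W, ih, mul_assoc]

lemma W_append_apply (l l' : List Bool) (p : Can × Can) : W (l ++ l') p = W l (W l' p) := by
  rw [W_append]; rfl

lemma W_singleton_apply (e : Bool) (p : Can × Can) : W [e] p = stp e p := rfl

lemma W_RA (l : List Bool) (x y : Can) :
    W l (pR false x (zr l.length y)) = pR false (app l x) y := by
  induction l generalizing y with
  | nil => rfl
  | cons e l ih =>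
    rw [W_cons_apply, List.length_cons, zr_succ, ih, stp_RA]; rfl

lemma W_LA (l : List Bool) (x y : Can) :
    W l (pL false (zr l.length x) y) = pL false x (app l y) := by
  induction l generalizing x with
  | nil => rfl
  | cons e l ih =>
    rw [W_cons_apply, List.length_cons, zr_succ, ih, stp_LA]; rfl

lemma W_RB (l : List Bool) (x y : Can) :
    W l (pR true (app (li l) x) y) = pR true x (zr l.length y) := by
  induction l generalizing x with
  | nil => rfl
  | cons e l ih =>
    rw [W_cons_apply, li_cons, app_append, ih, List.length_cons, zr_succ']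
    exact stp_RB _ _ _

lemma W_LB (l : List Bool) (x y : Can) :
    W l (pL true x (app (li l) y)) = pL true (zr l.length x) y := by
  induction l generalizing y with
  | nil => rfl
  | cons e l ih =>
    rw [W_cons_apply, li_cons, app_append, ih, List.length_cons, zr_succ']
    exact stp_LB _ _ _

lemma inv_apply_eq {X : Type*} [TopologicalSpace X] {g : X ≃ₜ X} {x y : X} (h : g x = y) :
    g⁻¹ y = x := by
  rw [← h]; exact g.symm_apply_apply x

/-- Backward step on the `R` side. -/
lemma Winv_RA (l : List Bool) (x y : Can) :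
    (W l)⁻¹ (pR false (app l x) y) = pR false x (zr l.length y) := inv_apply_eq (W_RA l x y)

lemma Winv_LA (l : List Bool) (x y : Can) :
    (W l)⁻¹ (pL false x (app l y)) = pL false (zr l.length x) y := inv_apply_eq (W_LA l x y)

/-- Either `x` starts with `l`, or the backward step turns the flag. -/
lemma Winv_cases (l : List Bool) (x : Can) :
    (∃ x', x = app l x') ∨ ∃ x', (W l)⁻¹ (pR false x zz) = pR true x' zz := by
  induction l generalizing x with
  | nil => exact Or.inl ⟨x, rfl⟩
  | cons e l ih =>
    rw [← cns_head_tl x]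
    by_cases hb : x 0 = e
    · rw [hb]
      rcases ih (tl x) with ⟨x', hx'⟩ | ⟨x', hx'⟩
      · left
        refine ⟨x', ?_⟩
        rw [app_cons, ← hx']
      · right
        refine ⟨x', ?_⟩
        have h1 : (stp e)⁻¹ (pR false (cns e (tl x)) zz) = pR false (tl x) zz := by
          apply inv_apply_eq
          have := stp_RA e (tl x) zz
          rwa [cns_false_zz] at this
        change (stp e * W l)⁻¹ _ = _
        rw [mul_inv_rev]
        change (W l)⁻¹ ((stp e)⁻¹ _) = _
        rw [h1, hx']
    · right
      have hb' : x 0 = !e := by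
        cases h : x 0 <;> cases e <;> simp_all
      rw [hb']
      refine ⟨app (li l) (cns e (tl x)), ?_⟩
      have h1 : (stp e)⁻¹ (pR false (cns (!e) (tl x)) zz) = pR true (cns e (tl x)) zz :=
        inv_apply_eq (stp_turn_R e (tl x) zz)
      change (stp e * W l)⁻¹ _ = _
      rw [mul_inv_rev]
      change (W l)⁻¹ ((stp e)⁻¹ _) = _
      rw [h1]
      apply inv_apply_eq
      rw [W_RB, zr_zz]

section main

variable {l : List Bool} (hl : l ≠ [])

include hl in
lemma len_ne : l.length ≠ 0 := by simpa using hl

/-- The attracting point `a` on the `R` side. -/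
noncomputable def ptA : Can × Can := pR false (per l hl) zz

/-- The repelling point `r` on the `R` side. -/
noncomputable def ptR : Can × Can := pR true (per (li l) (li_ne_nil hl)) zz

/-- The attracting point on the `L` side. -/
noncomputable def ptA' : Can × Can := pL false zz (per l hl)

/-- The repelling point on the `L` side. -/
noncomputable def ptR' : Can × Can := pL true zz (per (li l) (li_ne_nil hl))

lemma fix_ptA : W l (ptA hl) = ptA hl := by
  have := W_RA l (per l hl) zz
  rw [zr_zz, app_per] at this
  exact this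

lemma fix_ptR : W l (ptR hl) = ptR hl := by
  have := W_RB l (per (li l) (li_ne_nil hl)) zz
  rw [zr_zz, app_per] at this
  exact this

lemma fix_ptA' : W l (ptA' hl) = ptA' hl := by
  have := W_LA l zz (per l hl)
  rw [zr_zz, app_per] at this
  exact this

lemma fix_ptR' : W l (ptR' hl) = ptR' hl := by
  have := W_LB l zz (per (li l) (li_ne_nil hl))
  rw [zr_zz, app_per] at this
  exact this

/-- Points with flag `false` of `Y₁` converge to `a`. -/
lemma tendsto_RA (s : Can) :
    Tendsto (fun n : ℕ => (W l ^ n) (pR false s zz)) atTop (𝓝 (ptA hl)) := by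
  have h1 : ∀ n : ℕ, (W l ^ n) (pR false s zz) = pR false ((app l)^[n] s) zz := fun n =>
    pow_apply_semiconj (W l) (fun s => pR false s zz) (app l) (fun z => by
      have := W_RA l z zz
      rwa [zr_zz] at this) n s
  simp_rw [h1]
  exact ((continuous_pR continuous_id continuous_const).tendsto _).comp
    (tendsto_iterate_app l hl _ (app_per l hl) s)

/-- Points with flag `false` of `Y₂` converge to `a'`. -/
lemma tendsto_LA (s : Can) :
    Tendsto (fun n : ℕ => (W l ^ n) (pL false zz s)) atTop (𝓝 (ptA' hl)) := by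
  have h1 : ∀ n : ℕ, (W l ^ n) (pL false zz s) = pL false zz ((app l)^[n] s) := fun n =>
    pow_apply_semiconj (W l) (fun s => pL false zz s) (app l) (fun z => by
      have := W_LA l zz z
      rwa [zr_zz] at this) n s
  simp_rw [h1]
  exact ((continuous_pL continuous_const continuous_id).tendsto _).comp
    (tendsto_iterate_app l hl _ (app_per l hl) s)

/-- Points with flag `true` of `Y₁` converge to `r` in backward time. -/
lemma tendsto_RB (s : Can) :
    Tendsto (fun n : ℕ => ((W l)⁻¹ ^ n) (pR true s zz)) atTop (𝓝 (ptR hl)) := by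
  have h1 : ∀ n : ℕ, ((W l)⁻¹ ^ n) (pR true s zz) = pR true ((app (li l))^[n] s) zz := fun n =>
    pow_apply_semiconj (W l)⁻¹ (fun s => pR true s zz) (app (li l)) (fun z => by
      have := W_RB l z zz
      rw [zr_zz] at this
      exact inv_apply_eq this) n s
  simp_rw [h1]
  exact ((continuous_pR continuous_id continuous_const).tendsto _).comp
    (tendsto_iterate_app _ (li_ne_nil hl) _ (app_per _ (li_ne_nil hl)) s)

/-- Points with flag `true` of `Y₂` converge to `r'` in backward time. -/
lemma tendsto_LB (s : Can) :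
    Tendsto (fun n : ℕ => ((W l)⁻¹ ^ n) (pL true zz s)) atTop (𝓝 (ptR' hl)) := by
  have h1 : ∀ n : ℕ, ((W l)⁻¹ ^ n) (pL true zz s) = pL true zz ((app (li l))^[n] s) := fun n =>
    pow_apply_semiconj (W l)⁻¹ (fun s => pL true zz s) (app (li l)) (fun z => by
      have := W_LB l zz z
      rw [zr_zz] at this
      exact inv_apply_eq this) n s
  simp_rw [h1]
  exact ((continuous_pL continuous_const continuous_id).tendsto _).comp
    (tendsto_iterate_app _ (li_ne_nil hl) _ (app_per _ (li_ne_nil hl)) s)

/-- The stable set of `r`. -/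
lemma tendsto_stable_R (y : Can) :
    Tendsto (fun n : ℕ => (W l ^ n) (pR true (per (li l) (li_ne_nil hl)) y)) atTop
      (𝓝 (ptR hl)) := by
  have h1 : ∀ n : ℕ, (W l ^ n) (pR true (per (li l) (li_ne_nil hl)) y) =
      pR true (per (li l) (li_ne_nil hl)) ((zr l.length)^[n] y) := fun n =>
    pow_apply_semiconj (W l) (fun y => pR true (per (li l) (li_ne_nil hl)) y) (zr l.length)
      (fun z => by
        have := W_RB l (per (li l) (li_ne_nil hl)) z
        rwa [app_per] at this) n y
  simp_rw [h1]
  exact ((continuous_pR continuous_const continuous_id).tendsto _).comp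
    (tendsto_zr (len_ne hl) y)

/-- The stable set of `r'`. -/
lemma tendsto_stable_R' (x : Can) :
    Tendsto (fun n : ℕ => (W l ^ n) (pL true x (per (li l) (li_ne_nil hl)))) atTop
      (𝓝 (ptR' hl)) := by
  have h1 : ∀ n : ℕ, (W l ^ n) (pL true x (per (li l) (li_ne_nil hl))) =
      pL true ((zr l.length)^[n] x) (per (li l) (li_ne_nil hl)) := fun n =>
    pow_apply_semiconj (W l) (fun x => pL true x (per (li l) (li_ne_nil hl))) (zr l.length)
      (fun z => by
        have := W_LB l z (per (li l) (li_ne_nil hl))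
        rwa [app_per] at this) n x
  simp_rw [h1]
  exact ((continuous_pL continuous_id continuous_const).tendsto _).comp
    (tendsto_zr (len_ne hl) x)

/-- The unstable set of `a`. -/
lemma tendsto_unstable_A (y : Can) :
    Tendsto (fun n : ℕ => ((W l)⁻¹ ^ n) (pR false (per l hl) y)) atTop (𝓝 (ptA hl)) := by
  have h1 : ∀ n : ℕ, ((W l)⁻¹ ^ n) (pR false (per l hl) y) =
      pR false (per l hl) ((zr l.length)^[n] y) := fun n =>
    pow_apply_semiconj (W l)⁻¹ (fun y => pR false (per l hl) y) (zr l.length)
      (fun z => by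
        have := Winv_RA l (per l hl) z
        rwa [app_per] at this) n y
  simp_rw [h1]
  exact ((continuous_pR continuous_const continuous_id).tendsto _).comp
    (tendsto_zr (len_ne hl) y)

/-- The unstable set of `a'`. -/
lemma tendsto_unstable_A' (x : Can) :
    Tendsto (fun n : ℕ => ((W l)⁻¹ ^ n) (pL false x (per l hl))) atTop (𝓝 (ptA' hl)) := by
  have h1 : ∀ n : ℕ, ((W l)⁻¹ ^ n) (pL false x (per l hl)) =
      pL false ((zr l.length)^[n] x) (per l hl) := fun n =>
    pow_apply_semiconj (W l)⁻¹ (fun x => pL false x (per l hl)) (zr l.length)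
      (fun z => by
        have := Winv_LA l z (per l hl)
        rwa [app_per] at this) n x
  simp_rw [h1]
  exact ((continuous_pL continuous_id continuous_const).tendsto _).comp
    (tendsto_zr (len_ne hl) x)

/-- A limit statement for the orbit of `g x` gives one for the orbit of `x`. -/
lemma tendsto_of_step {X : Type*} [TopologicalSpace X] {g : X ≃ₜ X} {x q : X}
    (h : Tendsto (fun n : ℕ => (g ^ n) (g x)) atTop (𝓝 q)) :
    Tendsto (fun n : ℕ => (g ^ n) x) atTop (𝓝 q) := by
  rw [← tendsto_add_atTop_iff_nat 1]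
  refine h.congr fun n => ?_
  rw [pow_succ]; rfl

/-- The connection from `a` to `r'`. -/
lemma a_to_r' {U V : Set (Can × Can)} (h : IsPP (W l) U V) (ha : ptA hl ∈ V) : ptR' hl ∈ V := by
  obtain ⟨l', e, hle⟩ : ∃ l' e, l = l' ++ [e] := by
    rcases List.eq_nil_or_concat l with h0 | ⟨l', e, h0⟩
    · exact absurd h0 hl
    · exact ⟨l', e, by rw [h0, List.concat_eq_append]⟩
  set t := per (li l) (li_ne_nil hl) with ht
  have hf : W l (pR false (per l hl) (cns true (cns e (app (li l') t)))) =
      pL true (zr l'.length (cns true (cns e (per l hl)))) t := by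
    have h1 : W l = W (l' ++ [e]) := by rw [← hle]
    rw [h1, W_append_apply, W_singleton_apply, stp_cross_RL, W_LB]
  refine h.heteroclinic (x := pR false (per l hl) (cns true (cns e (app (li l') t))))
    (tendsto_unstable_A hl _) ?_ (fix_ptR' hl) ha
  apply tendsto_of_step
  rw [hf]
  exact tendsto_stable_R' hl _

/-- The connection from `r'` to `a'`. -/
lemma r'_to_a' {U V : Set (Can × Can)} (h : IsPP (W l) U V) (hr : ptR' hl ∈ V) :
    ptA' hl ∈ V := by
  obtain ⟨l', e, hle⟩ : ∃ l' e, l = l' ++ [e] := by
    rcases List.eq_nil_or_concat l with h0 | ⟨l', e, h0⟩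
    · exact absurd h0 hl
    · exact ⟨l', e, by rw [h0, List.concat_eq_append]⟩
  have hf : W l (pL true zz (cns e zz)) = pL false zz (app l' (cns (!e) zz)) := by
    have h1 : W l = W (l' ++ [e]) := by rw [← hle]
    rw [h1, W_append_apply, W_singleton_apply, stp_turn_L]
    have := W_LA l' zz (cns (!e) zz)
    rwa [zr_zz] at this
  refine h.heteroclinic (x := pL true zz (cns e zz)) (tendsto_LB hl _) ?_ (fix_ptA' hl) hr
  apply tendsto_of_step
  rw [hf]
  exact tendsto_LA hl _

/-- The connection from `a'` to `r`. -/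
lemma a'_to_r {U V : Set (Can × Can)} (h : IsPP (W l) U V) (ha : ptA' hl ∈ V) :
    ptR hl ∈ V := by
  obtain ⟨l', e, hle⟩ : ∃ l' e, l = l' ++ [e] := by
    rcases List.eq_nil_or_concat l with h0 | ⟨l', e, h0⟩
    · exact absurd h0 hl
    · exact ⟨l', e, by rw [h0, List.concat_eq_append]⟩
  set t := per (li l) (li_ne_nil hl) with ht
  have hf : W l (pL false (cns true (cns (!e) (app (li l') t))) (per l hl)) =
      pR true t (zr l'.length (cns true (cns (!e) (per l hl)))) := by
    have h1 : W l = W (l' ++ [e]) := by rw [← hle]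
    rw [h1, W_append_apply, W_singleton_apply, stp_cross_LR, W_RB]
  refine h.heteroclinic (x := pL false (cns true (cns (!e) (app (li l') t))) (per l hl))
    (tendsto_unstable_A' hl _) ?_ (fix_ptR hl) ha
  apply tendsto_of_step
  rw [hf]
  exact tendsto_stable_R hl _

include hl in
/-- For a sequence `s` different from the attractor, some backward image has flag `true`. -/
lemma exists_turn (s : Can) (hs : s ≠ per l hl) :
    ∃ n : ℕ, ∃ s', ((W l)⁻¹ ^ n) (pR false s zz) = pR true s' zz := by
  by_contra hcon
  push Not at hcon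
  have key : ∀ n : ℕ, ∃ x, s = (app l)^[n] x ∧ ((W l)⁻¹ ^ n) (pR false s zz) = pR false x zz := by
    intro n
    induction n with
    | zero => exact ⟨s, rfl, rfl⟩
    | succ n ih =>
      obtain ⟨x, hx, hx'⟩ := ih
      have hstep : ((W l)⁻¹ ^ (n + 1)) (pR false s zz) = (W l)⁻¹ (pR false x zz) := by
        rw [pow_succ', ← hx']; rfl
      rcases Winv_cases l x with ⟨x', hx1⟩ | ⟨x', hx1⟩
      · refine ⟨x', ?_, ?_⟩
        · rw [Function.iterate_succ_apply, ← hx1, hx]
        · rw [hstep, hx1, Winv_RA, zr_zz]
      · exact absurd (hstep.trans hx1) (hcon (n + 1) x')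
  apply hs
  funext k
  obtain ⟨x, hx, -⟩ := key (k + 1)
  have hpos : 0 < l.length := List.length_pos_of_ne_nil hl
  have agree : ∀ n k, k < n → ∀ s t : Can, (app l)^[n] s k = (app l)^[n] t k := by
    intro n
    induction n with
    | zero => intro k hk; omega
    | succ n ih =>
      intro k hk s t
      rw [Function.iterate_succ_apply', Function.iterate_succ_apply']
      by_cases hkl : k < l.length
      · exact app_apply_of_lt _ _ _ _ hkl
      · obtain ⟨j, rfl⟩ := Nat.exists_eq_add_of_le (not_lt.mp hkl)
        rw [app_apply_add, app_apply_add]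
        exact ih j (by omega) s t
  rw [hx, agree (k + 1) k (by omega) x (per l hl), Function.iterate_fixed (app_per l hl)]

include hl in
/-- The points of `Y₁` with flag `false` lie in `U ∪ V`. -/
lemma Y1_false {U V : Set (Can × Can)} (h : IsPP (W l) U V) (s : Can) :
    pR false s zz ∈ U ∪ V := by
  by_cases hs : s = per l hl
  · rw [hs]
    exact h.fixed (fix_ptA hl)
  · rcases h.fixed (fix_ptA hl) with ha | ha
    · exact Or.inl (h.mem_U_of_tendsto (tendsto_RA hl s) ha)
    · right
      have hr := a'_to_r hl h (r'_to_a' hl h (a_to_r' hl h ha))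
      obtain ⟨n, s', hn⟩ := exists_turn hl s hs
      have h1 : pR true s' zz ∈ V := h.mem_V_of_tendsto (tendsto_RB hl s') hr
      rw [← hn] at h1
      have h2 := h.fwd_pow h1 n
      have h3 : (W l ^ n) (((W l)⁻¹ ^ n) (pR false s zz)) = pR false s zz := by
        have : (W l ^ n * (W l)⁻¹ ^ n) (pR false s zz) = pR false s zz := by
          rw [inv_pow, mul_inv_cancel]; rfl
        exact this
      rwa [h3] at h2

end main

lemma alphaH_mul_self : alphaH * alphaH = 1 := by
  rw [← pow_two, alphaH_sq]

lemma alphaH_inv : alphaH⁻¹ = alphaH := by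
  rw [inv_eq_iff_mul_eq_one, alphaH_mul_self]

lemma bp_not (e : Bool) : bp (!e) = (bp e)⁻¹ := by
  cases e <;> simp [bp]

/-- `W l = α (W (li l))⁻¹ α`. -/
lemma W_eq_conj (l : List Bool) : W l = alphaH * (W (li l))⁻¹ * alphaH⁻¹ := by
  induction l with
  | nil => simp [W, li]
  | cons e l ih =>
    rw [li_cons, W_append, mul_inv_rev]
    have h1 : (W [!e])⁻¹ = (stp (!e))⁻¹ := by
      simp [W]
    rw [h1, stp, mul_inv_rev, bp_not, inv_inv]
    calc W (e :: l) = alphaH * bp e * W l := rfl
      _ = alphaH * bp e * (alphaH * (W (li l))⁻¹ * alphaH⁻¹) := by rw [← ih]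
      _ = _ := by
        simp only [alphaH_inv, mul_assoc]

/-- All points of `Y₁` lie in `U ∪ V`. -/
lemma Y1_all {l : List Bool} (hl : l ≠ []) {U V : Set (Can × Can)} (h : IsPP (W l) U V)
    (f : Bool) (s : Can) : pR f s zz ∈ U ∪ V := by
  cases f with
  | false => exact Y1_false hl h s
  | true =>
    rw [W_eq_conj] at h
    have h1 := h.conj.inv
    rw [inv_inv] at h1
    rcases Y1_false (li_ne_nil hl) h1 s with h2 | h2
    · right
      exact h2
    · left
      exact h2

/-- The subgroup generated by `α` and `β`. -/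
def HTwo : Subgroup ((Can × Can) ≃ₜ (Can × Can)) :=
  Subgroup.zpowers alphaH ⊔ Subgroup.zpowers betaH

lemma alpha_zpow_cases (a : (Can × Can) ≃ₜ (Can × Can)) (ha : a ∈ Subgroup.zpowers alphaH)
    (h1 : a ≠ 1) : a = alphaH := by
  obtain ⟨k, rfl⟩ := ha
  simp only at h1 ⊢
  have h2 : alphaH ^ (k : ℤ) = alphaH ^ (k % 2) := by
    conv_lhs => rw [← Int.emod_add_mul_ediv k 2]
    rw [zpow_add, zpow_mul]
    have : alphaH ^ (2 : ℤ) = 1 := by exact_mod_cast alphaH_sq
    rw [this]; simp
  rcases Int.emod_two_eq_zero_or_one k with h | h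
  · rw [h2, h] at h1; simp at h1
  · rw [h2, h]; simp

lemma beta_zpow_cases (b : (Can × Can) ≃ₜ (Can × Can)) (hb : b ∈ Subgroup.zpowers betaH)
    (h1 : b ≠ 1) : ∃ e, b = bp e := by
  obtain ⟨k, rfl⟩ := hb
  simp only at h1 ⊢
  have h3 : betaH ^ (3 : ℤ) = 1 := by exact_mod_cast betaH_cube
  have h2 : betaH ^ (k : ℤ) = betaH ^ (k % 3) := by
    conv_lhs => rw [← Int.emod_add_mul_ediv k 3]
    rw [zpow_add, zpow_mul, h3]; simp
  have h4 : k % 3 = 0 ∨ k % 3 = 1 ∨ k % 3 = 2 := by omega
  rcases h4 with h | h | h
  · rw [h2, h] at h1; simp at h1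
  · exact ⟨false, by rw [h2, h]; simp [bp]⟩
  · refine ⟨true, ?_⟩
    rw [h2, h]
    simp only [bp, cond_true]
    rw [eq_inv_iff_mul_eq_one]
    calc betaH ^ (2 : ℤ) * betaH = betaH ^ (2 : ℤ) * betaH ^ (1 : ℤ) := by simp
      _ = betaH ^ (3 : ℤ) := by rw [← zpow_add]; norm_num
      _ = 1 := h3

/-- Alternating products are the elements `W l`. -/
lemma exists_W (l : List (((Can × Can) ≃ₜ (Can × Can)) × ((Can × Can) ≃ₜ (Can × Can))))
    (hl : IsAlt (Subgroup.zpowers alphaH) (Subgroup.zpowers betaH) l) :
    ∃ l' : List Bool, l'.length = l.length ∧ altProd l = W l' := by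
  induction l with
  | nil => exact ⟨[], rfl, rfl⟩
  | cons p l ih =>
    rw [isAlt_cons] at hl
    obtain ⟨l', hlen, hl'⟩ := ih hl.2
    obtain ⟨e, he⟩ := beta_zpow_cases p.2 hl.1.2.2.1 hl.1.2.2.2
    refine ⟨e :: l', by simp [hlen], ?_⟩
    rw [altProd_cons, hl', he, alpha_zpow_cases p.1 hl.1.1 hl.1.2.1]
    rfl

lemma alpha_Y1 (f : Bool) (s : Can) : alphaH (pR f s zz) = pR (!f) s zz := rfl

/-- `Y₁` is invariant. -/
lemma Y1_invariant (k : (Can × Can) ≃ₜ (Can × Can)) (hk : k ∈ HTwo) (f : Bool) (s : Can) :
    ∃ f' s', k (pR f s zz) = pR f' s' zz := by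
  have hk' : k ∈ Subgroup.closure ({alphaH} ∪ {betaH}) := by
    rwa [Subgroup.closure_union, ← Subgroup.zpowers_eq_closure, ← Subgroup.zpowers_eq_closure]
  have hb : ∀ f s, ∃ f' s', betaH (pR f s zz) = pR f' s' zz := by
    intro f s
    cases f with
    | false =>
      refine ⟨true, cns false s, ?_⟩
      have := beta_RA0 s zz
      rwa [cns_false_zz] at this
    | true =>
      induction s using cases_cns with
      | h b x =>
        cases b with
        | false => exact ⟨true, _, beta_RBf x zz⟩
        | true =>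
          refine ⟨false, x, ?_⟩
          have := beta_RBt x zz
          rwa [cns_false_zz] at this
  induction hk' using Subgroup.closure_induction'' generalizing f s with
  | mem x hx =>
    rcases hx with hx | hx
    · rw [hx]; exact ⟨!f, s, rfl⟩
    · rw [hx]; exact hb f s
  | inv_mem x hx =>
    rcases hx with hx | hx
    · rw [hx, alphaH_inv]; exact ⟨!f, s, rfl⟩
    · rw [hx]
      obtain ⟨f', s', h1⟩ := hb f s
      obtain ⟨f'', s'', h2⟩ := hb f' s'
      exact ⟨f'', s'', by
        change betaFun (betaFun (pR f s zz)) = _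
        rw [show betaFun (pR f s zz) = pR f' s' zz from h1]; exact h2⟩
  | one => exact ⟨f, s, rfl⟩
  | mul x y hx hy ihx ihy =>
    obtain ⟨f', s', h1⟩ := ihy (by
      have := hy
      rw [Subgroup.closure_union, ← Subgroup.zpowers_eq_closure,
        ← Subgroup.zpowers_eq_closure] at this
      exact this) f s
    obtain ⟨f'', s'', h2⟩ := ihx (by
      have := hx
      rw [Subgroup.closure_union, ← Subgroup.zpowers_eq_closure,
        ← Subgroup.zpowers_eq_closure] at this
      exact this) f' s'
    refine ⟨f'', s'', ?_⟩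
    change x (y _) = _
    rw [h1, h2]

/-- `Y₁` lies in `U ∪ V` for all elements of the group. -/
theorem Y1_common (g : (Can × Can) ≃ₜ (Can × Can)) (hg : g ∈ HTwo) :
    ∀ U V : Set (Can × Can), IsPP g U V → ∀ f s, pR f s zz ∈ U ∪ V := by
  refine conj_induction (Subgroup.zpowers alphaH) (Subgroup.zpowers betaH)
    (fun g => ∀ U V : Set (Can × Can), IsPP g U V → ∀ f s, pR f s zz ∈ U ∪ V)
    ?_ ?_ ?_ ?_ g hg
  · intro a ha U V h f s
    by_cases h1 : a = 1
    · exact h.of_pow_eq_one (n := 0) (by rw [h1]; simp) _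
    · rw [alpha_zpow_cases a ha h1] at h
      exact h.of_pow_eq_one (n := 1) alphaH_sq _
  · intro b hb U V h f s
    by_cases h1 : b = 1
    · exact h.of_pow_eq_one (n := 0) (by rw [h1]; simp) _
    · obtain ⟨e, he⟩ := beta_zpow_cases b hb h1
      refine h.of_pow_eq_one (n := 2) ?_ _
      rw [he]
      cases e
      · exact betaH_cube
      · change (betaH⁻¹) ^ 3 = 1
        rw [inv_pow, betaH_cube, inv_one]
  · intro p l hl U V h f s
    obtain ⟨l', hlen, hl'⟩ := exists_W (p :: l) hl
    rw [hl'] at h
    exact Y1_all (by intro h0; rw [h0] at hlen; simp at hlen) h f s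
  · intro g hg k hk ih U V h f s
    have h1 := ih _ _ h.conj
    obtain ⟨f', s', h2⟩ := Y1_invariant k⁻¹ (inv_mem hk) f s
    have h3 := h1 f' s'
    have h4 : k (pR f' s' zz) = pR f s zz := by
      rw [← h2]; exact k.apply_symm_apply _
    rcases h3 with h3 | h3
    · left
      have : k (pR f' s' zz) ∈ U := h3
      rwa [h4] at this
    · right
      have : k (pR f' s' zz) ∈ V := h3
      rwa [h4] at this

end Pool.Agent.Lib.MP_e5892f_al
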