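import Mathlib
import Pool.Agent.Lib.MP_e5892f_al.TwoStack

/-!
# The two-stack action has no invariant probability measure
-/

namespace Pool.Agent.Lib.MP_e5892f_al

open Set Filter Topology MeasureTheory

/-- The fifteen cells permuted by `β`. -/
def cell (p : Can × Can) : Fin 15 :=
  cond (p.1 0)
    (cond (p.1 1)
      -- region `D`
      (cond (p.2 0) (cond (p.1 2) (cond (p.1 3) 13 11) (cond (p.1 3) 8 7)) 6)
      -- region `L`
      (cond (p.2 0) (cond (p.2 1) 5 4) (cond (p.1 2) (cond (p.1 3) 14 10) 3)))
    -- region `R`
    (cond (p.2 0) (cond (p.1 1) 2 1) (cond (p.2 1) (cond (p.2 2) 12 9) 0))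

/-- The permutation of the cells induced by `β`. -/
def cellPerm (i : Fin 15) : Fin 15 :=
  ![1, 2, 0, 4, 5, 3, 7, 8, 6, 10, 11, 9, 13, 14, 12] i

/-- Region and flag of a cell. -/
def regFlag (i : Fin 15) : Fin 6 :=
  ![0, 1, 1, 2, 3, 3, 4, 5, 5, 0, 2, 5, 0, 5, 2] i

/-- The flip of the flag. -/
def flipFlag (j : Fin 6) : Fin 6 := ![1, 0, 3, 2, 5, 4] j

lemma continuous_cell : Continuous cell := by
  unfold cell
  have h1 : ∀ n : ℕ, Continuous fun p : Can × Can => p.1 n := fun n =>
    (continuous_apply n).comp continuous_fst
  have h2 : ∀ n : ℕ, Continuous fun p : Can × Can => p.2 n := fun n =>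
    (continuous_apply n).comp continuous_snd
  have := h1 0; have := h1 1; have := h1 2; have := h1 3
  have := h2 0; have := h2 1; have := h2 2
  fun_prop

lemma cell_beta (p : Can × Can) : cell (betaFun p) = cellPerm (cell p) := by
  induction p using cases_region with
  | hR f x y =>
    cases f with
    | false =>
      induction y using cases_cns with
      | h b y =>
        cases b with
        | false => rfl
        | true =>
          induction y using cases_cns with
          | h b y => cases b <;> rfl
    | true =>
      induction x using cases_cns with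
      | h b x => cases b <;> rfl
  | hL f x y =>
    cases f with
    | false =>
      induction x using cases_cns with
      | h b x =>
        cases b with
        | false => rfl
        | true =>
          induction x using cases_cns with
          | h b x => cases b <;> rfl
    | true =>
      induction y using cases_cns with
      | h b y => cases b <;> rfl
  | hD f x y =>
    cases f with
    | false => rfl
    | true =>
      induction x using cases_cns with
      | h b x =>
        induction x using cases_cns with
        | h b' x => cases b <;> cases b' <;> rfl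

lemma regFlag_alpha (p : Can × Can) :
    regFlag (cell (alphaFun p)) = flipFlag (regFlag (cell p)) := by
  induction p using cases_region with
  | hR f x y =>
    induction y using cases_cns with
    | h b y =>
      induction y using cases_cns with
      | h b' y =>
        induction x using cases_cns with
        | h c x => cases f <;> cases b <;> cases b' <;> cases c <;> rfl
  | hL f x y =>
    induction y using cases_cns with
    | h b y =>
      induction x using cases_cns with
      | h c x =>
        induction x using cases_cns with
        | h c' x => cases f <;> cases b <;> cases c <;> cases c' <;> rfl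
  | hD f x y =>
    induction x using cases_cns with
    | h c x =>
      induction x using cases_cns with
      | h c' x => cases f <;> cases c <;> cases c' <;> rfl

/-- No probability measure is invariant under two maps acting on the cells like `α` and `β`. -/
theorem no_invariant_of_cells {X : Type*} [TopologicalSpace X] [MeasurableSpace X]
    [BorelSpace X] (c : X → Fin 15) (hc : Continuous c) (a b : X ≃ₜ X)
    (ha : ∀ p, regFlag (c (a p)) = flipFlag (regFlag (c p)))
    (hb : ∀ p, c (b p) = cellPerm (c p)) (μ : Measure X) [IsProbabilityMeasure μ]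
    (hμa : μ.map a = μ) (hμb : μ.map b = μ) : False := by
  have hmeas : ∀ s : Set (Fin 15), MeasurableSet (c ⁻¹' s) := fun s =>
    ((isOpen_discrete s).preimage hc).measurableSet
  set m : Fin 15 → ℝ := fun i => μ.real (c ⁻¹' {i}) with hm
  have hnn : ∀ i, 0 ≤ m i := fun i => measureReal_nonneg
  have hsum : ∀ s : Finset (Fin 15), μ.real (c ⁻¹' (s : Set (Fin 15))) = ∑ i ∈ s, m i := by
    intro s
    rw [hm]
    rw [← measureReal_biUnion_finset]
    · congr 1
      ext p
      simp
    · intro i _ j _ hij
      apply Disjoint.preimage
      simpa using hij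
    · intro i _
      exact hmeas _
  have hpb : ∀ i, m (cellPerm i) = m i := by
    intro i
    have h1 : μ.real (c ⁻¹' {cellPerm i}) = μ.real (b ⁻¹' (c ⁻¹' {cellPerm i})) := by
      conv_lhs => rw [← hμb]
      rw [map_measureReal_apply b.continuous.measurable (hmeas _)]
    have h2 : b ⁻¹' (c ⁻¹' {cellPerm i}) = c ⁻¹' {i} := by
      ext p
      simp only [mem_preimage, mem_singleton_iff, hb]
      have hinj : Function.Injective cellPerm := by decide
      exact hinj.eq_iff
    rw [hm]
    simp only
    rw [h1, h2]
  have hpa : ∀ j, μ.real (c ⁻¹' (regFlag ⁻¹' {flipFlag j})) = μ.real (c ⁻¹' (regFlag ⁻¹' {j})) := by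
    intro j
    have h1 : μ.real (c ⁻¹' (regFlag ⁻¹' {flipFlag j})) =
        μ.real (a ⁻¹' (c ⁻¹' (regFlag ⁻¹' {flipFlag j}))) := by
      conv_lhs => rw [← hμa]
      rw [map_measureReal_apply a.continuous.measurable (hmeas _)]
    have h2 : a ⁻¹' (c ⁻¹' (regFlag ⁻¹' {flipFlag j})) = c ⁻¹' (regFlag ⁻¹' {j}) := by
      ext p
      simp only [mem_preimage, mem_singleton_iff, ha]
      have hinj : Function.Injective flipFlag := by decide
      exact hinj.eq_iff
    rw [h1, h2]
  have hfin : ∀ j, μ.real (c ⁻¹' (regFlag ⁻¹' {j})) =
      ∑ i ∈ Finset.univ.filter (fun i => regFlag i = j), m i := by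
    intro j
    rw [← hsum]
    congr 1
    ext p
    simp
  have e0 := hpa 0
  have e2 := hpa 2
  have e4 := hpa 4
  rw [hfin, hfin] at e0 e2 e4
  have f0 : Finset.univ.filter (fun i => regFlag i = 0) = {0, 9, 12} := by decide
  have f1 : Finset.univ.filter (fun i => regFlag i = flipFlag 0) = {1, 2} := by decide
  have f2 : Finset.univ.filter (fun i => regFlag i = 2) = {3, 10, 14} := by decide
  have f3 : Finset.univ.filter (fun i => regFlag i = flipFlag 2) = {4, 5} := by decide
  have f4 : Finset.univ.filter (fun i => regFlag i = 4) = {6} := by decide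
  have f5 : Finset.univ.filter (fun i => regFlag i = flipFlag 4) = {7, 8, 11, 13} := by decide
  rw [f0, f1] at e0
  rw [f2, f3] at e2
  rw [f4, f5] at e4
  have d0 : m 1 + m 2 = m 0 + (m 9 + m 12) := by simpa [Finset.sum_insert] using e0
  have d2 : m 4 + m 5 = m 3 + (m 10 + m 14) := by simpa [Finset.sum_insert] using e2
  have d4 : m 7 + (m 8 + (m 11 + m 13)) = m 6 := by simpa [Finset.sum_insert] using e4
  have b0 : m 1 = m 0 := hpb 0
  have b1 : m 2 = m 1 := hpb 1
  have b3 : m 4 = m 3 := hpb 3
  have b4 : m 5 = m 4 := hpb 4
  have b6 : m 7 = m 6 := hpb 6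
  have b7 : m 8 = m 7 := hpb 7
  have b9 : m 10 = m 9 := hpb 9
  have b10 : m 11 = m 10 := hpb 10
  have b12 : m 13 = m 12 := hpb 12
  have b13 : m 14 = m 13 := hpb 13
  have htot : ∑ i, m i = 1 := by
    rw [← hsum]
    simp
  have htot' : m 0 + m 1 + m 2 + m 3 + m 4 + m 5 + m 6 + m 7 + m 8 + m 9 + m 10 + m 11 + m 12 +
      m 13 + m 14 = 1 := by
    rw [← htot]
    simp [Fin.sum_univ_succ]
    ring_nf
  have := hnn 0
  have := hnn 3
  have := hnn 6
  have := hnn 9
  have := hnn 12
  linarith

end Pool.Agent.Lib.MP_e5892f_al
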