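import Mathlib
import Pool.Agent.Lib.MP_e5892f_al.TwoStackDyn
import Pool.Agent.Lib.MP_e5892f_al.TwoStackMeasure

/-!
# The Brin-Thompson groups `nV`, `n ≥ 2`, fail the dynamical Tits alternative
-/

namespace Pool.Agent.Lib.MP_e5892f_al

open Set Filter Topology MeasureTheory

/-- The same condition for maps of `C × C`. -/
def PR2 (f : Can × Can → Can × Can) : Prop :=
  ∃ N : ℕ, ∀ u v : List Bool, u.length = N → v.length = N →
    ∃ u' v' : List Bool, ∀ x y : Can, f (app u x, app v y) = (app u' x, app v' y)

lemma PR2.comp {f g : Can × Can → Can × Can} (hf : PR2 f) (hg : PR2 g) :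
    PR2 (fun p => f (g p)) := by
  obtain ⟨N, hN⟩ := hf
  obtain ⟨M, hM⟩ := hg
  refine ⟨M + N, fun u v hu hv => ?_⟩
  obtain ⟨u', v', h1⟩ := hM (u.take M) (v.take M) (by simp [hu]) (by simp [hv])
  set U := u' ++ u.drop M with hU
  set V := v' ++ v.drop M with hV
  have lU : N ≤ U.length := by rw [hU, List.length_append, List.length_drop]; omega
  have lV : N ≤ V.length := by rw [hV, List.length_append, List.length_drop]; omega
  obtain ⟨u'', v'', h2⟩ := hN (U.take N) (V.take N) (by simp [lU]) (by simp [lV])
  refine ⟨u'' ++ U.drop N, v'' ++ V.drop N, fun x y => ?_⟩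
  have e1 : app u x = app (u.take M) (app (u.drop M) x) := by
    rw [← app_append, List.take_append_drop]
  have e2 : app v y = app (v.take M) (app (v.drop M) y) := by
    rw [← app_append, List.take_append_drop]
  change f (g (app u x, app v y)) = _
  rw [e1, e2, h1, ← app_append, ← app_append, ← hU, ← hV]
  have e3 : app U x = app (U.take N) (app (U.drop N) x) := by
    rw [← app_append, List.take_append_drop]
  have e4 : app V y = app (V.take N) (app (V.drop N) y) := by
    rw [← app_append, List.take_append_drop]
  rw [e3, e4, h2, app_append, app_append]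

lemma PR2_id : PR2 id := ⟨0, fun u v _ _ => ⟨u, v, fun _ _ => rfl⟩⟩

lemma PR2_alpha : PR2 alphaFun := by
  refine ⟨1, fun u v hu hv => ?_⟩
  obtain ⟨a, rfl⟩ := List.length_eq_one_iff.mp hv
  exact ⟨u, [!a], fun x y => rfl⟩

lemma PR2_beta : PR2 betaFun := by
  refine ⟨4, fun u v hu hv => ?_⟩
  match u, hu with
  | [a, b, c, d], _ =>
    match v, hv with
    | [e, f, g, h], _ =>
      cases a with
      | false =>
        cases e with
        | false =>
          cases f with
          | false => exact ⟨[false, false, b, c, d], [true, g, h], fun x y => rfl⟩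
          | true =>
            cases g with
            | false => exact ⟨[true, false, true, false, b, c, d], [false, h], fun x y => rfl⟩
            | true => exact ⟨[true, true, true, true, b, c, d], [true, h], fun x y => rfl⟩
        | true =>
          cases b with
          | false => exact ⟨[false, true, c, d], [true, f, g, h], fun x y => rfl⟩
          | true => exact ⟨[false, c, d], [false, false, f, g, h], fun x y => rfl⟩
      | true =>
        cases b with
        | false =>
          cases e with
          | false =>
            cases c with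
            | false => exact ⟨[true, false, d], [true, false, f, g, h], fun x y => rfl⟩
            | true =>
              cases d with
              | false => exact ⟨[true, true, true, false], [true, f, g, h], fun x y => rfl⟩
              | true => exact ⟨[false], [false, true, true, f, g, h], fun x y => rfl⟩
          | true =>
            cases f with
            | false => exact ⟨[true, false, c, d], [true, true, g, h], fun x y => rfl⟩
            | true => exact ⟨[true, false, false, c, d], [false, g, h], fun x y => rfl⟩
        | true =>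
          cases e with
          | false => exact ⟨[true, true, false, false, c, d], [true, f, g, h], fun x y => rfl⟩
          | true =>
            cases c with
            | false =>
              cases d with
              | false => exact ⟨[true, true, false, true], [true, f, g, h], fun x y => rfl⟩
              | true => exact ⟨[true, true], [false, f, g, h], fun x y => rfl⟩
            | true =>
              cases d with
              | false => exact ⟨[false], [false, true, false, f, g, h], fun x y => rfl⟩
              | true => exact ⟨[true, false, true, true], [false, f, g, h], fun x y => rfl⟩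

lemma mem_HTwo_iff (g : (Can × Can) ≃ₜ (Can × Can)) :
    g ∈ HTwo ↔ g ∈ Subgroup.closure ({alphaH} ∪ {betaH}) := by
  rw [HTwo, Subgroup.closure_union, ← Subgroup.zpowers_eq_closure,
    ← Subgroup.zpowers_eq_closure]

lemma PR2_of_mem (g : (Can × Can) ≃ₜ (Can × Can)) (hg : g ∈ HTwo) : PR2 g := by
  rw [mem_HTwo_iff] at hg
  induction hg using Subgroup.closure_induction'' with
  | mem x hx =>
    rcases hx with hx | hx
    · rw [hx]; exact PR2_alpha
    · rw [hx]; exact PR2_beta
  | inv_mem x hx =>
    rcases hx with hx | hx
    · rw [hx, alphaH_inv]; exact PR2_alpha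
    · rw [hx]; exact PR2_beta.comp PR2_beta
  | one => exact PR2_id
  | mul x y hx hy ihx ihy => exact ihx.comp ihy

section lift

variable {n : ℕ} (hn : 2 ≤ n)

/-- Act on the first two coordinates. -/
def liftFun (F : Can × Can → Can × Can) (p : Fin n → Can) : Fin n → Can := fun i =>
  if i.val = 0 then (F (p ⟨0, by omega⟩, p ⟨1, by omega⟩)).1
  else if i.val = 1 then (F (p ⟨0, by omega⟩, p ⟨1, by omega⟩)).2 else p i

lemma liftFun_comp (F G : Can × Can → Can × Can) (p : Fin n → Can) :
    liftFun hn F (liftFun hn G p) = liftFun hn (fun q => F (G q)) p := by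
  funext i
  simp only [liftFun]
  by_cases h0 : i.val = 0
  · simp [h0]
  · by_cases h1 : i.val = 1
    · simp [h1]
    · simp [h0, h1]

lemma liftFun_id (p : Fin n → Can) : liftFun hn id p = p := by
  funext i
  simp only [liftFun]
  by_cases h0 : i.val = 0
  · have : i = ⟨0, by omega⟩ := Fin.ext h0
    simp [this]
  · by_cases h1 : i.val = 1
    · have : i = ⟨1, by omega⟩ := Fin.ext h1
      simp [this]
    · simp [h0, h1]

lemma continuous_liftFun {F : Can × Can → Can × Can} (hF : Continuous F) :
    Continuous (liftFun hn F) := by
  apply continuous_pi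
  intro i
  simp only [liftFun]
  split_ifs
  · fun_prop
  · fun_prop
  · fun_prop

/-- The lift of a homeomorphism of `C × C`. -/
def liftH : ((Can × Can) ≃ₜ (Can × Can)) →* ((Fin n → Can) ≃ₜ (Fin n → Can)) where
  toFun e :=
    { toFun := liftFun hn e
      invFun := liftFun hn e.symm
      left_inv := fun p => by
        rw [liftFun_comp]
        simp only [Homeomorph.symm_apply_apply]
        exact liftFun_id hn p
      right_inv := fun p => by
        rw [liftFun_comp]
        simp only [Homeomorph.apply_symm_apply]
        exact liftFun_id hn p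
      continuous_toFun := continuous_liftFun hn e.continuous
      continuous_invFun := continuous_liftFun hn e.symm.continuous }
  map_one' := by
    ext1 p
    exact liftFun_id hn p
  map_mul' e e' := by
    ext1 p
    exact (liftFun_comp hn e e' p).symm

lemma liftH_apply (e : (Can × Can) ≃ₜ (Can × Can)) (p : Fin n → Can) :
    liftH hn e p = liftFun hn e p := rfl

lemma liftH_mem (e : (Can × Can) ≃ₜ (Can × Can)) (he : PR2 e) :
    liftH hn e ∈ BrinThompson n := by
  obtain ⟨N, hN⟩ := he
  refine ⟨N, fun u hu => ?_⟩
  obtain ⟨u', v', h⟩ := hN (u ⟨0, by omega⟩) (u ⟨1, by omega⟩) (hu _) (hu _)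
  refine ⟨fun i => if i.val = 0 then u' else if i.val = 1 then v' else u i, fun z => ?_⟩
  funext i
  rw [liftH_apply]
  simp only [liftFun, h]
  by_cases h0 : i.val = 0
  · have : i = ⟨0, by omega⟩ := Fin.ext h0
    simp [this]
  · by_cases h1 : i.val = 1
    · have : i = ⟨1, by omega⟩ := Fin.ext h1
      simp [this]
    · simp [h0, h1]

/-- The embedding of `C × C` in `C^n`. -/
def jmap (p : Can × Can) : Fin n → Can := fun i =>
  if i.val = 0 then p.1 else if i.val = 1 then p.2 else zz

lemma continuous_jmap : Continuous (jmap (n := n)) := by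
  apply continuous_pi
  intro i
  simp only [jmap]
  split_ifs
  · fun_prop
  · fun_prop
  · fun_prop

lemma jmap_equivariant (e : (Can × Can) ≃ₜ (Can × Can)) (p : Can × Can) :
    jmap (e p) = liftH hn e (jmap p) := by
  funext i
  rw [liftH_apply]
  simp only [liftFun, jmap]
  by_cases h0 : i.val = 0
  · simp [h0]
  · by_cases h1 : i.val = 1
    · simp [h1]
    · simp [h0, h1]

end lift

/-- For every `n ≥ 2` the action of `nV` on `C^n` fails the dynamical Tits alternative. -/
theorem brinThompson_fails (n : ℕ) (hn : 2 ≤ n) :
    ∃ H : Subgroup ((Fin n → ℕ → Bool) ≃ₜ (Fin n → ℕ → Bool)),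
      (H : Set ((Fin n → ℕ → Bool) ≃ₜ (Fin n → ℕ → Bool))) ⊆ BrinThompson n ∧
      ¬ PreservesProbability H ∧ ¬ HasPingPongPair H := by
  refine ⟨HTwo.map (liftH hn), ?_, ?_, ?_⟩
  · rintro _ ⟨e, he, rfl⟩
    exact liftH_mem hn e (PR2_of_mem e he)
  · intro hP
    unfold PreservesProbability at hP
    let _ : MeasurableSpace (Fin n → ℕ → Bool) := borel _
    have _ : BorelSpace (Fin n → ℕ → Bool) := ⟨rfl⟩
    obtain ⟨μ, hμ, -, hinv⟩ := hP
    have hα : liftH hn alphaH ∈ HTwo.map (liftH hn) :=
      ⟨alphaH, Subgroup.mem_sup_left (Subgroup.mem_zpowers _), rfl⟩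
    have hβ : liftH hn betaH ∈ HTwo.map (liftH hn) :=
      ⟨betaH, Subgroup.mem_sup_right (Subgroup.mem_zpowers _), rfl⟩
    refine no_invariant_of_cells (X := Fin n → ℕ → Bool)
      (fun p => cell (p ⟨0, by omega⟩, p ⟨1, by omega⟩)) ?_ (liftH hn alphaH) (liftH hn betaH)
      ?_ ?_ μ (hinv _ hα) (hinv _ hβ)
    · exact continuous_cell.comp (by fun_prop)
    · intro p
      have : ((liftH hn alphaH p) ⟨0, by omega⟩, (liftH hn alphaH p) ⟨1, by omega⟩) =
          alphaFun (p ⟨0, by omega⟩, p ⟨1, by omega⟩) := by
        simp [liftH_apply, liftFun, alphaH_apply]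
      rw [this]
      exact regFlag_alpha _
    · intro p
      have : ((liftH hn betaH p) ⟨0, by omega⟩, (liftH hn betaH p) ⟨1, by omega⟩) =
          betaFun (p ⟨0, by omega⟩, p ⟨1, by omega⟩) := by
        simp [liftH_apply, liftFun, betaH_apply]
      rw [this]
      exact cell_beta _
  · apply not_hasPingPongPair_of_common (jmap (pR false zz zz))
    rintro _ ⟨e, he, rfl⟩ U V h
    have h1 := h.pullback (g' := e) continuous_jmap (jmap_equivariant hn e)
    exact Y1_common e he _ _ h1 false zz

end Pool.Agent.Lib.MP_e5892f_al
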