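import Mathlib
import Pool.Agent.Lib.MP_e5892f_al.Seq

/-!
# Homeomorphisms of `I × A^ℕ` which are locally given by sliding block codes
-/

namespace Pool.Agent.Lib.MP_e5892f_al

open Set Filter Topology

variable {I A : Type*}

/-- The two points have the same index and the same first `n` letters. -/
def Agr (n : ℕ) (p q : I × (ℕ → A)) : Prop := p.1 = q.1 ∧ ∀ i < n, p.2 i = q.2 i

lemma Agr.refl (n : ℕ) (p : I × (ℕ → A)) : Agr n p p := ⟨rfl, fun _ _ => rfl⟩

lemma Agr.symm {n : ℕ} {p q : I × (ℕ → A)} (h : Agr n p q) : Agr n q p :=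
  ⟨h.1.symm, fun i hi => (h.2 i hi).symm⟩

lemma Agr.trans {n : ℕ} {p q r : I × (ℕ → A)} (h : Agr n p q) (h' : Agr n q r) : Agr n p r :=
  ⟨h.1.trans h'.1, fun i hi => (h.2 i hi).trans (h'.2 i hi)⟩

lemma Agr.mono {m n : ℕ} (hmn : m ≤ n) {p q : I × (ℕ → A)} (h : Agr n p q) : Agr m p q :=
  ⟨h.1, fun i hi => h.2 i (by omega)⟩

lemma agr_app (κ : I) (u : List A) (z z' : ℕ → A) : Agr u.length (κ, app u z) (κ, app u z') :=
  ⟨rfl, fun i hi => app_apply_of_lt u z z' i hi⟩

/-- A sequence with the same first letters. -/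
lemma eq_app_pre {x x' : ℕ → A} {n : ℕ} (h : ∀ i < n, x i = x' i) :
    x' = app (pre x n) (fun k => x' (n + k)) := by
  have : pre x n = pre x' n := by
    simp only [pre]
    congr 1
    funext i
    exact h i i.2
  rw [this, app_pre]

section topology

variable [TopologicalSpace I] [DiscreteTopology I] [TopologicalSpace A] [DiscreteTopology A]

lemma agr_mem_nhds (n : ℕ) (p : I × (ℕ → A)) : ∀ᶠ q in 𝓝 p, Agr n p q := by
  have h1 : ∀ᶠ q : I × (ℕ → A) in 𝓝 p, p.1 = q.1 := by
    have : Tendsto (fun q : I × (ℕ → A) => q.1) (𝓝 p) (𝓝 p.1) := continuous_fst.continuousAt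
    rw [nhds_discrete I, tendsto_pure] at this
    filter_upwards [this] with q hq using hq.symm
  have h2 : ∀ i : ℕ, ∀ᶠ q : I × (ℕ → A) in 𝓝 p, p.2 i = q.2 i := by
    intro i
    have : Tendsto (fun q : I × (ℕ → A) => q.2 i) (𝓝 p) (𝓝 (p.2 i)) :=
      ((continuous_apply i).comp continuous_snd).continuousAt
    rw [nhds_discrete A, tendsto_pure] at this
    filter_upwards [this] with q hq using hq.symm
  have h3 : ∀ᶠ q : I × (ℕ → A) in 𝓝 p, ∀ i ∈ Finset.range n, p.2 i = q.2 i := by
    rw [Filter.eventually_all_finset]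
    intro i _
    exact h2 i
  filter_upwards [h1, h3] with q hq hq'
  exact ⟨hq, fun i hi => hq' i (Finset.mem_range.mpr hi)⟩

lemma isOpen_agr (n : ℕ) (p : I × (ℕ → A)) : IsOpen {q | Agr n p q} := by
  rw [isOpen_iff_mem_nhds]
  intro q hq
  filter_upwards [agr_mem_nhds n q] with r hr
  exact hq.trans hr

/-- Neighbourhoods are given by agreement. -/
lemma eventually_iff_agr (p : I × (ℕ → A)) (P : I × (ℕ → A) → Prop) :
    (∀ᶠ q in 𝓝 p, P q) ↔ ∃ n, ∀ q, Agr n p q → P q := by
  constructor
  · intro h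
    rw [eventually_nhds_iff] at h
    obtain ⟨t, ht, hto, hpt⟩ := h
    rw [isOpen_prod_iff] at hto
    obtain ⟨u, v, hu, hv, hpu, hpv, huv⟩ := hto p.1 p.2 hpt
    rw [isOpen_pi_iff] at hv
    obtain ⟨F, w, hw, hwv⟩ := hv p.2 hpv
    obtain ⟨n, hn⟩ : ∃ n, ∀ i ∈ F, i < n := by
      refine ⟨F.sup id + 1, fun i hi => ?_⟩
      have : i ≤ F.sup id := Finset.le_sup (f := id) hi
      omega
    refine ⟨n, fun q hq => ht _ (huv ?_)⟩
    refine ⟨by rw [← hq.1]; exact hpu, hwv ?_⟩
    intro i hi
    have h1 := (hw i hi).2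
    rw [hq.2 i (hn i hi)] at h1
    exact h1
  · rintro ⟨n, hn⟩
    filter_upwards [agr_mem_nhds n p] with q hq using hn q hq

/-- Convergence in terms of agreement. -/
lemma tendsto_iff_agr {α : Type*} {F : Filter α} {f : α → I × (ℕ → A)} {p : I × (ℕ → A)} :
    Tendsto f F (𝓝 p) ↔ ∀ n, ∀ᶠ a in F, Agr n p (f a) := by
  constructor
  · intro h n
    exact h.eventually (agr_mem_nhds n p)
  · intro h s hs
    have : ∀ᶠ q in 𝓝 p, q ∈ s := hs
    rw [eventually_iff_agr] at this
    obtain ⟨n, hn⟩ := this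
    rw [Filter.mem_map]
    filter_upwards [h n] with a ha using hn _ ha

/-- Continuity in terms of agreement. -/
lemma continuous_iff_agr {f : I × (ℕ → A) → I × (ℕ → A)} :
    Continuous f ↔ ∀ p n, ∃ m, ∀ q, Agr m p q → Agr n (f p) (f q) := by
  rw [continuous_iff_continuousAt]
  constructor
  · intro h p n
    have := tendsto_iff_agr.mp (h p) n
    rwa [eventually_iff_agr] at this
  · intro h p
    rw [ContinuousAt, tendsto_iff_agr]
    intro n
    rw [eventually_iff_agr]
    exact h p n

/-- Uniform depth by compactness. -/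
lemma uniform_depth [Finite I] [Finite A] (P : ℕ → I × (ℕ → A) → Prop)
    (hmono : ∀ n p, P n p → P (n + 1) p) (hagr : ∀ n p q, P n p → Agr n p q → P n q)
    (hex : ∀ p, ∃ n, P n p) : ∃ N, ∀ p, P N p := by
  have hmono' : ∀ m n, m ≤ n → ∀ p, P m p → P n p := by
    intro m n hmn p hp
    induction hmn with
    | refl => exact hp
    | step _ ih => exact hmono _ _ ih
  have hopen : ∀ n, IsOpen {p | P n p} := by
    intro n
    rw [isOpen_iff_mem_nhds]
    intro p hp
    filter_upwards [agr_mem_nhds n p] with q hq using hagr n p q hp hq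
  have hcover : (Set.univ : Set (I × (ℕ → A))) ⊆ ⋃ n, {p | P n p} := by
    intro p _
    obtain ⟨n, hn⟩ := hex p
    exact Set.mem_iUnion.mpr ⟨n, hn⟩
  have hdir : Directed (· ⊆ ·) fun n => {p | P n p} := by
    intro m n
    refine ⟨max m n, ?_, ?_⟩
    · intro p hp
      exact hmono' _ _ (le_max_left _ _) p hp
    · intro p hp
      exact hmono' _ _ (le_max_right _ _) p hp
  have : CompactSpace I := Finite.compactSpace
  have : CompactSpace A := Finite.compactSpace
  obtain ⟨N, hN⟩ := isCompact_univ.elim_directed_cover _ hopen hcover hdir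
  exact ⟨N, fun p => hN (Set.mem_univ p)⟩

end topology

/-- The condition of the Higman-Thompson groups: for some `N`, the map is a prefix replacement on
each of the finitely many cones given by an index and a word of length `N`. -/
def PrefixRep (h : I × (ℕ → A) → I × (ℕ → A)) : Prop :=
  ∃ N : ℕ, ∀ (κ : I) (u : List A), u.length = N →
    ∃ (κ' : I) (v : List A), ∀ z : ℕ → A, h (κ, app u z) = (κ', app v z)

section locality

variable [TopologicalSpace I] [TopologicalSpace A]

/-- Locally, `h` preserves tails up to a shift. -/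
def LTail (h : I × (ℕ → A) → I × (ℕ → A)) : Prop :=
  ∀ p, ∃ m n : ℕ, ∀ᶠ p' in 𝓝 p, ∀ i, (h p').2 (n + i) = p'.2 (m + i)

/-- Locally, `f` is given up to a shift by the sliding block code with rule `R`. -/
def LocRule (R : (ℕ → A) → A) (f : I × (ℕ → A) → I × (ℕ → A)) : Prop :=
  ∀ p, ∃ m n : ℕ, ∀ᶠ p' in 𝓝 p, ∀ i, (f p').2 (n + i) = R (fun j => p'.2 (m + i + j))

/-- Locally, `f` is given up to a shift by a fixed sliding block code. -/
def LocU (f : I × (ℕ → A) → I × (ℕ → A)) : Prop :=
  ∃ (R : (ℕ → A) → A) (c : ℕ), (∀ x y : ℕ → A, (∀ i < c, x i = y i) → R x = R y) ∧ LocRule R f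

lemma LTail.locU {h : I × (ℕ → A) → I × (ℕ → A)} (hh : LTail h) : LocU h :=
  ⟨fun x => x 0, 1, fun _ _ hxy => hxy 0 (by omega), hh⟩

lemma LTail_id : LTail (id : I × (ℕ → A) → I × (ℕ → A)) :=
  fun _ => ⟨0, 0, Filter.Eventually.of_forall fun _ _ => rfl⟩

lemma LocU.comp {f g : I × (ℕ → A) → I × (ℕ → A)} (hf : Continuous f) (hF : LocU f)
    (hG : LocU g) : LocU (fun p => g (f p)) := by
  obtain ⟨R, c, hR, hfR⟩ := hF
  obtain ⟨S, d, hS, hgS⟩ := hG
  refine ⟨fun x => S (fun j => R (fun l => x (j + l))), c + d, ?_, ?_⟩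
  · intro x y hxy
    apply hS
    intro j hj
    apply hR
    intro l hl
    exact hxy _ (by omega)
  · intro p
    obtain ⟨m, n, h1⟩ := hfR p
    obtain ⟨m', n', h2⟩ := hgS (f p)
    refine ⟨m + m', n + n', ?_⟩
    filter_upwards [h1, hf.continuousAt.eventually h2] with p' h3 h4
    intro i
    have e1 := h4 (n + i)
    rw [show n + n' + i = n' + (n + i) by ring, e1]
    congr 1
    funext j
    rw [show m' + (n + i) + j = n + (m' + i + j) by ring, h3]
    congr 1
    funext l
    exact congrArg p'.2 (by ring)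

/-- Conjugation of a locally tail preserving map. -/
lemma LTail.conj {f : (I × (ℕ → A)) ≃ₜ (I × (ℕ → A))} (hf : LocU f)
    {h : I × (ℕ → A) → I × (ℕ → A)} (hc : Continuous h) (hh : LTail h) :
    LTail (fun p => f (h (f.symm p))) := by
  obtain ⟨R, c, hR, hfR⟩ := hf
  intro p
  obtain ⟨m, n, h1⟩ := hh (f.symm p)
  obtain ⟨a, b, h2⟩ := hfR (f.symm p)
  obtain ⟨a', b', h3⟩ := hfR (h (f.symm p))
  have hc1 : Tendsto (fun p => f.symm p) (𝓝 p) (𝓝 (f.symm p)) := f.symm.continuous.continuousAt
  have hc2 : Tendsto (fun p => h (f.symm p)) (𝓝 p) (𝓝 (h (f.symm p))) :=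
    (hc.comp f.symm.continuous).continuousAt
  -- `(f (h q)) (b' + (n + a + i)) = R (σ^{a' + n + a + i} (h q)) = R (σ^{m + a' + a + i} q)`
  -- `= f q (b + m + a' + i)`
  refine ⟨b + m + a', b' + n + a, ?_⟩
  filter_upwards [hc1.eventually h1, hc1.eventually h2, hc2.eventually h3] with p' g1 g2 g3
  intro i
  have e1 := g3 (n + a + i)
  rw [show b' + n + a + i = b' + (n + a + i) by ring, e1]
  have e2 := g2 (m + a' + i)
  rw [show f (f.symm p') = p' from f.apply_symm_apply p'] at e2
  rw [show b + m + a' + i = b + (m + a' + i) by ring, e2]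
  congr 1
  funext j
  rw [show a' + (n + a + i) + j = n + (a' + a + i + j) by ring, g1]
  exact congrArg (f.symm p').2 (by ring)

end locality

section prefix_rep

variable [TopologicalSpace I] [DiscreteTopology I] [TopologicalSpace A] [DiscreteTopology A]

lemma PrefixRep.lTail {h : I × (ℕ → A) → I × (ℕ → A)} (hh : PrefixRep h) : LTail h := by
  obtain ⟨N, hN⟩ := hh
  intro p
  obtain ⟨κ', v, hv⟩ := hN p.1 (pre p.2 N) (by simp)
  refine ⟨N, v.length, ?_⟩
  filter_upwards [agr_mem_nhds N p] with p' hp' i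
  have e1 : p' = (p.1, app (pre p.2 N) (fun k => p'.2 (N + k))) := by
    rw [← eq_app_pre hp'.2, hp'.1]
  have e2 := hv (fun k => p'.2 (N + k))
  rw [← e1] at e2
  rw [e2]
  exact app_apply_add v _ i

lemma LTail.prefixRep [Finite I] [Finite A] {h : I × (ℕ → A) → I × (ℕ → A)} (hc : Continuous h)
    (hh : LTail h) : PrefixRep h := by
  suffices key : ∃ N, ∀ p : I × (ℕ → A), ∃ (κ' : I) (v : List A), ∀ z : ℕ → A,
      h (p.1, app (pre p.2 N) z) = (κ', app v z) by
    obtain ⟨N, hN⟩ := key
    refine ⟨N, fun κ u hu => ?_⟩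
    by_cases hne : Nonempty (ℕ → A)
    · obtain ⟨z0⟩ := hne
      obtain ⟨κ', v, hv⟩ := hN (κ, app u z0)
      refine ⟨κ', v, fun z => ?_⟩
      have := hv z
      simp only at this
      rw [← hu, pre_app] at this
      exact this
    · exact ⟨κ, u, fun z => absurd ⟨z⟩ hne⟩
  apply uniform_depth (fun N p => ∃ (κ' : I) (v : List A), ∀ z : ℕ → A,
      h (p.1, app (pre p.2 N) z) = (κ', app v z))
  · rintro N p ⟨κ', v, hv⟩
    refine ⟨κ', v ++ [p.2 N], fun z => ?_⟩
    have e1 : app (pre p.2 (N + 1)) z = app (pre p.2 N) (cns (p.2 N) z) := by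
      have : pre p.2 (N + 1) = pre p.2 N ++ [p.2 N] := by
        apply List.ext_getElem
        · simp
        · intro n h1 h2
          simp only [pre, List.getElem_ofFn]
          by_cases hn : n < N
          · rw [List.getElem_append_left (by simpa using hn)]
            simp
          · have : n = N := by
              rw [length_pre] at h1
              omega
            subst this
            simp
      rw [this, app_append]
      rfl
    rw [e1, hv, app_append]
    rfl
  · rintro N p q ⟨κ', v, hv⟩ hpq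
    refine ⟨κ', v, fun z => ?_⟩
    have : pre q.2 N = pre p.2 N := by
      simp only [pre]
      congr 1
      funext i
      exact (hpq.2 i i.2).symm
    rw [this, ← hpq.1, hv]
  · intro p
    obtain ⟨m, n, h1⟩ := hh p
    rw [eventually_iff_agr] at h1
    obtain ⟨M, hM⟩ := h1
    obtain ⟨L, hL⟩ := continuous_iff_agr.mp hc p n
    set N := m + M + L with hN
    refine ⟨N, (h p).1, pre (h p).2 n ++ (pre p.2 N).drop m, fun z => ?_⟩
    set q : I × (ℕ → A) := (p.1, app (pre p.2 N) z) with hq
    have hpq : Agr N p q := by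
      refine ⟨rfl, fun i hi => ?_⟩
      rw [hq]
      simp only
      rw [app_getElem _ _ _ (by simpa using hi)]
      simp [pre]
    have a1 := hL q (hpq.mono (by omega))
    have a2 := hM q (hpq.mono (by omega))
    have e1 : (h q).2 = app (pre (h p).2 n) (fun k => (h q).2 (n + k)) := eq_app_pre a1.2
    apply Prod.ext
    · exact a1.1.symm
    · rw [e1, app_append]
      congr 1
      funext i
      rw [a2 i, hq]
      simp only
      have e3 : app (pre p.2 N) z = app ((pre p.2 N).take m) (app ((pre p.2 N).drop m) z) := by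
        rw [← app_append, List.take_append_drop]
      have e4 : ((pre p.2 N).take m).length = m := by
        rw [List.length_take, length_pre]
        omega
      rw [e3]
      have := app_apply_add ((pre p.2 N).take m) (app ((pre p.2 N).drop m) z) i
      rw [e4] at this
      exact this

end prefix_rep

end Pool.Agent.Lib.MP_e5892f_al
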