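import Mathlib
import Pool.Agent.Lib.MP_e5892f_al.Cantor

/-!
# Locally sliding homeomorphisms normalize the Higman-Thompson groups and are rational
-/

namespace Pool.Agent.Lib.MP_e5892f_al

open Set Filter Topology

variable {I A : Type*}

section normalizer

variable [TopologicalSpace I] [DiscreteTopology I] [TopologicalSpace A] [DiscreteTopology A]

/-- A homeomorphism is bi-local when it and its inverse are locally sliding. -/
def BiLoc (f : (I × (ℕ → A)) ≃ₜ (I × (ℕ → A))) : Prop := LocU f ∧ LocU f.symm

omit [DiscreteTopology I] [DiscreteTopology A] in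
lemma BiLoc.one : BiLoc (1 : (I × (ℕ → A)) ≃ₜ (I × (ℕ → A))) :=
  ⟨LTail_id.locU, LTail_id.locU⟩

omit [DiscreteTopology I] [DiscreteTopology A] in
lemma BiLoc.mul {f g : (I × (ℕ → A)) ≃ₜ (I × (ℕ → A))} (hf : BiLoc f) (hg : BiLoc g) :
    BiLoc (f * g) :=
  ⟨LocU.comp (f := ⇑g) (g := ⇑f) g.continuous hg.1 hf.1,
    LocU.comp (f := ⇑f.symm) (g := ⇑g.symm) f.symm.continuous hf.2 hg.2⟩

omit [DiscreteTopology I] [DiscreteTopology A] in
lemma BiLoc.inv {f : (I × (ℕ → A)) ≃ₜ (I × (ℕ → A))} (hf : BiLoc f) : BiLoc f⁻¹ :=
  ⟨hf.2, hf.1⟩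

omit [DiscreteTopology I] [DiscreteTopology A] in
lemma BiLoc.closure {S : Set ((I × (ℕ → A)) ≃ₜ (I × (ℕ → A)))} (hS : ∀ f ∈ S, BiLoc f)
    {g : (I × (ℕ → A)) ≃ₜ (I × (ℕ → A))} (hg : g ∈ Subgroup.closure S) : BiLoc g := by
  induction hg using Subgroup.closure_induction with
  | mem x hx => exact hS x hx
  | one => exact BiLoc.one
  | mul x y _ _ hx hy => exact hx.mul hy
  | inv x _ hx => exact hx.inv

/-- Bi-local homeomorphisms normalize the group of prefix replacements. -/
theorem BiLoc.normalizes [Finite I] [Finite A] {f : (I × (ℕ → A)) ≃ₜ (I × (ℕ → A))}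
    (hf : BiLoc f) (h : (I × (ℕ → A)) ≃ₜ (I × (ℕ → A))) :
    PrefixRep h ↔ PrefixRep (f * h * f⁻¹ : (I × (ℕ → A)) ≃ₜ (I × (ℕ → A))) := by
  constructor
  · intro hh
    exact LTail.prefixRep (f * h * f⁻¹).continuous (LTail.conj hf.1 h.continuous hh.lTail)
  · intro hh
    have h1 := LTail.prefixRep (f⁻¹ * (f * h * f⁻¹) * f⁻¹⁻¹).continuous
      (LTail.conj hf.inv.1 (f * h * f⁻¹).continuous hh.lTail)
    have h2 : f⁻¹ * (f * h * f⁻¹) * f⁻¹⁻¹ = h := by group
    rw [h2] at h1
    exact h1

end normalizer

section rational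

lemma pre_succ {A : Type*} (s : ℕ → A) (m : ℕ) : pre s (m + 1) = pre s m ++ [s m] := by
  apply List.ext_getElem
  · simp
  · intro n h1 h2
    simp only [pre, List.getElem_ofFn]
    by_cases hn : n < m
    · rw [List.getElem_append_left (by simpa using hn)]
      simp
    · have : n = m := by
        rw [length_pre] at h1
        omega
      subst this
      simp

/-- The uniform form of a locally sliding map gives a transducer. -/
theorem exists_transducer {A : Type} [Finite A] (z₀ : A) (f : (ℕ → A) → (ℕ → A))
    (R : (ℕ → A) → A) (c N : ℕ) (hN : 0 < N) (hcN : c ≤ N)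
    (hR : ∀ x y : ℕ → A, (∀ i < c, x i = y i) → R x = R y)
    (hf : ∀ x : ℕ → A, ∃ w : List A, ∀ x' : ℕ → A, (∀ i < N, x i = x' i) →
      f x' = app w (fun i => R (fun j => x' (N - c + i + j)))) :
    ∃ T : Transducer A, T.Computes f := by
  choose w hw using hf
  -- the extension of a word of length `N`
  let ext : (Fin N → A) → (ℕ → A) := fun u i => if h : i < N then u ⟨i, h⟩ else z₀
  let nb : (Fin N → A) → A → (Fin N → A) := fun u a i =>
    if h : i.val + 1 < N then u ⟨i.val + 1, h⟩ else a
  let T : Transducer A :=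
    { Q := Fin (N + 1) × (Fin N → A)
      finite := inferInstance
      q₀ := (0, fun _ => z₀)
      δ := fun q a => (⟨min (q.1.val + 1) N, by omega⟩, nb q.2 a)
      out := fun q a =>
        if q.1.val + 1 < N then [] else if q.1.val + 1 = N then w (ext (nb q.2 a))
        else [R (fun j => ext q.2 (N - c + j))] }
  refine ⟨T, fun x => ?_⟩
  set s : ℕ → A := fun i => R (fun j => x (N - c + i + j)) with hs
  have hst : ∀ n, T.state x n = (⟨min n N, by omega⟩,
      fun i => if N ≤ n + i.val then x (n + i.val - N) else z₀) := by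
    intro n
    induction n with
    | zero =>
      simp only [Transducer.state, T]
      apply Prod.ext
      · apply Fin.ext; simp
      · funext i
        have := i.2
        change z₀ = if N ≤ 0 + i.val then x (0 + i.val - N) else z₀
        rw [if_neg (by omega)]
    | succ n ih =>
      simp only [Transducer.state]
      rw [ih]
      simp only [T, nb]
      apply Prod.ext
      · apply Fin.ext
        simp only
        omega
      · funext i
        simp only
        have hi := i.2
        by_cases h1 : i.val + 1 < N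
        · rw [dif_pos h1]
          by_cases h2 : N ≤ n + 1 + i.val
          · rw [if_pos (by omega), if_pos h2]
            congr 1
            omega
          · rw [if_neg (by omega), if_neg h2]
        · rw [dif_neg h1, if_pos (by omega)]
          congr 1
          omega
  have hlt : ∀ n, n < N → T.written x n = [] := by
    intro n
    induction n with
    | zero => intro _; rfl
    | succ n ih =>
      intro hn
      simp only [Transducer.written]
      rw [ih (by omega), hst]
      simp only [T]
      rw [if_pos (by omega)]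
      rfl
  have hwx : ∀ x' : ℕ → A, (∀ i < N, x i = x' i) →
      f x' = app (w (ext fun i => x i)) (fun i => R (fun j => x' (N - c + i + j))) := by
    intro x' hx'
    apply hw
    intro i hi
    simp only [ext]
    rw [dif_pos hi, hx' i hi]
  have hge : ∀ m, T.written x (N + m) = w (ext fun i => x i) ++ pre s m := by
    intro m
    induction m with
    | zero =>
      obtain ⟨k, hk⟩ : ∃ k, N = k + 1 := ⟨N - 1, by omega⟩
      have e : T.written x (N + 0) = T.written x (k + 1) := by rw [add_zero, hk]
      rw [e]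
      simp only [Transducer.written]
      rw [hlt k (by omega), hst]
      simp only [T]
      rw [if_neg (by omega), if_pos (by omega)]
      have e0 : pre s 0 = [] := rfl
      rw [e0, List.append_nil, List.nil_append]
      have e1 : nb (fun i : Fin N => if N ≤ k + i.val then x (k + i.val - N) else z₀) (x k) =
          fun i : Fin N => x i := by
        funext i
        simp only [nb]
        have hi := i.2
        by_cases h1 : i.val + 1 < N
        · rw [dif_pos h1]
          rw [if_pos (by omega)]
          congr 1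
          omega
        · rw [dif_neg h1]
          congr 1
          omega
      rw [e1]
    | succ m ih =>
      rw [← add_assoc]
      simp only [Transducer.written]
      rw [ih, hst]
      simp only [T]
      rw [if_neg (by omega), if_neg (by omega), pre_succ, List.append_assoc]
      congr 3
      simp only [hs]
      apply hR
      intro j hj
      simp only [ext]
      rw [dif_pos (by omega), if_pos (by omega)]
      congr 1
      omega
  refine ⟨fun n => ?_, fun L => ⟨N + L, ?_⟩⟩
  · by_cases hn : n < N
    · rw [hlt n hn]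
      exact ⟨f x, rfl⟩
    · obtain ⟨m, rfl⟩ := Nat.exists_eq_add_of_le (not_lt.mp hn)
      refine ⟨fun k => s (m + k), ?_⟩
      rw [hge, app_append, app_pre]
      exact hwx x fun _ _ => rfl
  · rw [hge, List.length_append, length_pre]
    omega

/-- The uniform form. -/
lemma exists_uniform {A : Type} [Finite A] [Nonempty A] [TopologicalSpace A] [DiscreteTopology A]
    {f : Unit × (ℕ → A) → Unit × (ℕ → A)} (hf : Continuous f) {R : (ℕ → A) → A} {c : ℕ}
    (hR : ∀ x y : ℕ → A, (∀ i < c, x i = y i) → R x = R y) (h : LocRule R f) :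
    ∃ N, 0 < N ∧ c ≤ N ∧ ∀ x : ℕ → A, ∃ w : List A, ∀ x' : ℕ → A, (∀ i < N, x i = x' i) →
      (f ((), x')).2 = app w (fun i => R (fun j => x' (N - c + i + j))) := by
  suffices key : ∃ N, ∀ p : Unit × (ℕ → A), 0 < N ∧ c ≤ N ∧ ∃ w : List A, ∀ x' : ℕ → A,
      (∀ i < N, p.2 i = x' i) →
      (f ((), x')).2 = app w (fun i => R (fun j => x' (N - c + i + j))) by
    obtain ⟨N, hN⟩ := key
    obtain ⟨z⟩ := (inferInstance : Nonempty (ℕ → A))
    exact ⟨N, (hN ((), z)).1, (hN ((), z)).2.1, fun x => (hN ((), x)).2.2⟩
  have step : ∀ (a N : ℕ) (p : Unit × (ℕ → A)), a + c ≤ N → (∃ w : List A, ∀ x' : ℕ → A,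
      (∀ i < N, p.2 i = x' i) → (f ((), x')).2 = app w (fun i => R (fun j => x' (a + i + j)))) →
      ∀ k, a + k + c ≤ N → ∃ w : List A, ∀ x' : ℕ → A,
      (∀ i < N, p.2 i = x' i) →
      (f ((), x')).2 = app w (fun i => R (fun j => x' (a + k + i + j))) := by
    intro a N p _ h0 k
    induction k with
    | zero => intro _; simpa using h0
    | succ k ih =>
      intro hk
      obtain ⟨w, hw⟩ := ih (by omega)
      refine ⟨w ++ [R (fun j => p.2 (a + k + j))], fun x' hx' => ?_⟩
      rw [hw x' hx', app_append]
      congr 1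
      funext i
      cases i with
      | zero =>
        simp only [app_cons, app_nil, cns_zero]
        apply hR
        intro j hj
        rw [add_zero]
        exact (hx' _ (by omega)).symm
      | succ i =>
        simp only [app_cons, app_nil, cns_succ]
        congr 1
        funext j
        exact congrArg x' (by ring)
  apply uniform_depth (fun N p => 0 < N ∧ c ≤ N ∧ ∃ w : List A, ∀ x' : ℕ → A,
      (∀ i < N, p.2 i = x' i) →
      (f ((), x')).2 = app w (fun i => R (fun j => x' (N - c + i + j))))
  · rintro N p ⟨h1, h2, w, hw⟩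
    refine ⟨by omega, by omega, ?_⟩
    obtain ⟨w', hw'⟩ := step (N - c) (N + 1) p (by omega)
      ⟨w, fun x' hx' => hw x' fun i hi => hx' i (by omega)⟩ 1 (by omega)
    refine ⟨w', fun x' hx' => ?_⟩
    rw [hw' x' hx', show N + 1 - c = N - c + 1 by omega]
  · rintro N p q ⟨h1, h2, w, hw⟩ hpq
    exact ⟨h1, h2, w, fun x' hx' => hw x' fun i hi => (hpq.2 i hi).trans (hx' i hi)⟩
  · rintro ⟨u, x⟩
    obtain ⟨m, n, h1⟩ := h (u, x)
    rw [eventually_iff_agr] at h1
    obtain ⟨M, hM⟩ := h1
    obtain ⟨L, hL⟩ := continuous_iff_agr.mp hf (u, x) n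
    refine ⟨m + M + L + c + 1, by omega, by omega, ?_⟩
    have h0 : ∃ w : List A, ∀ x' : ℕ → A, (∀ i < m + M + L + c + 1, x i = x' i) →
        (f ((), x')).2 = app w (fun i => R (fun j => x' (m + i + j))) := by
      refine ⟨pre (f (u, x)).2 n, fun x' hx' => ?_⟩
      have a1 := hL ((), x') ⟨rfl, fun i hi => hx' i (by omega)⟩
      have a2 := hM ((), x') ⟨rfl, fun i hi => hx' i (by omega)⟩
      rw [eq_app_pre a1.2]
      congr 1
      funext i
      exact a2 i
    obtain ⟨w', hw'⟩ := step m (m + M + L + c + 1) (u, x) (by omega) h0 (M + L + 1) (by omega)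
    refine ⟨w', fun x' hx' => ?_⟩
    rw [hw' x' hx', show m + M + L + c + 1 - c = m + (M + L + 1) by omega]

/-- Locally sliding homeomorphisms of `A^ℕ` are rational. -/
theorem LocU.rational {A : Type} [Finite A] [Nonempty A] [TopologicalSpace A]
    [DiscreteTopology A] {f : Unit × (ℕ → A) → Unit × (ℕ → A)} (hc : Continuous f)
    (hf : LocU f) : ∃ T : Transducer A, T.Computes fun x => (f ((), x)).2 := by
  obtain ⟨R, c, hR, h⟩ := hf
  obtain ⟨N, h1, h2, h3⟩ := exists_uniform hc hR h
  obtain ⟨z₀⟩ := (inferInstance : Nonempty A)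
  exact exists_transducer z₀ _ R c N h1 h2 hR h3

end rational

end Pool.Agent.Lib.MP_e5892f_al
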