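import Mathlib
import Pool.Agent.Lib.MP_e5892f_al.Block
import Pool.Agent.Lib.MP_e5892f_al.Normalizer

/-!
# Controlled block operations as homeomorphisms of `I × A^ℕ`
-/

namespace Pool.Agent.Lib.MP_e5892f_al

open Set Filter Topology

namespace BlockCode

variable {M A I : Type*} [Zero M] (C : BlockCode M A)

/-- Extend by the background letter to the left. -/
def padZ (x : ℕ → A) (i : ℤ) : A := if 0 ≤ i then x i.toNat else C.z

/-- Replace the first `b` letters, and everything to the left, by the letter `o`. -/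
def padW (x : ℕ → A) (i : ℤ) : A := if (C.b : ℤ) ≤ i then x i.toNat else C.o

/-- The sequence starts with a nonzero block. -/
def InD (x : ℕ → A) : Prop := ∃ m, m ≠ 0 ∧ ∀ i < C.b, x i = C.B m i

/-- The bi-infinite sequence is led by a nonzero block at `s`. -/
def Led (c : ℤ → A) (s : ℤ) : Prop := (∀ i < s, c i = C.z) ∧ ∃ m, m ≠ 0 ∧ C.Blk c s m

open Classical in
/-- The position of the leading block. -/
noncomputable def ls (c : ℤ → A) : ℤ := if h : ∃ s, C.Led c s then h.choose else 0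

/-- The one-sided sequence starting at the leading block. -/
noncomputable def nrm (c : ℤ → A) (n : ℕ) : A := c (n + C.ls c)

variable {C}

lemma Led.block_ge {c : ℤ → A} {s : ℤ} (h : C.Led c s) {q : ℤ} {m : M} (hm : m ≠ 0)
    (hq : C.Blk c q m) : s ≤ q := by
  have hb := C.hb
  obtain ⟨h1, m', hm', h2⟩ := h
  by_contra hlt
  push Not at hlt
  have e1 : c (q + 2) ≠ C.z := by
    have := hq 2 (by omega)
    rw [show (q + (2 : ℕ) : ℤ) = q + 2 by norm_num] at this
    rw [this]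
    exact C.B_two m hm
  have e2 : c s = C.z := by
    have := h2 0 (by omega)
    rw [show (s + (0 : ℕ) : ℤ) = s by simp] at this
    rw [this]
    exact C.B_fst m'
  have e3 : c (s + 1) = C.z := by
    have := h2 1 (by omega)
    rw [show (s + (1 : ℕ) : ℤ) = s + 1 by norm_num] at this
    rw [this]
    exact C.B_snd m'
  rcases lt_trichotomy (q + 2) s with h3 | h3 | h3
  · exact e1 (h1 _ h3)
  · rw [h3] at e1; exact e1 e2
  · have : q + 2 = s + 1 := by omega
    rw [this] at e1; exact e1 e3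

lemma Led.unique {c : ℤ → A} {s s' : ℤ} (h : C.Led c s) (h' : C.Led c s') : s = s' := by
  obtain ⟨m, hm, h1⟩ := h.2
  obtain ⟨m', hm', h2⟩ := h'.2
  have := h.block_ge hm' h2
  have := h'.block_ge hm h1
  omega

lemma Led.ls_eq {c : ℤ → A} {s : ℤ} (h : C.Led c s) : C.ls c = s := by
  have hex : ∃ s, C.Led c s := ⟨s, h⟩
  rw [ls, dif_pos hex]
  exact hex.choose_spec.unique h

lemma Led.nrm_apply {c : ℤ → A} {s : ℤ} (h : C.Led c s) (n : ℕ) : C.nrm c n = c (n + s) := by
  rw [nrm, h.ls_eq]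

lemma Led.shift {c : ℤ → A} {s : ℤ} (h : C.Led c s) (k : ℤ) :
    C.Led (fun i => c (i + k)) (s - k) := by
  refine ⟨fun i hi => h.1 _ (by omega), ?_⟩
  obtain ⟨m, hm, h1⟩ := h.2
  refine ⟨m, hm, ?_⟩
  rw [Blk.shift, sub_add_cancel]
  exact h1

lemma Led.nrm_shift {c : ℤ → A} {s : ℤ} (h : C.Led c s) (k : ℤ) :
    C.nrm (fun i => c (i + k)) = C.nrm c := by
  funext n
  rw [(h.shift k).nrm_apply, h.nrm_apply]
  congr 1
  ring

lemma Led.padZ_nrm {c : ℤ → A} {s : ℤ} (h : C.Led c s) :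
    C.padZ (C.nrm c) = fun i => c (i + s) := by
  funext i
  rw [padZ]
  by_cases hi : 0 ≤ i
  · rw [if_pos hi, h.nrm_apply]
    congr 1
    omega
  · rw [if_neg hi]
    exact (h.1 _ (by omega)).symm

lemma Led.inD {c : ℤ → A} {s : ℤ} (h : C.Led c s) : C.InD (C.nrm c) := by
  obtain ⟨m, hm, h1⟩ := h.2
  refine ⟨m, hm, fun i hi => ?_⟩
  rw [h.nrm_apply, add_comm]
  exact h1 i hi

lemma InD.led {x : ℕ → A} (h : C.InD x) : C.Led (C.padZ x) 0 := by
  obtain ⟨m, hm, h1⟩ := h
  refine ⟨fun i hi => ?_, m, hm, fun i hi => ?_⟩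
  · rw [padZ, if_neg (by omega)]
  · rw [padZ, if_pos (by omega), ← h1 i hi]
    congr 1
    omega

lemma InD.nrm_padZ {x : ℕ → A} (h : C.InD x) : C.nrm (C.padZ x) = x := by
  funext n
  rw [h.led.nrm_apply, padZ, if_pos (by omega)]
  exact congrArg x (by omega)

lemma InD.congr {x y : ℕ → A} (h : C.InD x) (hxy : ∀ i < C.b, x i = y i) : C.InD y := by
  obtain ⟨m, hm, h1⟩ := h
  exact ⟨m, hm, fun i hi => by rw [← hxy i hi, h1 i hi]⟩

lemma Led.congr {c c' : ℤ → A} {s : ℤ} (h : C.Led c s) (hc : ∀ i < s + C.b, c i = c' i) :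
    C.Led c' s := by
  have hb := C.hb
  refine ⟨fun i hi => by rw [← hc i (by omega)]; exact h.1 i hi, ?_⟩
  obtain ⟨m, hm, h1⟩ := h.2
  exact ⟨m, hm, fun i hi => by rw [← hc _ (by omega)]; exact h1 i hi⟩

variable {θ : M → Equiv.Perm M}

/-- The operation moves the leading block by at most one block. -/
lemma Led.T (hθ0 : θ 0 = 1) (hθ : ∀ m n, θ (θ n m) = θ m) {c : ℤ → A} {s : ℤ}
    (h : C.Led c s) : ∃ s', C.Led (C.T θ c) s' ∧ s - C.b ≤ s' ∧ s' ≤ s + C.b := by
  have hb := C.hb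
  obtain ⟨m₀, hm₀, hblk⟩ := h.2
  -- active windows start at `s - b` or later
  have hact : ∀ p m' m, C.Act θ c p m' m → s - C.b ≤ p := by
    intro p m' m hp
    have := h.block_ge (hp.ne_zero hθ0) hp.2.1
    omega
  have hact2 : ∀ p m' m, C.Act θ c p m' m → p = s - C.b ∨ s ≤ p := by
    intro p m' m hp
    by_contra hcon
    push Not at hcon
    have h1 := hact p m' m hp
    exact hblk.no_overlap hp.2.1 hm₀ (by omega) (by omega)
  have hzero : ∀ i < s - C.b, C.T θ c i = C.z := by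
    intro i hi
    rw [T_not, h.1 i (by omega)]
    intro p m' m hp
    have := hact p m' m hp
    omega
  have hblk0 : C.Blk c (s - C.b) 0 := by
    intro i hi
    rw [C.B_zero]
    exact h.1 _ (by omega)
  by_cases hA : θ m₀ 0 ≠ 0
  · have hθm : θ m₀ ≠ 1 := by
      intro h1
      rw [h1] at hA
      exact hA rfl
    have hA' : C.Act θ c (s - C.b) 0 m₀ := ⟨hblk0, by rw [sub_add_cancel]; exact hblk, hθm⟩
    exact ⟨s - C.b, ⟨hzero, _, hA, T_act hθ0 hA'⟩, by omega, by omega⟩
  · push Not at hA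
    have hzero' : ∀ i < s, C.T θ c i = C.z := by
      intro i hi
      by_cases h1 : i < s - C.b
      · exact hzero i h1
      · by_cases hθm : θ m₀ = 1
        · rw [T_not, h.1 i hi]
          intro p m' m hp
          rcases hact2 p m' m hp with h2 | h2
          · exfalso
            have h3 := hp.2.1
            rw [h2, sub_add_cancel] at h3
            have h4 := h3.unique hblk
            rw [h4] at hp
            exact hp.2.2 hθm
          · left; omega
        · have hA' : C.Act θ c (s - C.b) 0 m₀ :=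
            ⟨hblk0, by rw [sub_add_cancel]; exact hblk, hθm⟩
          have h2 := T_act hθ0 hA' (i - (s - C.b)).toNat (by omega)
          rw [hA, C.B_zero] at h2
          rw [← h2]
          congr 1
          omega
    by_cases hB : ∃ m' m, C.Act θ c s m' m
    · obtain ⟨m', m₁, hB⟩ := hB
      have e : m' = m₀ := hB.1.unique hblk
      subst e
      by_cases hn : θ m₁ m' = 0
      · obtain ⟨n, h1, h2⟩ := T_source hθ0 hθ hB
        have hn0 : n ≠ 0 := by
          rintro rfl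
          rw [hθ0] at h2
          exact hB.2.2 h2.symm
        refine ⟨s + C.b, ⟨fun i hi => ?_, n, hn0, h1⟩, by omega, le_refl _⟩
        by_cases h3 : i < s
        · exact hzero' i h3
        · have h4 := T_act hθ0 hB (i - s).toNat (by omega)
          rw [hn, C.B_zero] at h4
          rw [← h4]
          congr 1
          omega
      · exact ⟨s, ⟨hzero', _, hn, T_act hθ0 hB⟩, by omega, by omega⟩
    · refine ⟨s, ⟨hzero', m₀, hm₀, ?_⟩, by omega, by omega⟩
      rw [blk_T_of_disjoint]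
      · exact hblk
      · intro p m' m hp
        rcases hact2 p m' m hp with h2 | h2
        · right; omega
        · left
          by_contra hcon
          push Not at hcon
          rcases eq_or_lt_of_le h2 with h3 | h3
          · exact hB ⟨m', m, by rw [h3]; exact hp⟩
          · exact hblk.no_overlap hp.1 hm₀ h3 hcon

/-- The operation commutes with normalization. -/
lemma Led.nrm_T (hθ0 : θ 0 = 1) (hθ : ∀ m n, θ (θ n m) = θ m) {c : ℤ → A} {s : ℤ}
    (h : C.Led c s) : C.nrm (C.T θ (C.padZ (C.nrm c))) = C.nrm (C.T θ c) := by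
  obtain ⟨s', h1, -, -⟩ := h.T hθ0 hθ
  rw [h.padZ_nrm, T_shift hθ0, h1.nrm_shift]

variable (C)

open Classical in
/-- The operation on `I × A^ℕ`. -/
noncomputable def liftFun (κ₀ : I) (θ : M → Equiv.Perm M) (p : I × (ℕ → A)) : I × (ℕ → A) :=
  if p.1 = κ₀ ∧ C.InD p.2 then (κ₀, C.nrm (C.T θ (C.padZ p.2)))
  else (p.1, fun n => if n < C.b then p.2 n else C.T θ (C.padW p.2) n)

variable {C}

lemma T_padW (x : ℕ → A) {i : ℤ} (hi : i < C.b) : C.T θ (C.padW x) i = C.o := by
  rw [T_not]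
  · rw [padW, if_neg (by omega)]
  · intro p m' m hp
    by_contra hcon
    push Not at hcon
    have h1 := hp.1 0 (by have := C.hb; omega)
    rw [C.B_fst, show (p + (0 : ℕ) : ℤ) = p by simp, padW, if_neg (by omega)] at h1
    exact C.ho h1

lemma liftFun_inv (κ₀ : I) (hθ0 : θ 0 = 1) (hθ : ∀ m n, θ (θ n m) = θ m)
    (p : I × (ℕ → A)) : C.liftFun κ₀ (inv' θ) (C.liftFun κ₀ θ p) = p := by
  by_cases hp : p.1 = κ₀ ∧ C.InD p.2
  · obtain ⟨s', h1, -, -⟩ := hp.2.led.T hθ0 hθ
    have e1 : C.liftFun κ₀ θ p = (κ₀, C.nrm (C.T θ (C.padZ p.2))) := by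
      rw [liftFun, if_pos hp]
    rw [e1, liftFun, if_pos ⟨rfl, h1.inD⟩]
    simp only
    rw [h1.nrm_T (inv'_zero hθ0) (inv'_compat hθ), T_inv hθ0 hθ, hp.2.nrm_padZ, ← hp.1]
  · set x' : ℕ → A := fun n => if n < C.b then p.2 n else C.T θ (C.padW p.2) n with hx'
    have e1 : C.liftFun κ₀ θ p = (p.1, x') := by
      rw [liftFun, if_neg hp]
    have e2 : ¬ (p.1 = κ₀ ∧ C.InD x') := by
      rintro ⟨h1, h2⟩
      refine hp ⟨h1, h2.congr fun i hi => ?_⟩
      rw [hx']
      simp only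
      rw [if_pos hi]
    have e3 : C.padW x' = C.T θ (C.padW p.2) := by
      funext i
      by_cases hi : i < C.b
      · rw [T_padW _ hi, padW, if_neg (by omega)]
      · rw [padW, if_pos (by omega), hx']
        simp only
        rw [if_neg (by omega)]
        congr 1
        omega
    rw [e1, liftFun, if_neg e2]
    apply Prod.ext
    · rfl
    · funext n
      simp only
      by_cases hn : n < C.b
      · rw [if_pos hn, hx']
        simp only
        rw [if_pos hn]
      · rw [if_neg hn, e3, T_inv hθ0 hθ, padW, if_pos (by omega)]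
        rfl

lemma liftFun_agr [DecidableEq I] (κ₀ : I) (hθ0 : θ 0 = 1) (hθ : ∀ m n, θ (θ n m) = θ m)
    (p : I × (ℕ → A)) (n : ℕ) : ∃ m, ∀ q, Agr m p q →
      Agr n (C.liftFun κ₀ θ p) (C.liftFun κ₀ θ q) := by
  have hb := C.hb
  refine ⟨n + 4 * C.b, fun q hq => ?_⟩
  by_cases hp : p.1 = κ₀ ∧ C.InD p.2
  · have hq' : q.1 = κ₀ ∧ C.InD q.2 :=
      ⟨hq.1 ▸ hp.1, hp.2.congr fun i hi => hq.2 i (by omega)⟩
    obtain ⟨s', h1, h2, h3⟩ := hp.2.led.T hθ0 hθ
    have e0 : ∀ i : ℤ, i < n + 4 * C.b → C.padZ p.2 i = C.padZ q.2 i := by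
      intro i hi
      rw [padZ, padZ]
      by_cases hi0 : 0 ≤ i
      · rw [if_pos hi0, if_pos hi0, hq.2 _ (by omega)]
      · rw [if_neg hi0, if_neg hi0]
    have e1 : ∀ i : ℤ, i + 2 * C.b ≤ n + 4 * C.b →
        C.T θ (C.padZ p.2) i = C.T θ (C.padZ q.2) i := by
      intro i hi
      apply T_congr hθ0
      intro j _ hj
      exact e0 j (by omega)
    have h4 : C.Led (C.T θ (C.padZ q.2)) s' := h1.congr fun i hi => e1 i (by omega)
    rw [liftFun, if_pos hp, liftFun, if_pos hq']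
    refine ⟨rfl, fun i hi => ?_⟩
    simp only
    rw [h1.nrm_apply, h4.nrm_apply]
    exact e1 _ (by omega)
  · have hq' : ¬ (q.1 = κ₀ ∧ C.InD q.2) := by
      rintro ⟨h1, h2⟩
      exact hp ⟨hq.1.trans h1, h2.congr fun i hi => (hq.2 i (by omega)).symm⟩
    rw [liftFun, if_neg hp, liftFun, if_neg hq']
    refine ⟨hq.1, fun i hi => ?_⟩
    simp only
    by_cases hib : i < C.b
    · rw [if_pos hib, if_pos hib]
      exact hq.2 i (by omega)
    · rw [if_neg hib, if_neg hib]
      apply T_congr hθ0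
      intro j _ hj
      rw [padW, padW]
      by_cases hjb : (C.b : ℤ) ≤ j
      · rw [if_pos hjb, if_pos hjb]
        exact hq.2 _ (by omega)
      · rw [if_neg hjb, if_neg hjb]

/-- The local rule. -/
noncomputable def rule (θ : M → Equiv.Perm M) (w : ℕ → A) : A := C.T θ (C.padZ w) C.b

lemma T_eq_rule (hθ0 : θ 0 = 1) {c : ℤ → A} {k : ℤ} {w : ℕ → A}
    (h : ∀ l : ℕ, 0 < l → l < 3 * C.b → c (l + k) = w l) :
    C.T θ c (C.b + k) = C.rule θ w := by
  have e : C.T θ c (C.b + k) = C.T θ (fun i => c (i + k)) C.b := by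
    rw [T_shift hθ0]
  rw [e, rule]
  apply T_congr hθ0
  intro j hj hj'
  rw [padZ, if_pos (by omega), ← h j.toNat (by omega) (by omega)]
  congr 1
  omega

section homeo

variable [TopologicalSpace I] [DiscreteTopology I] [TopologicalSpace A] [DiscreteTopology A]

lemma liftFun_continuous (κ₀ : I) (hθ0 : θ 0 = 1) (hθ : ∀ m n, θ (θ n m) = θ m) :
    Continuous (C.liftFun κ₀ θ) := by
  classical
  rw [continuous_iff_agr]
  exact fun p n => liftFun_agr κ₀ hθ0 hθ p n

variable (C) in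
/-- The operation as a homeomorphism. -/
noncomputable def lift (κ₀ : I) (θ : M → Equiv.Perm M) (hθ0 : θ 0 = 1)
    (hθ : ∀ m n, θ (θ n m) = θ m) : (I × (ℕ → A)) ≃ₜ (I × (ℕ → A)) where
  toFun := C.liftFun κ₀ θ
  invFun := C.liftFun κ₀ (inv' θ)
  left_inv := liftFun_inv κ₀ hθ0 hθ
  right_inv p := by
    have := liftFun_inv (C := C) κ₀ (inv'_zero hθ0) (inv'_compat hθ) p
    rw [inv'_inv'] at this
    exact this
  continuous_toFun := liftFun_continuous κ₀ hθ0 hθ
  continuous_invFun := liftFun_continuous κ₀ (inv'_zero hθ0) (inv'_compat hθ)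

lemma liftFun_locU (κ₀ : I) (hθ0 : θ 0 = 1) (hθ : ∀ m n, θ (θ n m) = θ m) :
    LocU (C.liftFun κ₀ θ) := by
  have hb := C.hb
  refine ⟨C.rule θ, 3 * C.b, ?_, ?_⟩
  · intro x y hxy
    apply T_congr hθ0
    intro j hj hj'
    rw [padZ, padZ, if_pos (by omega), if_pos (by omega), hxy _ (by omega)]
  · intro p
    by_cases hp : p.1 = κ₀ ∧ C.InD p.2
    · obtain ⟨s', h1, h2, h3⟩ := hp.2.led.T hθ0 hθ
      refine ⟨(C.b + s').toNat, 2 * C.b, ?_⟩
      filter_upwards [agr_mem_nhds (4 * C.b) p] with q hq i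
      have hq' : q.1 = κ₀ ∧ C.InD q.2 :=
        ⟨hq.1 ▸ hp.1, hp.2.congr fun i hi => hq.2 i (by omega)⟩
      have e0 : ∀ i : ℤ, i < 4 * C.b → C.padZ p.2 i = C.padZ q.2 i := by
        intro i hi
        rw [padZ, padZ]
        by_cases hi0 : 0 ≤ i
        · rw [if_pos hi0, if_pos hi0, hq.2 _ (by omega)]
        · rw [if_neg hi0, if_neg hi0]
      have e1 : ∀ i : ℤ, i + 2 * C.b ≤ 4 * C.b →
          C.T θ (C.padZ p.2) i = C.T θ (C.padZ q.2) i := by
        intro i hi
        apply T_congr hθ0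
        intro j _ hj
        exact e0 j (by omega)
      have h4 : C.Led (C.T θ (C.padZ q.2)) s' := h1.congr fun i hi => e1 i (by omega)
      rw [liftFun, if_pos hq']
      simp only
      rw [h4.nrm_apply]
      have e2 : ((2 * C.b + i : ℕ) : ℤ) + s' = C.b + (C.b + s' + i) := by push_cast; ring
      rw [e2]
      apply T_eq_rule hθ0
      intro l hl hl'
      rw [padZ, if_pos (by omega)]
      exact congrArg q.2 (by omega)
    · refine ⟨C.b, 2 * C.b, ?_⟩
      filter_upwards [agr_mem_nhds (4 * C.b) p] with q hq i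
      have hq' : ¬ (q.1 = κ₀ ∧ C.InD q.2) := by
        rintro ⟨h1, h2⟩
        exact hp ⟨hq.1.trans h1, h2.congr fun i hi => (hq.2 i (by omega)).symm⟩
      rw [liftFun, if_neg hq']
      simp only
      rw [if_neg (by omega)]
      have e2 : ((2 * C.b + i : ℕ) : ℤ) = C.b + (C.b + i) := by push_cast; ring
      rw [e2]
      apply T_eq_rule hθ0
      intro l hl hl'
      rw [padW, if_pos (by omega)]
      exact congrArg q.2 (by omega)

lemma lift_biLoc (κ₀ : I) (hθ0 : θ 0 = 1) (hθ : ∀ m n, θ (θ n m) = θ m) :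
    BiLoc (C.lift κ₀ θ hθ0 hθ) :=
  ⟨liftFun_locU κ₀ hθ0 hθ, liftFun_locU κ₀ (inv'_zero hθ0) (inv'_compat hθ)⟩

/-- The operation on normalized sequences. -/
lemma lift_nrm (κ₀ : I) (hθ0 : θ 0 = 1) (hθ : ∀ m n, θ (θ n m) = θ m) {c : ℤ → A} {s : ℤ}
    (h : C.Led c s) : C.lift κ₀ θ hθ0 hθ (κ₀, C.nrm c) = (κ₀, C.nrm (C.T θ c)) := by
  change C.liftFun κ₀ θ (κ₀, C.nrm c) = _
  rw [liftFun, if_pos ⟨rfl, h.inD⟩]
  simp only
  rw [h.nrm_T hθ0 hθ]

end homeo

end BlockCode

end Pool.Agent.Lib.MP_e5892f_al
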