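import Mathlib
import Pool.Agent.Lib.MP_e5892f_al.Lift

/-!
# Sequences of blocks
-/

namespace Pool.Agent.Lib.MP_e5892f_al

open Set Filter Topology

namespace BlockCode

variable {M A I : Type*} [Zero M] (C : BlockCode M A)

/-- The concatenation of the blocks of a bi-infinite sequence. -/
def flatZ (mm : ℤ → M) (i : ℤ) : A := C.B (mm (i / C.b)) (i % C.b).toNat

/-- The bi-infinite sequence in `M` starts with a nonzero term at `n₀`. -/
def LedM (mm : ℤ → M) (n₀ : ℤ) : Prop := (∀ n < n₀, mm n = 0) ∧ mm n₀ ≠ 0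

/-- The point of `I × A^ℕ` given by a led sequence in `M`. -/
noncomputable def J (κ₀ : I) (mm : ℤ → M) : I × (ℕ → A) := (κ₀, C.nrm (C.flatZ mm))

variable {C}

lemma flatZ_mul_add (mm : ℤ → M) (n : ℤ) (i : ℕ) (hi : i < C.b) :
    C.flatZ mm (n * C.b + i) = C.B (mm n) i := by
  have hb := C.hb
  rw [flatZ]
  have h1 : (n * C.b + i) / (C.b : ℤ) = n := by
    rw [add_comm, Int.add_mul_ediv_right _ _ (by omega), Int.ediv_eq_zero_of_lt (by omega)
      (by omega), zero_add]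
  have h2 : (n * C.b + i) % (C.b : ℤ) = i := by
    rw [add_comm, Int.add_mul_emod_self_right, Int.emod_eq_of_lt (by omega) (by omega)]
  rw [h1, h2, Int.toNat_natCast]

lemma blk_flatZ (mm : ℤ → M) (n : ℤ) : C.Blk (C.flatZ mm) (n * C.b) (mm n) :=
  fun i hi => flatZ_mul_add mm n i hi

/-- Nonzero blocks are aligned. -/
lemma blk_flatZ_aligned {mm : ℤ → M} {q : ℤ} {m : M} (h : C.Blk (C.flatZ mm) q m) (hm : m ≠ 0) :
    ∃ n, q = n * C.b ∧ mm n = m := by
  have hb := C.hb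
  set n := q / (C.b : ℤ) with hn
  have h1 : n * C.b ≤ q := Int.ediv_mul_le q (by omega)
  have h2 : q < (n + 1) * C.b := Int.lt_ediv_add_one_mul_self q (by omega)
  have h2' : q < n * C.b + C.b := by linarith [add_mul n 1 (C.b : ℤ)]
  rcases eq_or_lt_of_le h1 with h3 | h3
  · refine ⟨n, h3.symm, ?_⟩
    have h4 := blk_flatZ (C := C) mm n
    rw [h3] at h4
    exact h4.unique h
  · exfalso
    by_cases h4 : mm n = 0
    · have h5 := blk_flatZ (C := C) mm (n + 1)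
      have h6 : (n + 1) * (C.b : ℤ) = n * C.b + C.b := by ring
      rw [h6] at h5
      exact h.no_overlap h5 hm h2' (by omega)
    · exact (blk_flatZ (C := C) mm n).no_overlap h h4 h3 h2'

variable {θ : M → Equiv.Perm M}

lemma T_flatZ (hθ0 : θ 0 = 1) (mm : ℤ → M) :
    C.T θ (C.flatZ mm) = C.flatZ (fun n => θ (mm (n + 1)) (mm n)) := by
  have hb := C.hb
  funext q
  set n := q / (C.b : ℤ) with hn
  have h1 : n * C.b ≤ q := Int.ediv_mul_le q (by omega)
  have h2 : q < (n + 1) * C.b := Int.lt_ediv_add_one_mul_self q (by omega)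
  have h2' : q < n * C.b + C.b := by linarith [add_mul n 1 (C.b : ℤ)]
  obtain ⟨i, hi⟩ : ∃ i : ℕ, q = n * C.b + i := ⟨(q - n * C.b).toNat, by omega⟩
  have hib : i < C.b := by omega
  have e1 : C.flatZ (fun n => θ (mm (n + 1)) (mm n)) q = C.B (θ (mm (n + 1)) (mm n)) i := by
    rw [hi]
    exact flatZ_mul_add _ n i hib
  rw [e1]
  by_cases hθ1 : θ (mm (n + 1)) = 1
  · rw [T_not, hθ1, hi]
    · exact flatZ_mul_add _ n i hib
    · intro p m' m hp
      obtain ⟨k, hk, hk'⟩ := blk_flatZ_aligned hp.2.1 (hp.ne_zero hθ0)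
      have hkn : k ≠ n + 1 := by
        rintro rfl
        rw [hk'] at hθ1
        exact hp.2.2 hθ1
      have h6 : (n + 1) * (C.b : ℤ) = n * C.b + C.b := by ring
      rcases lt_or_gt_of_ne hkn with h7 | h7
      · right
        have : k * (C.b : ℤ) ≤ n * C.b := mul_le_mul_of_nonneg_right (by omega) (by omega)
        omega
      · left
        have : (n + 2) * (C.b : ℤ) ≤ k * C.b := mul_le_mul_of_nonneg_right (by omega) (by omega)
        have h8 : (n + 2) * (C.b : ℤ) = n * C.b + C.b + C.b := by ring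
        omega
  · have hact : C.Act θ (C.flatZ mm) (n * C.b) (mm n) (mm (n + 1)) := by
      refine ⟨blk_flatZ mm n, ?_, hθ1⟩
      have h6 : (n + 1) * (C.b : ℤ) = n * C.b + C.b := by ring
      rw [← h6]
      exact blk_flatZ mm (n + 1)
    rw [hi]
    exact T_act hθ0 hact i hib

lemma LedM.led {mm : ℤ → M} {n₀ : ℤ} (h : LedM mm n₀) : C.Led (C.flatZ mm) (n₀ * C.b) := by
  have hb := C.hb
  refine ⟨fun q hq => ?_, mm n₀, h.2, blk_flatZ mm n₀⟩
  have h3 : q / (C.b : ℤ) < n₀ := Int.ediv_lt_of_lt_mul (by omega) hq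
  rw [flatZ, h.1 _ h3, C.B_zero]

lemma flatZ_shift (mm : ℤ → M) (k : ℤ) :
    C.flatZ (fun n => mm (n + k)) = fun i => C.flatZ mm (i + k * C.b) := by
  have hb := C.hb
  funext i
  simp only [flatZ]
  rw [Int.add_mul_ediv_right _ _ (by omega), Int.add_mul_emod_self_right]

lemma LedM.J_shift (κ₀ : I) {mm : ℤ → M} {n₀ : ℤ} (h : LedM mm n₀) (k : ℤ) :
    C.J κ₀ (fun n => mm (n + k)) = C.J κ₀ mm := by
  rw [J, J, flatZ_shift, h.led.nrm_shift]

/-- The letters of `J mm`. -/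
lemma LedM.J_apply (κ₀ : I) {mm : ℤ → M} {n₀ : ℤ} (h : LedM mm n₀) (n : ℕ) (i : ℕ)
    (hi : i < C.b) : (C.J κ₀ mm).2 (n * C.b + i) = C.B (mm (n₀ + n)) i := by
  rw [J]
  simp only
  rw [h.led.nrm_apply, ← flatZ_mul_add mm (n₀ + n) i hi]
  congr 1
  push_cast
  ring

section homeo

variable [TopologicalSpace I] [DiscreteTopology I] [TopologicalSpace A] [DiscreteTopology A]

lemma lift_J (κ₀ : I) (hθ0 : θ 0 = 1) (hθ : ∀ m n, θ (θ n m) = θ m) {mm : ℤ → M} {n₀ : ℤ}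
    (h : LedM mm n₀) :
    C.lift κ₀ θ hθ0 hθ (C.J κ₀ mm) = C.J κ₀ (fun n => θ (mm (n + 1)) (mm n)) := by
  rw [J, lift_nrm κ₀ hθ0 hθ h.led, T_flatZ hθ0, J]

/-- Convergence. -/
lemma LedM.tendsto_J (κ₀ : I) {mm : ℤ → M} {n₀ : ℤ} (h : LedM mm n₀) {α : Type*}
    {F : Filter α} {f : α → ℤ → M} (hf : ∀ i : ℤ, ∀ᶠ a in F, ∀ j ≤ i, f a j = mm j) :
    Tendsto (fun a => C.J κ₀ (f a)) F (𝓝 (C.J κ₀ mm)) := by
  have hb := C.hb
  rw [tendsto_iff_agr]
  intro n
  filter_upwards [hf (n₀ + 1 + n)] with a ha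
  have e : ∀ i : ℤ, i < n₀ * C.b + C.b + n → C.flatZ mm i = C.flatZ (f a) i := by
    intro i hi
    rw [flatZ, flatZ, ha]
    have h1 : i / (C.b : ℤ) < n₀ + 1 + n + 1 := by
      apply Int.ediv_lt_of_lt_mul (by omega)
      have h2 : (n₀ + 1 + n + 1) * (C.b : ℤ) = n₀ * C.b + C.b + n * C.b + C.b := by ring
      have h3 : (n : ℤ) * 1 ≤ n * C.b := mul_le_mul_of_nonneg_left (by omega) (by omega)
      omega
    omega
  have h2 : C.Led (C.flatZ (f a)) (n₀ * C.b) := h.led.congr fun i hi => e i (by omega)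
  refine ⟨rfl, fun i hi => ?_⟩
  rw [J, J]
  simp only
  rw [h.led.nrm_apply, h2.nrm_apply]
  exact e _ (by omega)

end homeo

variable (C)

/-- The closed set of all points given by led sequences. -/
def InY (κ₀ : I) (p : I × (ℕ → A)) : Prop :=
  p.1 = κ₀ ∧ ∀ n : ℕ, ∃ m : M, (n = 0 → m ≠ 0) ∧ ∀ i < C.b, p.2 (n * C.b + i) = C.B m i

variable {C}

lemma LedM.inY (κ₀ : I) {mm : ℤ → M} {n₀ : ℤ} (h : LedM mm n₀) : C.InY κ₀ (C.J κ₀ mm) := by
  refine ⟨rfl, fun n => ⟨mm (n₀ + n), ?_, fun i hi => h.J_apply κ₀ n i hi⟩⟩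
  rintro rfl
  simpa using h.2

lemma InY.exists_J (κ₀ : I) {p : I × (ℕ → A)} (h : C.InY κ₀ p) :
    ∃ mm : ℤ → M, LedM mm 0 ∧ p = C.J κ₀ mm := by
  have hb := C.hb
  obtain ⟨h1, h2⟩ := h
  choose f hf0 hf using h2
  set mm : ℤ → M := fun n => if 0 ≤ n then f n.toNat else 0 with hmm
  have hled : LedM mm 0 := by
    refine ⟨fun n hn => ?_, ?_⟩
    · rw [hmm]
      simp only
      rw [if_neg (by omega)]
    · rw [hmm]
      simp only
      rw [if_pos (le_refl _)]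
      exact hf0 _ rfl
  refine ⟨mm, hled, ?_⟩
  apply Prod.ext
  · exact h1
  · funext k
    have hk : k = k / C.b * C.b + k % C.b := (Nat.div_add_mod' k C.b).symm
    rw [hk, hf _ _ (Nat.mod_lt _ (by omega)), hled.J_apply κ₀ _ _ (Nat.mod_lt _ (by omega))]
    rw [hmm]
    simp only [zero_add]
    rw [if_pos (Int.natCast_nonneg _), Int.toNat_natCast]

/-- The complement of `Y` is open. -/
lemma not_inY_agr (κ₀ : I) {p : I × (ℕ → A)} (h : ¬ C.InY κ₀ p) :
    ∃ N, ∀ q, Agr N p q → ¬ C.InY κ₀ q := by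
  by_cases h1 : p.1 = κ₀
  · have h2 : ∃ n : ℕ, ¬ ∃ m : M, (n = 0 → m ≠ 0) ∧ ∀ i < C.b, p.2 (n * C.b + i) = C.B m i := by
      by_contra hcon
      push Not at hcon
      exact h ⟨h1, hcon⟩
    obtain ⟨n, hn⟩ := h2
    refine ⟨n * C.b + C.b, fun q hq hY => hn ?_⟩
    obtain ⟨m, hm0, hm⟩ := hY.2 n
    exact ⟨m, hm0, fun i hi => by rw [hq.2 _ (by omega), hm i hi]⟩
  · exact ⟨0, fun q hq hY => h1 (hq.1.trans hY.1)⟩

end BlockCode

end Pool.Agent.Lib.MP_e5892f_al
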