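import Mathlib

/-!
# Two by two matrices over Laurent series in characteristic three
-/

namespace Pool.Agent.Lib.MP_e5892f_al

open Set Filter Topology HahnSeries

/-- The field with three elements. -/
abbrev F3 : Type := ZMod 3

/-- Laurent series. -/
abbrev K : Type := LaurentSeries (ZMod 3)

instance : Fact (Nat.Prime 3) := ⟨Nat.prime_three⟩

/-- The inverse of the variable. -/
noncomputable def TT : K := HahnSeries.single (-1 : ℤ) (1 : ZMod 3)

/-- The powers of the variable. -/
noncomputable def tp (k : ℤ) : K := HahnSeries.single k (1 : ZMod 3)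

lemma coeff_TT_mul (x : K) (n : ℤ) : (TT * x).coeff n = x.coeff (n + 1) := by
  rw [TT, coeff_single_mul, one_mul, sub_neg_eq_add]

lemma coeff_tp_mul (k : ℤ) (x : K) (n : ℤ) : (tp k * x).coeff n = x.coeff (n - k) := by
  rw [tp, coeff_single_mul, one_mul]

lemma tp_neg_one : tp (-1) = TT := rfl

lemma tp_mul_tp (k l : ℤ) : tp k * tp l = tp (k + l) := by
  rw [tp, tp, tp, single_mul_single, one_mul]

lemma tp_zero : tp 0 = 1 := rfl

lemma TT_pow (n : ℕ) : TT ^ n = tp (-n) := by
  induction n with
  | zero => rw [pow_zero, Nat.cast_zero, neg_zero, tp_zero]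
  | succ n ih =>
    rw [pow_succ, ih, ← tp_neg_one, tp_mul_tp]
    congr 1
    push_cast
    ring

/-- Positive order is preserved by multiplication with large powers. -/
lemma eventually_pow_mul_coeff (x y : K) (hx : 0 < x.orderTop) (i : ℤ) :
    ∀ᶠ n : ℕ in atTop, ∀ j ≤ i, (x ^ n * y).coeff j = 0 := by
  by_cases hy : y = 0
  · refine Filter.Eventually.of_forall fun n j _ => ?_
    rw [hy, mul_zero, coeff_zero]
  by_cases hx0 : x = 0
  · filter_upwards [eventually_gt_atTop 0] with n hn j _
    rw [hx0, zero_pow (by omega), zero_mul, coeff_zero]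
  have h1 : 0 < x.order := by
    rw [← order_eq_orderTop_of_ne_zero hx0] at hx
    exact_mod_cast hx
  filter_upwards [eventually_gt_atTop (i - y.order).toNat] with n hn j hj
  apply coeff_eq_zero_of_lt_order
  rw [HahnSeries.order_mul (pow_ne_zero _ hx0) hy, HahnSeries.order_pow]
  have h2 : (n : ℤ) * 1 ≤ n * x.order := mul_le_mul_of_nonneg_left (by omega) (by omega)
  rw [nsmul_eq_mul]
  omega

lemma eventually_tp_mul_coeff (y : K) (i : ℤ) :
    ∀ᶠ n : ℕ in atTop, ∀ j ≤ i, (tp n * y).coeff j = 0 := by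
  filter_upwards [eventually_gt_atTop (i - y.order).toNat] with n hn j hj
  rw [coeff_tp_mul]
  apply coeff_eq_zero_of_lt_order
  omega

lemma orderTop_inv_pos {τ : K} (hτ : τ.orderTop < 0) : 0 < (τ⁻¹).orderTop := by
  have h0 : τ ≠ 0 := by
    rintro rfl
    rw [orderTop_zero] at hτ
    exact absurd hτ (by simp)
  have h1 : τ.orderTop + (τ⁻¹).orderTop = 0 := by
    rw [← orderTop_mul, mul_inv_cancel₀ h0, orderTop_one]
  by_contra hcon
  push Not at hcon
  have h2 : τ.orderTop + (τ⁻¹).orderTop ≤ τ.orderTop + 0 := by gcongr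
  rw [h1, add_zero] at h2
  exact absurd hτ (not_lt.mpr h2)

/-- The quadratic equation has a solution. -/
lemma exists_root {τ : K} (hτ : τ.orderTop < 0) :
    ∃ l : K, l ≠ 0 ∧ l + l⁻¹ = τ ∧ l.orderTop < 0 := by
  have h0 : τ ≠ 0 := by
    rintro rfl
    rw [orderTop_zero] at hτ
    exact absurd hτ (by simp)
  set z : K := τ⁻¹ ^ 2 with hz
  have hz0 : 0 < z.orderTop := by
    rw [hz, pow_two, orderTop_mul]
    exact lt_of_lt_of_le (orderTop_inv_pos hτ)
      (le_add_of_nonneg_left (orderTop_inv_pos hτ).le)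
  set P : PowerSeries (ZMod 3) := PowerSeries.catalanSeries.map (Nat.castRingHom (ZMod 3))
    with hP
  have hcat : P ^ 2 * PowerSeries.X + 1 = P := by
    have := congrArg (PowerSeries.map (Nat.castRingHom (ZMod 3)))
      PowerSeries.catalanSeries_sq_mul_X_add_one
    simpa using this
  set c : K := PowerSeries.heval z P with hc
  have hc1 : c ^ 2 * z + 1 = c := by
    have := congrArg (PowerSeries.heval z) hcat
    rw [map_add, map_mul, map_pow, map_one, PowerSeries.heval_X _ hz0] at this
    exact this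
  have hzτ : τ ^ 2 * z = 1 := by
    rw [hz]
    field_simp
  set l : K := τ * (1 - z * c) with hl
  have hl1 : l ^ 2 - τ * l + 1 = 0 := by
    have e : l ^ 2 - τ * l + 1 = (τ ^ 2 * z) * (z * c ^ 2 - c) + 1 := by
      rw [hl]; ring
    rw [e, hzτ]
    linear_combination hc1
  have hl0 : l ≠ 0 := by
    intro h
    rw [h] at hl1
    simp at hl1
  have hl2 : l + l⁻¹ = τ := by
    field_simp
    linear_combination hl1
  by_cases hneg : l.orderTop < 0
  · exact ⟨l, hl0, hl2, hneg⟩
  · refine ⟨l⁻¹, inv_ne_zero hl0, by rw [inv_inv, add_comm]; exact hl2, ?_⟩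
    by_contra hcon
    push Not at hneg hcon
    have h3 : min l.orderTop (l⁻¹).orderTop ≤ (l + l⁻¹).orderTop := min_orderTop_le_orderTop_add
    rw [hl2] at h3
    exact absurd hτ (not_lt.mpr ((le_min hneg hcon).trans h3))

end Pool.Agent.Lib.MP_e5892f_al
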