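import Mathlib
import Pool.Agent.Lib.MP_e5892f_al.Laurent
import Pool.Agent.Lib.MP_e5892f_al.GroupLemma

/-!
# The group generated by two unipotent subgroups
-/

namespace Pool.Agent.Lib.MP_e5892f_al

open Set Filter Topology HahnSeries Matrix

/-- Two by two matrices of determinant one. -/
abbrev SL : Type := Matrix.SpecialLinearGroup (Fin 2) K

/-- Upper unipotent matrices. -/
noncomputable def uM (ε : F3) : SL :=
  ⟨!![1, ε • TT; 0, 1], by simp [Matrix.det_fin_two]⟩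

/-- Lower unipotent matrices. -/
noncomputable def vM (ε : F3) : SL :=
  ⟨!![1, 0; ε • TT, 1], by simp [Matrix.det_fin_two]⟩

lemma uM_mul (ε ε' : F3) : uM ε * uM ε' = uM (ε + ε') := by
  apply Subtype.ext
  ext i j
  fin_cases i <;> fin_cases j <;>
    simp [uM, Matrix.mul_apply, Fin.sum_univ_two, add_smul, add_comm]

lemma vM_mul (ε ε' : F3) : vM ε * vM ε' = vM (ε + ε') := by
  apply Subtype.ext
  ext i j
  fin_cases i <;> fin_cases j <;>
    simp [vM, Matrix.mul_apply, Fin.sum_univ_two, add_smul]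

lemma uM_zero : uM 0 = 1 := by
  apply Subtype.ext
  ext i j
  fin_cases i <;> fin_cases j <;> simp [uM]

lemma vM_zero : vM 0 = 1 := by
  apply Subtype.ext
  ext i j
  fin_cases i <;> fin_cases j <;> simp [vM]

/-- The upper unipotent subgroup. -/
noncomputable def uHom : Multiplicative F3 →* SL where
  toFun ε := uM ε.toAdd
  map_one' := uM_zero
  map_mul' _ _ := (uM_mul _ _).symm

/-- The lower unipotent subgroup. -/
noncomputable def vHom : Multiplicative F3 →* SL where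
  toFun ε := vM ε.toAdd
  map_one' := vM_zero
  map_mul' _ _ := (vM_mul _ _).symm

lemma mem_uRange {γ : SL} : γ ∈ uHom.range ↔ ∃ ε, γ = uM ε := by
  constructor
  · rintro ⟨x, rfl⟩
    exact ⟨x.toAdd, rfl⟩
  · rintro ⟨ε, rfl⟩
    exact ⟨Multiplicative.ofAdd ε, rfl⟩

lemma mem_vRange {γ : SL} : γ ∈ vHom.range ↔ ∃ ε, γ = vM ε := by
  constructor
  · rintro ⟨x, rfl⟩
    exact ⟨x.toAdd, rfl⟩
  · rintro ⟨ε, rfl⟩
    exact ⟨Multiplicative.ofAdd ε, rfl⟩

/-- The property of the entries of alternating products. -/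
structure Good (l : ℕ) (W : Matrix (Fin 2) (Fin 2) K) : Prop where
  a0 : (W 0 0).coeff (-(2 * l)) ≠ 0
  a : ∀ i < -(2 * l : ℤ), (W 0 0).coeff i = 0
  b : ∀ i < -(2 * l : ℤ) + 1, (W 0 1).coeff i = 0
  c : ∀ i < -(2 * l : ℤ) + 1, (W 1 0).coeff i = 0
  d : ∀ i < -(2 * l : ℤ) + 2, (W 1 1).coeff i = 0

lemma pair_mul (ε ε' : F3) (W : Matrix (Fin 2) (Fin 2) K) :
    ((uM ε * vM ε' : SL).1 * W) 0 0 =
      W 0 0 + (ε * ε') • (TT * (TT * W 0 0)) + ε • (TT * W 1 0) ∧
    ((uM ε * vM ε' : SL).1 * W) 0 1 =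
      W 0 1 + (ε * ε') • (TT * (TT * W 0 1)) + ε • (TT * W 1 1) ∧
    ((uM ε * vM ε' : SL).1 * W) 1 0 = ε' • (TT * W 0 0) + W 1 0 ∧
    ((uM ε * vM ε' : SL).1 * W) 1 1 = ε' • (TT * W 0 1) + W 1 1 := by
  have h : (uM ε * vM ε' : SL).1 = !![1 + (ε * ε') • (TT * TT), ε • TT; ε' • TT, 1] := by
    have h0 : (uM ε * vM ε' : SL).1 = !![1, ε • TT; 0, 1] * !![1, 0; ε' • TT, 1] := rfl
    rw [h0, Matrix.mul_fin_two]
    simp [smul_mul_smul_comm]
  rw [h]
  refine ⟨?_, ?_, ?_, ?_⟩ <;>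
    simp [Matrix.mul_apply, Fin.sum_univ_two, add_mul, mul_assoc, smul_mul_assoc]

lemma Good.pair {l : ℕ} {W : Matrix (Fin 2) (Fin 2) K} (h : Good l W) {ε ε' : F3}
    (hε : ε ≠ 0) (hε' : ε' ≠ 0) : Good (l + 1) ((uM ε * vM ε' : SL).1 * W) := by
  obtain ⟨h1, h2, h3, h4⟩ := pair_mul ε ε' W
  refine ⟨?_, ?_, ?_, ?_, ?_⟩
  · rw [h1]
    simp only [coeff_add, coeff_smul, coeff_TT_mul, smul_eq_mul]
    rw [h.a _ (by push_cast; omega), h.c _ (by push_cast; omega)]
    have e : (-(2 * ((l + 1 : ℕ) : ℤ)) + 1 + 1 : ℤ) = -(2 * l) := by push_cast; ring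
    rw [e]
    simp only [zero_add, mul_zero, add_zero]
    exact mul_ne_zero (mul_ne_zero hε hε') h.a0
  · intro i hi
    push_cast at hi
    rw [h1]
    simp only [coeff_add, coeff_smul, coeff_TT_mul, smul_eq_mul]
    rw [h.a _ (by omega), h.c _ (by omega), h.a _ (by omega)]
    simp
  · intro i hi
    push_cast at hi
    rw [h2]
    simp only [coeff_add, coeff_smul, coeff_TT_mul, smul_eq_mul]
    rw [h.b _ (by omega), h.d _ (by omega), h.b _ (by omega)]
    simp
  · intro i hi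
    push_cast at hi
    rw [h3]
    simp only [coeff_add, coeff_smul, coeff_TT_mul, smul_eq_mul]
    rw [h.a _ (by omega), h.c _ (by omega)]
    simp
  · intro i hi
    push_cast at hi
    rw [h4]
    simp only [coeff_add, coeff_smul, coeff_TT_mul, smul_eq_mul]
    rw [h.b _ (by omega), h.d _ (by omega)]
    simp

lemma good_one {ε ε' : F3} (hε : ε ≠ 0) (hε' : ε' ≠ 0) :
    Good 1 ((uM ε * vM ε' : SL).1 * 1) := by
  obtain ⟨h1, h2, h3, h4⟩ := pair_mul ε ε' 1
  refine ⟨?_, ?_, ?_, ?_, ?_⟩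
  · rw [h1]
    simp only [coeff_add, coeff_smul, coeff_TT_mul, smul_eq_mul]
    simp [hε, hε']
  · intro i hi
    push_cast at hi
    rw [h1]
    simp only [coeff_add, coeff_smul, coeff_TT_mul, smul_eq_mul]
    have e1 : i ≠ 0 := by omega
    have e2 : i + 1 + 1 ≠ 0 := by omega
    simp [e1, e2, coeff_one]
  · intro i hi
    push_cast at hi
    rw [h2]
    simp only [coeff_add, coeff_smul, coeff_TT_mul, smul_eq_mul]
    have e1 : i + 1 ≠ 0 := by omega
    simp [e1, coeff_one]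
  · intro i hi
    push_cast at hi
    rw [h3]
    simp only [coeff_add, coeff_smul, coeff_TT_mul, smul_eq_mul]
    have e1 : i + 1 ≠ 0 := by omega
    simp [e1, coeff_one]
  · intro i hi
    push_cast at hi
    rw [h4]
    simp only [coeff_add, coeff_smul, coeff_TT_mul, smul_eq_mul]
    have e1 : i ≠ 0 := by omega
    simp [e1, coeff_one]

lemma good_altProd (p : SL × SL) (l : List (SL × SL)) (h : IsAlt uHom.range vHom.range (p :: l)) :
    ∃ n : ℕ, 0 < n ∧ Good n (altProd (p :: l)).1 := by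
  induction l generalizing p with
  | nil =>
    rw [isAlt_cons, mem_uRange, mem_vRange] at h
    obtain ⟨⟨⟨ε, h1⟩, h2, ⟨ε', h3⟩, h4⟩, -⟩ := h
    refine ⟨1, one_pos, ?_⟩
    have hε : ε ≠ 0 := by
      rintro rfl
      exact h2 (h1.trans uM_zero)
    have hε' : ε' ≠ 0 := by
      rintro rfl
      exact h4 (h3.trans vM_zero)
    rw [altProd_cons, altProd_nil, h1, h3]
    exact good_one hε hε'
  | cons q l ih =>
    rw [isAlt_cons, mem_uRange, mem_vRange] at h
    obtain ⟨⟨⟨ε, h1⟩, h2, ⟨ε', h3⟩, h4⟩, h5⟩ := h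
    obtain ⟨n, hn, hg⟩ := ih q h5
    refine ⟨n + 1, by omega, ?_⟩
    have hε : ε ≠ 0 := by
      rintro rfl
      exact h2 (h1.trans uM_zero)
    have hε' : ε' ≠ 0 := by
      rintro rfl
      exact h4 (h3.trans vM_zero)
    rw [altProd_cons, h1, h3]
    exact hg.pair hε hε'

/-- Classification of the elements of the group. -/
theorem torsion_or_trace (γ : SL) (hγ : γ ∈ uHom.range ⊔ vHom.range) :
    (∃ n : ℕ, γ ^ (n + 1) = 1) ∨ (γ.1.trace).orderTop < 0 := by
  have hpow : ∀ x : Multiplicative F3, x ^ 3 = 1 := by decide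
  apply conj_induction uHom.range vHom.range
    (fun γ => (∃ n : ℕ, γ ^ (n + 1) = 1) ∨ (γ.1.trace).orderTop < 0) _ _ _ _ γ hγ
  · rintro _ ⟨x, rfl⟩
    left
    exact ⟨2, by rw [← map_pow, hpow, map_one]⟩
  · rintro _ ⟨x, rfl⟩
    left
    exact ⟨2, by rw [← map_pow, hpow, map_one]⟩
  · intro p l h
    right
    obtain ⟨n, hn, hg⟩ := good_altProd p l h
    have h1 : ((altProd (p :: l)).1.trace).coeff (-(2 * n)) ≠ 0 := by
      rw [Matrix.trace_fin_two, coeff_add, hg.d _ (by omega), add_zero]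
      exact hg.a0
    refine lt_of_le_of_lt (orderTop_le_of_coeff_ne_zero h1) ?_
    have : (-(2 * n : ℤ)) < 0 := by omega
    exact_mod_cast this
  · rintro g - k - (⟨n, hn⟩ | h)
    · left
      refine ⟨n, ?_⟩
      rw [conj_pow, hn, mul_one, mul_inv_cancel]
    · right
      have : (k * g * k⁻¹ : SL).1.trace = g.1.trace := by
        change (k.1 * g.1 * (k⁻¹ : SL).1).trace = _
        rw [Matrix.trace_mul_comm, ← Matrix.mul_assoc]
        have e : (k⁻¹ : SL).1 * k.1 = 1 := by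
          have : (k⁻¹ * k : SL).1 = 1 := by rw [inv_mul_cancel]; rfl
          exact this
        rw [e, Matrix.one_mul]
      rw [this]
      exact h

/-- The data of a hyperbolic matrix. -/
theorem hyperbolic (γ : SL) (h : (γ.1.trace).orderTop < 0) :
    ∃ l : K, l ≠ 0 ∧ 0 < (l⁻¹).orderTop ∧ (∃ e : Fin 2 → K, e ≠ 0 ∧ γ.1 *ᵥ e = l • e) ∧
      (∃ e : Fin 2 → K, e ≠ 0 ∧ (γ⁻¹ : SL).1 *ᵥ e = l • e) ∧
      ∀ c : Fin 2 → K, ∃ v : Fin 2 → K, γ.1 *ᵥ v + c = v := by
  obtain ⟨l, hl0, hl1, hl2⟩ := exists_root h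
  have hdet : γ.1.det = 1 := γ.2
  have hquad : l ^ 2 - γ.1.trace * l + 1 = 0 := by
    rw [← hl1]; field_simp; ring
  have key : ∀ δ : SL, δ.1.trace = γ.1.trace → ∃ e : Fin 2 → K, e ≠ 0 ∧ δ.1 *ᵥ e = l • e := by
    intro δ hδ
    have hd : δ.1.det = 1 := δ.2
    have h1 : (δ.1 - l • (1 : Matrix (Fin 2) (Fin 2) K)).det = 0 := by
      rw [Matrix.det_fin_two] at hd ⊢
      rw [← hδ, Matrix.trace_fin_two] at hquad
      simp only [Matrix.sub_apply, Matrix.smul_apply, Matrix.one_apply_eq, smul_eq_mul, mul_one]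
      rw [Matrix.one_apply_ne (by decide), Matrix.one_apply_ne (by decide)]
      linear_combination hquad + hd
    obtain ⟨e, he, he'⟩ := Matrix.exists_mulVec_eq_zero_iff.mpr h1
    refine ⟨e, he, ?_⟩
    rw [Matrix.sub_mulVec, Matrix.smul_mulVec, Matrix.one_mulVec, sub_eq_zero] at he'
    exact he'
  refine ⟨l, hl0, orderTop_inv_pos hl2, key γ rfl, key γ⁻¹ ?_, ?_⟩
  · rw [Matrix.SpecialLinearGroup.coe_inv, Matrix.adjugate_fin_two, Matrix.trace_fin_two,
      Matrix.trace_fin_two]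
    simp [add_comm]
  · have h2 : (1 - γ.1).det ≠ 0 := by
      intro h3
      rw [Matrix.det_fin_two] at h3 hdet
      simp only [Matrix.sub_apply, Matrix.one_apply_eq] at h3
      rw [Matrix.one_apply_ne (by decide), Matrix.one_apply_ne (by decide)] at h3
      have h4 : γ.1.trace = 1 + 1 := by
        rw [Matrix.trace_fin_two]
        linear_combination (-1) * h3 + hdet
      rw [h4] at h
      have h5 : min (1 : K).orderTop (1 : K).orderTop ≤ (1 + 1 : K).orderTop :=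
        min_orderTop_le_orderTop_add
      rw [orderTop_one, min_self] at h5
      exact absurd h (not_lt.mpr h5)
    have h3 : IsUnit (1 - γ.1) := (Matrix.isUnit_iff_isUnit_det _).mpr (isUnit_iff_ne_zero.mpr h2)
    intro c
    obtain ⟨v, hv⟩ := (Matrix.mulVec_surjective_iff_isUnit.mpr h3) c
    refine ⟨v, ?_⟩
    rw [Matrix.sub_mulVec, Matrix.one_mulVec] at hv
    rw [← hv]
    abel

end Pool.Agent.Lib.MP_e5892f_al
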