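import Mathlib
import Pool.Agent.Lib.MP_e5892f_al.Macro
import Pool.Agent.Lib.MP_e5892f_al.SL2
import Pool.Agent.Lib.MP_e5892f_al.PingPong

/-!
# Vectors of Laurent series as points of `I × A^ℕ`
-/

namespace Pool.Agent.Lib.MP_e5892f_al

open Set Filter Topology HahnSeries Matrix

/-- Triples. -/
abbrev M3 : Type := F3 × F3 × F3

/-- The sequence of coefficients. -/
noncomputable def code (v : Fin 2 → K) (s : K) (n : ℤ) : M3 :=
  ((v 0).coeff n, (v 1).coeff n, s.coeff n)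

open BlockCode

lemma exists_ledM {v : Fin 2 → K} {s : K} (h : ¬ (v = 0 ∧ s = 0)) :
    ∃ n₀, LedM (code v s) n₀ := by
  have hex : ∃ n, code v s n ≠ 0 := by
    by_contra hcon
    push Not at hcon
    apply h
    refine ⟨?_, ?_⟩
    · funext i
      ext n
      have := hcon n
      simp only [code, Prod.mk_eq_zero] at this
      fin_cases i
      · simpa using this.1
      · simpa using this.2.1
    · ext n
      have := hcon n
      simp only [code, Prod.mk_eq_zero] at this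
      simpa using this.2.2
  have hbdd : ∃ b, ∀ n, code v s n ≠ 0 → b ≤ n := by
    refine ⟨min (v 0).order (min (v 1).order s.order), fun n hn => ?_⟩
    by_contra hcon
    push Not at hcon
    apply hn
    simp only [code, Prod.mk_eq_zero]
    refine ⟨coeff_eq_zero_of_lt_order ?_, coeff_eq_zero_of_lt_order ?_,
      coeff_eq_zero_of_lt_order ?_⟩ <;> omega
  obtain ⟨n₀, h1, h2⟩ := Int.exists_least_of_bdd hbdd hex
  refine ⟨n₀, fun n hn => ?_, h1⟩
  by_contra hcon
  have := h2 n hcon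
  omega

section

variable {A I : Type*} (C : BlockCode M3 A) (κ₀ : I)

/-- The point given by a vector. -/
noncomputable def Phi (v : Fin 2 → K) (s : K) : I × (ℕ → A) := C.J κ₀ (code v s)

/-- The control map given by an additive map. -/
def addθ (φ : M3 →+ M3) (m : M3) : Equiv.Perm M3 := Equiv.addRight (φ m)

lemma addθ_zero (φ : M3 →+ M3) : addθ φ 0 = 1 := by
  ext1 x
  change x + φ 0 = x
  rw [map_zero, add_zero]

lemma addθ_compat {φ : M3 →+ M3} (hφ : ∀ m, φ (φ m) = 0) (m n : M3) :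
    addθ φ (addθ φ n m) = addθ φ m := by
  ext1 x
  change x + φ (m + φ n) = x + φ m
  rw [map_add, hφ, add_zero]

/-- The control map of the upper unipotent matrices. -/
def phiU (ε : F3) : M3 →+ M3 where
  toFun m := (ε * m.2.1, 0, 0)
  map_zero' := by simp
  map_add' a b := by ext <;> simp [mul_add]

/-- The control map of the lower unipotent matrices. -/
def phiV (ε : F3) : M3 →+ M3 where
  toFun m := (0, ε * m.1, 0)
  map_zero' := by simp
  map_add' a b := by ext <;> simp [mul_add]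

/-- The control map of the translation. -/
def phiS : M3 →+ M3 where
  toFun m := (m.2.2, 0, 0)
  map_zero' := by simp
  map_add' a b := by ext <;> simp

lemma phiU_sq (ε : F3) (m : M3) : phiU ε (phiU ε m) = 0 := by
  simp [phiU]

lemma phiV_sq (ε : F3) (m : M3) : phiV ε (phiV ε m) = 0 := by
  simp [phiV]

lemma phiS_sq (m : M3) : phiS (phiS m) = 0 := by
  simp [phiS]

section acts

variable {C κ₀}

lemma Phi_shift {v : Fin 2 → K} {s : K} (h : ¬ (v = 0 ∧ s = 0)) (k : ℤ) :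
    Phi C κ₀ (tp k • v) (tp k * s) = Phi C κ₀ v s := by
  obtain ⟨n₀, hn⟩ := exists_ledM h
  rw [Phi, Phi, ← hn.J_shift κ₀ (-k)]
  congr 1
  funext n
  simp only [code, Pi.smul_apply, smul_eq_mul, coeff_tp_mul, sub_eq_add_neg]

/-- The homeomorphism acts as an affine map. -/
def Acts [TopologicalSpace I] [TopologicalSpace A] (C : BlockCode M3 A) (κ₀ : I)
    (g : (I × (ℕ → A)) ≃ₜ (I × (ℕ → A))) (γ : SL) (c : Fin 2 → K) : Prop :=
  ∀ (v : Fin 2 → K) (s : K), ¬ (v = 0 ∧ s = 0) →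
    g (Phi C κ₀ v s) = Phi C κ₀ (γ.1 *ᵥ v + s • c) s

lemma SL_inv_mul (γ : SL) : (γ⁻¹ : SL).1 * γ.1 = 1 := by
  have : (γ⁻¹ * γ : SL).1 = 1 := by rw [inv_mul_cancel]; rfl
  exact this

lemma SL_mul_inv (γ : SL) : γ.1 * (γ⁻¹ : SL).1 = 1 := by
  have : (γ * γ⁻¹ : SL).1 = 1 := by rw [mul_inv_cancel]; rfl
  exact this

lemma ne_zero_of_affine {γ : SL} {c v : Fin 2 → K} {s : K} (h : ¬ (v = 0 ∧ s = 0)) :
    ¬ (γ.1 *ᵥ v + s • c = 0 ∧ s = 0) := by
  rintro ⟨h1, rfl⟩
  rw [zero_smul, add_zero] at h1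
  apply h
  refine ⟨?_, rfl⟩
  have := congrArg (fun w => (γ⁻¹ : SL).1 *ᵥ w) h1
  simp only [Matrix.mulVec_mulVec, SL_inv_mul, Matrix.one_mulVec, Matrix.mulVec_zero] at this
  exact this

section topology

variable [TopologicalSpace I] [TopologicalSpace A]

lemma Acts.one : Acts C κ₀ 1 1 0 := by
  intro v s _
  simp

lemma Acts.mul {g h : (I × (ℕ → A)) ≃ₜ (I × (ℕ → A))} {γ δ : SL} {c d : Fin 2 → K}
    (hg : Acts C κ₀ g γ c) (hh : Acts C κ₀ h δ d) :
    Acts C κ₀ (g * h) (γ * δ) (γ.1 *ᵥ d + c) := by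
  intro v s hvs
  change g (h (Phi C κ₀ v s)) = _
  rw [hh v s hvs, hg _ s (ne_zero_of_affine hvs)]
  congr 1
  rw [Matrix.mulVec_add, Matrix.mulVec_mulVec, Matrix.mulVec_smul, smul_add, add_assoc]
  rfl

lemma Acts.inv {g : (I × (ℕ → A)) ≃ₜ (I × (ℕ → A))} {γ : SL} {c : Fin 2 → K}
    (hg : Acts C κ₀ g γ c) : Acts C κ₀ g⁻¹ γ⁻¹ (-((γ⁻¹ : SL).1 *ᵥ c)) := by
  intro v s hvs
  have h1 : ¬ ((γ⁻¹ : SL).1 *ᵥ v + s • (-((γ⁻¹ : SL).1 *ᵥ c)) = 0 ∧ s = 0) :=
    ne_zero_of_affine hvs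
  have h2 := hg _ s h1
  have h3 : γ.1 *ᵥ ((γ⁻¹ : SL).1 *ᵥ v + s • (-((γ⁻¹ : SL).1 *ᵥ c))) + s • c = v := by
    rw [Matrix.mulVec_add, Matrix.mulVec_mulVec, SL_mul_inv, Matrix.one_mulVec,
      Matrix.mulVec_smul, Matrix.mulVec_neg, Matrix.mulVec_mulVec, SL_mul_inv,
      Matrix.one_mulVec, smul_neg]
    abel
  rw [h3] at h2
  rw [← h2]
  exact g.symm_apply_apply _

/-- The elements of a group generated by homeomorphisms which act as affine maps. -/
lemma acts_of_closure {S : Set ((I × (ℕ → A)) ≃ₜ (I × (ℕ → A)))}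
    (hS : ∀ g ∈ S, ∃ γ ∈ uHom.range ⊔ vHom.range, ∃ c, Acts C κ₀ g γ c)
    {g : (I × (ℕ → A)) ≃ₜ (I × (ℕ → A))} (hg : g ∈ Subgroup.closure S) :
    ∃ γ ∈ uHom.range ⊔ vHom.range, ∃ c, Acts C κ₀ g γ c := by
  induction hg using Subgroup.closure_induction with
  | mem x hx => exact hS x hx
  | one => exact ⟨1, one_mem _, 0, Acts.one⟩
  | mul x y _ _ hx hy =>
    obtain ⟨γ, hγ, c, h1⟩ := hx
    obtain ⟨δ, hδ, d, h2⟩ := hy
    exact ⟨γ * δ, mul_mem hγ hδ, _, h1.mul h2⟩
  | inv x _ hx =>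
    obtain ⟨γ, hγ, c, h1⟩ := hx
    exact ⟨γ⁻¹, inv_mem hγ, _, h1.inv⟩

end topology

section discrete

variable [TopologicalSpace I] [DiscreteTopology I] [TopologicalSpace A] [DiscreteTopology A]

variable (C κ₀) in
/-- The lift of an additive control map. -/
noncomputable def liftA (φ : M3 →+ M3) (hφ : ∀ m, φ (φ m) = 0) :
    (I × (ℕ → A)) ≃ₜ (I × (ℕ → A)) :=
  C.lift κ₀ (addθ φ) (addθ_zero φ) (addθ_compat hφ)

lemma liftA_Phi {φ : M3 →+ M3} (hφ : ∀ m, φ (φ m) = 0) {v : Fin 2 → K} {s : K}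
    (h : ¬ (v = 0 ∧ s = 0)) :
    liftA C κ₀ φ hφ (Phi C κ₀ v s) =
      C.J κ₀ (fun n => code v s n + φ (code v s (n + 1))) := by
  obtain ⟨n₀, hn⟩ := exists_ledM h
  rw [liftA, Phi, lift_J κ₀ _ _ hn]
  rfl

lemma acts_U (ε : F3) : Acts C κ₀ (liftA C κ₀ (phiU ε) (phiU_sq ε)) (uM ε) 0 := by
  intro v s h
  rw [liftA_Phi _ h, Phi]
  congr 1
  funext n
  simp only [code, phiU, uM]
  ext <;> simp [dotProduct, Fin.sum_univ_two, coeff_TT_mul, smul_mul_assoc]

lemma acts_V (ε : F3) : Acts C κ₀ (liftA C κ₀ (phiV ε) (phiV_sq ε)) (vM ε) 0 := by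
  intro v s h
  rw [liftA_Phi _ h, Phi]
  congr 1
  funext n
  simp only [code, phiV, vM]
  ext <;> simp [dotProduct, Fin.sum_univ_two, coeff_TT_mul, smul_mul_assoc, add_comm]

lemma acts_S : Acts C κ₀ (liftA C κ₀ phiS phiS_sq) 1 ![TT, 0] := by
  intro v s h
  rw [liftA_Phi _ h, Phi]
  congr 1
  funext n
  simp only [code, phiS]
  ext <;> simp [mul_comm s TT, coeff_TT_mul]

/-- Convergence to the image of a vector. -/
lemma tendsto_Phi {v : Fin 2 → K} {s : K} (h : ¬ (v = 0 ∧ s = 0)) {f : ℕ → Fin 2 → K}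
    {a : ℕ → K} (hf : ∀ i : ℤ, ∀ᶠ n in atTop, ∀ j ≤ i, (f n 0).coeff j = (v 0).coeff j ∧
      (f n 1).coeff j = (v 1).coeff j ∧ (a n).coeff j = s.coeff j) :
    Tendsto (fun n => Phi C κ₀ (f n) (a n)) atTop (𝓝 (Phi C κ₀ v s)) := by
  obtain ⟨n₀, hn⟩ := exists_ledM h
  apply hn.tendsto_J κ₀
  intro i
  filter_upwards [hf i] with n hn j hj
  simp only [code]
  rw [(hn j hj).1, (hn j hj).2.1, (hn j hj).2.2]

/-- The line through a fixed point in an attracting set. -/
lemma line_of_fixed [Finite I] [Finite A] {g : (I × (ℕ → A)) ≃ₜ (I × (ℕ → A))}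
    {U V : Set (I × (ℕ → A))} (hpp : IsPP g U V) {γ : SL} {c : Fin 2 → K}
    (hg : Acts C κ₀ g γ c) {l : K} (hl0 : l ≠ 0) (hl : 0 < (l⁻¹).orderTop)
    {e v : Fin 2 → K} (he0 : e ≠ 0) (he : γ.1 *ᵥ e = l • e) (hv : γ.1 *ᵥ v + c = v)
    (hV : Phi C κ₀ v 1 ∈ V) :
    (∀ κ : K, Phi C κ₀ (v + κ • e) 1 ∈ V) ∧ ∀ κ : K, κ ≠ 0 → Phi C κ₀ (κ • e) 0 ∈ V := by
  have hne : ∀ w : Fin 2 → K, ¬ (w = 0 ∧ (1 : K) = 0) := fun w h => one_ne_zero h.2
  have hact : ∀ κ : K, g (Phi C κ₀ (v + κ • e) 1) = Phi C κ₀ (v + (l * κ) • e) 1 := by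
    intro κ
    rw [hg _ _ (hne _)]
    congr 1
    rw [Matrix.mulVec_add, Matrix.mulVec_smul, he, one_smul, smul_smul, mul_comm κ l]
    nth_rw 2 [← hv]
    abel
  have hinv : ∀ κ : K, g⁻¹ (Phi C κ₀ (v + κ • e) 1) = Phi C κ₀ (v + (l⁻¹ * κ) • e) 1 := by
    intro κ
    have := hact (l⁻¹ * κ)
    rw [mul_inv_cancel_left₀ hl0] at this
    rw [← this]
    exact g.symm_apply_apply _
  have hpow : ∀ (n : ℕ) (κ : K), (g⁻¹ ^ n) (Phi C κ₀ (v + κ • e) 1) =
      Phi C κ₀ (v + (l⁻¹ ^ n * κ) • e) 1 := by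
    intro n
    induction n with
    | zero => intro κ; simp
    | succ n ih =>
      intro κ
      rw [pow_succ]
      change (g⁻¹ ^ n) (g⁻¹ _) = _
      rw [hinv, ih]
      congr 2
      rw [pow_succ, mul_assoc]
  have h1 : ∀ κ : K, Phi C κ₀ (v + κ • e) 1 ∈ V := by
    intro κ
    apply hpp.mem_V_of_tendsto (p := Phi C κ₀ v 1) _ hV
    have e1 : (fun n : ℕ => (g⁻¹ ^ n) (Phi C κ₀ (v + κ • e) 1)) =
        fun n : ℕ => Phi C κ₀ (v + (l⁻¹ ^ n * κ) • e) 1 := by
      funext n; exact hpow n κ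
    rw [e1]
    apply tendsto_Phi (hne _)
    intro i
    filter_upwards [eventually_pow_mul_coeff l⁻¹ (κ * e 0) hl i,
      eventually_pow_mul_coeff l⁻¹ (κ * e 1) hl i] with n hn0 hn1 j hj
    refine ⟨?_, ?_, rfl⟩
    · simp only [Pi.add_apply, Pi.smul_apply, smul_eq_mul, coeff_add]
      rw [mul_assoc, hn0 j hj, add_zero]
    · simp only [Pi.add_apply, Pi.smul_apply, smul_eq_mul, coeff_add]
      rw [mul_assoc, hn1 j hj, add_zero]
  refine ⟨h1, fun κ hκ => ?_⟩
  have : CompactSpace I := Finite.compactSpace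
  have : CompactSpace A := Finite.compactSpace
  set S : Set (I × (ℕ → A)) := {p | ∃ κ : K, p = Phi C κ₀ (v + κ • e) 1} with hS
  have hSV : S ⊆ V := by
    rintro _ ⟨κ, rfl⟩
    exact h1 κ
  have hSS : S ⊆ g '' S := by
    rintro _ ⟨κ, rfl⟩
    refine ⟨Phi C κ₀ (v + (l⁻¹ * κ) • e) 1, ⟨_, rfl⟩, ?_⟩
    rw [hact, mul_inv_cancel_left₀ hl0]
  apply hpp.closure_image_subset hSV
  apply closure_mono hSS
  have hκe : ¬ (κ • e = 0 ∧ (0 : K) = 0) := by
    rintro ⟨h, -⟩
    rcases smul_eq_zero.mp h with h | h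
    · exact hκ h
    · exact he0 h
  have hlim : Tendsto (fun n : ℕ => Phi C κ₀ (tp n • v + κ • e) (tp n)) atTop
      (𝓝 (Phi C κ₀ (κ • e) 0)) := by
    apply tendsto_Phi hκe
    intro i
    filter_upwards [eventually_tp_mul_coeff (v 0) i, eventually_tp_mul_coeff (v 1) i,
      eventually_tp_mul_coeff 1 i] with n hn0 hn1 hn2 j hj
    refine ⟨?_, ?_, ?_⟩
    · simp only [Pi.add_apply, Pi.smul_apply, smul_eq_mul, coeff_add]
      rw [hn0 j hj, zero_add]
    · simp only [Pi.add_apply, Pi.smul_apply, smul_eq_mul, coeff_add]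
      rw [hn1 j hj, zero_add]
    · have := hn2 j hj
      rw [mul_one] at this
      rw [this, coeff_zero]
  apply mem_closure_of_tendsto hlim
  refine Filter.Eventually.of_forall fun n => ⟨tp (-n) * κ, ?_⟩
  rw [← Phi_shift (hne _) (n : ℤ)]
  congr 1
  · rw [smul_add, smul_smul, ← mul_assoc, tp_mul_tp, add_neg_cancel, tp_zero, one_mul]
  · rw [mul_one]

variable (C κ₀) in
/-- The set contains all points at infinity, or a whole line with its points at infinity. -/
def LineIn (S : Set (I × (ℕ → A))) : Prop :=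
  (∀ e : Fin 2 → K, e ≠ 0 → Phi C κ₀ e 0 ∈ S) ∨
  ∃ v e : Fin 2 → K, e ≠ 0 ∧ (∀ κ : K, Phi C κ₀ (v + κ • e) 1 ∈ S) ∧
    ∀ κ : K, κ ≠ 0 → Phi C κ₀ (κ • e) 0 ∈ S

omit [TopologicalSpace I] [DiscreteTopology I] [TopologicalSpace A] [DiscreteTopology A] in
lemma LineIn.inter {S S' : Set (I × (ℕ → A))} (h : LineIn C κ₀ S) (h' : LineIn C κ₀ S') :
    (S ∩ S').Nonempty := by
  rcases h with h | ⟨v, e, he, h1, h2⟩
  · rcases h' with h' | ⟨v', e', he', h1', h2'⟩
    · have : (![1, 0] : Fin 2 → K) ≠ 0 := by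
        intro h0
        have := congrFun h0 0
        simp at this
      exact ⟨_, h _ this, h' _ this⟩
    · have h3 := h2' 1 one_ne_zero
      rw [one_smul] at h3
      exact ⟨_, h e' he', h3⟩
  · rcases h' with h' | ⟨v', e', he', h1', h2'⟩
    · have h3 := h2 1 one_ne_zero
      rw [one_smul] at h3
      exact ⟨_, h3, h' e he⟩
    · by_cases hD : e 0 * e' 1 - e 1 * e' 0 = 0
      · -- parallel
        obtain ⟨κ, hκ, hκe⟩ : ∃ κ : K, κ ≠ 0 ∧ κ • e = e' := by
          by_cases he0 : e 0 = 0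
          · have he1 : e 1 ≠ 0 := by
              intro he1
              apply he
              funext i
              fin_cases i
              · exact he0
              · exact he1
            have he'0 : e' 0 = 0 := by
              rw [he0, zero_mul, zero_sub, neg_eq_zero] at hD
              exact (mul_eq_zero.mp hD).resolve_left he1
            have he'1 : e' 1 ≠ 0 := by
              intro he1
              apply he'
              funext i
              fin_cases i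
              · exact he'0
              · exact he1
            refine ⟨e' 1 / e 1, div_ne_zero he'1 he1, ?_⟩
            funext i
            fin_cases i
            · simp [he0, he'0]
            · simp [he1]
          · have h3 : e' 1 = (e' 0 / e 0) * e 1 := by
              field_simp
              linear_combination hD
            have he'0 : e' 0 ≠ 0 := by
              intro h4
              rw [h4, zero_div, zero_mul] at h3
              apply he'
              funext i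
              fin_cases i
              · exact h4
              · exact h3
            refine ⟨e' 0 / e 0, div_ne_zero he'0 he0, ?_⟩
            funext i
            fin_cases i
            · simp [he0]
            · simp [h3]
        have h3 := h2' 1 one_ne_zero
        rw [one_smul, ← hκe] at h3
        exact ⟨_, h2 κ hκ, h3⟩
      · -- intersecting
        set D := e 0 * e' 1 - e 1 * e' 0 with hDdef
        set a : K := ((v' 0 - v 0) * e' 1 - (v' 1 - v 1) * e' 0) / D with ha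
        set b : K := ((v' 0 - v 0) * e 1 - (v' 1 - v 1) * e 0) / D with hb
        have key : v + a • e = v' + b • e' := by
          funext i
          fin_cases i
          · simp only [Pi.add_apply, Pi.smul_apply, smul_eq_mul, Fin.zero_eta, Fin.isValue]
            rw [ha, hb]
            field_simp
            rw [hDdef]
            ring
          · simp only [Pi.add_apply, Pi.smul_apply, smul_eq_mul, Fin.mk_one, Fin.isValue]
            rw [ha, hb]
            field_simp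
            rw [hDdef]
            ring
        have h3 := h1 a
        rw [key] at h3
        exact ⟨_, h3, h1' b⟩

/-- Ping-pong sets contain lines. -/
lemma lineIn_of_acts [Finite I] [Finite A] {g : (I × (ℕ → A)) ≃ₜ (I × (ℕ → A))}
    {U V : Set (I × (ℕ → A))} (hpp : IsPP g U V) {γ : SL} (hγ : γ ∈ uHom.range ⊔ vHom.range)
    {c : Fin 2 → K} (hg : Acts C κ₀ g γ c) : LineIn C κ₀ (U ∪ V) := by
  have hne : ∀ w : Fin 2 → K, ¬ (w = 0 ∧ (1 : K) = 0) := fun w h => one_ne_zero h.2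
  rcases torsion_or_trace γ hγ with ⟨n, hn⟩ | h
  · left
    intro e he
    have hpow : ∀ (k : ℕ) (e : Fin 2 → K), e ≠ 0 → (g ^ k) (Phi C κ₀ e 0) =
        Phi C κ₀ ((γ ^ k : SL).1 *ᵥ e) 0 := by
      intro k
      induction k with
      | zero => intro e _; simp
      | succ k ih =>
        intro e he
        rw [pow_succ]
        change (g ^ k) (g _) = _
        rw [hg e 0 (fun h => he h.1), zero_smul, add_zero, ih]
        · rw [Matrix.mulVec_mulVec, pow_succ]
          rfl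
        · intro h0
          have := ne_zero_of_affine (γ := γ) (c := 0) (v := e) (s := 0) (fun h => he h.1)
          apply this
          refine ⟨?_, rfl⟩
          rw [zero_smul, add_zero, h0]
    apply hpp.periodic (n := n)
    rw [hpow _ _ he, hn]
    simp
  · right
    obtain ⟨l, hl0, hl, ⟨e, he0, he⟩, ⟨e', he'0, he'⟩, hfix⟩ := hyperbolic γ h
    obtain ⟨v, hv⟩ := hfix c
    have hfixed : g (Phi C κ₀ v 1) = Phi C κ₀ v 1 := by
      rw [hg v 1 (hne v), one_smul, hv]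
    rcases hpp.fixed hfixed with hU | hV
    · have hinv := hg.inv
      have hv' : (γ⁻¹ : SL).1 *ᵥ v + -((γ⁻¹ : SL).1 *ᵥ c) = v := by
        have := congrArg (fun w => (γ⁻¹ : SL).1 *ᵥ w) hv
        simp only [Matrix.mulVec_add, Matrix.mulVec_mulVec, SL_inv_mul, Matrix.one_mulVec] at this
        rw [← this]
        abel
      obtain ⟨h1, h2⟩ := line_of_fixed hpp.inv hinv hl0 hl he'0 he' hv' hU
      exact ⟨v, e', he'0, fun κ => Or.inl (h1 κ), fun κ hκ => Or.inl (h2 κ hκ)⟩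
    · obtain ⟨h1, h2⟩ := line_of_fixed hpp hg hl0 hl he0 he hv hV
      exact ⟨v, e, he0, fun κ => Or.inr (h1 κ), fun κ hκ => Or.inr (h2 κ hκ)⟩

/-- No ping-pong pair. -/
theorem not_hasPingPongPair [Finite I] [Finite A]
    {H : Subgroup ((I × (ℕ → A)) ≃ₜ (I × (ℕ → A)))}
    (hH : ∀ g ∈ H, ∃ γ ∈ uHom.range ⊔ vHom.range, ∃ c, Acts C κ₀ g γ c) :
    ¬ HasPingPongPair H := by
  rintro ⟨g, hg, h, hh, U₁, U₂, V₁, V₂, oU₁, oU₂, oV₁, oV₂, d1, d2, d3, d4, d5, d6, m1, m2⟩
  obtain ⟨γ, hγ, c, h1⟩ := hH g hg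
  obtain ⟨δ, hδ, d, h2⟩ := hH h hh
  have l1 := lineIn_of_acts (U := U₁) (V := V₁) ⟨oU₁, oV₁, d2, m1⟩ hγ h1
  have l2 := lineIn_of_acts (U := U₂) (V := V₂) ⟨oU₂, oV₂, d5, m2⟩ hδ h2
  obtain ⟨p, hp1, hp2⟩ := l1.inter l2
  rw [Set.disjoint_left] at d1 d3 d4 d6
  rcases hp1 with hp1 | hp1 <;> rcases hp2 with hp2 | hp2
  · exact d1 hp1 hp2
  · exact d3 hp1 hp2
  · exact d4 hp2 hp1
  · exact d6 hp1 hp2

end discrete

end acts

end

end Pool.Agent.Lib.MP_e5892f_al
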