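import Mathlib
import Pool.Agent.Lib.MP_e5892f_al.Phi

/-!
# A block code over any alphabet with two letters
-/

namespace Pool.Agent.Lib.MP_e5892f_al

/-- Six bits of a triple. -/
def bit (m : M3) (k : ℕ) : Bool :=
  if k = 0 then decide (m.1 = 1) else if k = 1 then decide (m.1 = 2)
  else if k = 2 then decide (m.2.1 = 1) else if k = 3 then decide (m.2.1 = 2)
  else if k = 4 then decide (m.2.2 = 1) else decide (m.2.2 = 2)

lemma bit_inj : ∀ m m' : M3, (∀ k : Fin 6, bit m k = bit m' k) → m = m' := by
  decide

/-- The block of a triple. -/
def blockFun {A : Type*} (z o : A) (m : M3) (i : ℕ) : A :=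
  if m = 0 then z else if i < 2 then z else if i % 2 = 0 then o
  else if bit m ((i - 3) / 2) then o else z

lemma blockFun_odd {A : Type*} (z o : A) {m : M3} (hm : m ≠ 0) (k : ℕ) :
    blockFun z o m (2 * k + 3) = if bit m k then o else z := by
  have h1 : ¬ (2 * k + 3 < 2) := by omega
  have h2 : ¬ ((2 * k + 3) % 2 = 0) := by omega
  have h3 : (2 * k + 3 - 3) / 2 = k := by omega
  rw [blockFun, if_neg hm, if_neg h1, if_neg h2, h3]

/-- The block code. -/
def blockCode {A : Type*} (z o : A) (ho : o ≠ z) : BlockCode M3 A where
  z := z
  b := 15
  B := blockFun z o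
  o := o
  ho := ho
  hb := by norm_num
  B_zero i := by simp [blockFun]
  B_fst m := by simp [blockFun]
  B_snd m := by simp [blockFun]
  B_two m hm := by simp [blockFun, hm, ho]
  B_last m hm := by simp [blockFun, hm, ho]
  B_pair m hm i h1 h2 h3 := by
    have hodd : i % 2 = 1 := by
      by_contra hcon
      have h4 : i % 2 = 0 := by omega
      rw [blockFun, if_neg hm, if_neg (by omega), if_pos h4] at h3
      exact ho h3
    rw [blockFun, if_neg hm, if_neg (by omega), if_pos (by omega)]
    exact ho
  inj m m' h := by
    by_cases hm : m = 0
    · by_cases hm' : m' = 0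
      · rw [hm, hm']
      · have := h 2 (by norm_num)
        rw [blockFun, blockFun, if_pos hm, if_neg hm', if_neg (by norm_num),
          if_pos (by norm_num)] at this
        exact absurd this.symm ho
    · by_cases hm' : m' = 0
      · have := h 2 (by norm_num)
        rw [blockFun, blockFun, if_pos hm', if_neg hm, if_neg (by norm_num),
          if_pos (by norm_num)] at this
        exact absurd this ho
      · apply bit_inj
        intro k
        have hk := k.2
        have := h (2 * k.val + 3) (by omega)
        rw [blockFun_odd z o hm, blockFun_odd z o hm'] at this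
        cases h1 : bit m k <;> cases h2 : bit m' k
        · rfl
        · rw [h1, h2] at this
          exact absurd this.symm ho
        · rw [h1, h2] at this
          exact absurd this ho
        · rfl

end Pool.Agent.Lib.MP_e5892f_al
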