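import Mathlib
import Pool.Agent.Lib.MP_e5892f_al.Normalizer

/-!
# Swaps of cones
-/

namespace Pool.Agent.Lib.MP_e5892f_al

open Set Filter Topology MeasureTheory

variable {I A : Type*}

/-- The cone of points with index `κ` and prefix `w`. -/
def cone (κ : I) (w : List A) : Set (I × (ℕ → A)) := {p | p.1 = κ ∧ pre p.2 w.length = w}

lemma mem_cone_app (κ : I) (w : List A) (z : ℕ → A) : (κ, app w z) ∈ cone κ w :=
  ⟨rfl, pre_app w z⟩

lemma pre_congr {x y : ℕ → A} {n : ℕ} (h : ∀ i < n, x i = y i) : pre x n = pre y n := by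
  simp only [pre]
  congr 1
  funext i
  exact h i i.2

lemma cone_agr {κ : I} {w : List A} {p q : I × (ℕ → A)} {n : ℕ} (hn : w.length ≤ n)
    (h : Agr n p q) : p ∈ cone κ w ↔ q ∈ cone κ w := by
  simp only [cone, Set.mem_ofPred_eq]
  rw [h.1, pre_congr (n := w.length) fun i hi => h.2 i (by omega)]

lemma cone_eq {κ : I} {w : List A} {p : I × (ℕ → A)} (h : p ∈ cone κ w) :
    p = (κ, app w (fun k => p.2 (w.length + k))) := by
  apply Prod.ext
  · exact h.1
  · have := app_pre p.2 w.length
    rw [h.2] at this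
    exact this.symm

lemma cone_append_subset (κ : I) (w w' : List A) : cone κ (w ++ w') ⊆ cone κ w := by
  intro p hp
  have h := cone_eq hp
  rw [h, app_append]
  exact mem_cone_app _ _ _

lemma cone_disjoint_of_ne {κ : I} {w w₁ w₂ : List A} {a b : A} (hab : a ≠ b) :
    Disjoint (cone κ (w ++ a :: w₁)) (cone κ (w ++ b :: w₂)) := by
  rw [Set.disjoint_left]
  intro p h1 h2
  have e1 := cone_eq h1
  have e2 := cone_eq h2
  have e3 : p.2 w.length = a := by
    rw [e1, app_append]
    have := app_apply_add w (app (a :: w₁) fun k => p.2 ((w ++ a :: w₁).length + k)) 0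
    rw [add_zero] at this
    simpa using this
  have e4 : p.2 w.length = b := by
    rw [e2, app_append]
    have := app_apply_add w (app (b :: w₂) fun k => p.2 ((w ++ b :: w₂).length + k)) 0
    rw [add_zero] at this
    simpa using this
  exact hab (e3.symm.trans e4)

lemma cone_subset_iUnion (κ : I) (w : List A) : cone κ w ⊆ ⋃ a : A, cone κ (w ++ [a]) := by
  intro p hp
  rw [Set.mem_iUnion]
  refine ⟨p.2 w.length, hp.1, ?_⟩
  rw [List.length_append, List.length_singleton, pre_succ, hp.2]

open Classical in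
/-- The swap of two cones. -/
noncomputable def swapFun (κ : I) (w : List A) (κ' : I) (w' : List A) (p : I × (ℕ → A)) :
    I × (ℕ → A) :=
  if p ∈ cone κ w then (κ', app w' (fun k => p.2 (w.length + k)))
  else if p ∈ cone κ' w' then (κ, app w (fun k => p.2 (w'.length + k)))
  else p

lemma swapFun_left {κ κ' : I} {w w' : List A} (z : ℕ → A) :
    swapFun κ w κ' w' (κ, app w z) = (κ', app w' z) := by
  rw [swapFun, if_pos (mem_cone_app κ w z)]
  congr 2
  funext k
  exact app_apply_add w z k

lemma swapFun_right {κ κ' : I} {w w' : List A} (h : Disjoint (cone κ w) (cone κ' w'))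
    (z : ℕ → A) : swapFun κ w κ' w' (κ', app w' z) = (κ, app w z) := by
  rw [swapFun, if_neg (fun hc => Set.disjoint_left.mp h hc (mem_cone_app κ' w' z)),
    if_pos (mem_cone_app κ' w' z)]
  congr 2
  funext k
  exact app_apply_add w' z k

lemma swapFun_of_not_mem {κ κ' : I} {w w' : List A} {p : I × (ℕ → A)} (h : p ∉ cone κ w)
    (h' : p ∉ cone κ' w') : swapFun κ w κ' w' p = p := by
  rw [swapFun, if_neg h, if_neg h']

lemma swapFun_swapFun {κ κ' : I} {w w' : List A} (h : Disjoint (cone κ w) (cone κ' w'))
    (p : I × (ℕ → A)) : swapFun κ w κ' w' (swapFun κ w κ' w' p) = p := by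
  by_cases h1 : p ∈ cone κ w
  · rw [cone_eq h1, swapFun_left, swapFun_right h]
  · by_cases h2 : p ∈ cone κ' w'
    · rw [cone_eq h2, swapFun_right h, swapFun_left]
    · rw [swapFun_of_not_mem h1 h2, swapFun_of_not_mem h1 h2]

lemma agr_app_shift {κ : I} {w : List A} {x y : ℕ → A} {n m : ℕ}
    (h : ∀ i < m + n, x i = y i) :
    Agr n (κ, app w (fun k => x (m + k))) (κ, app w (fun k => y (m + k))) := by
  refine ⟨rfl, fun i hi => ?_⟩
  simp only
  by_cases hw : i < w.length
  · exact app_apply_of_lt w _ _ i hw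
  · obtain ⟨j, rfl⟩ := Nat.exists_eq_add_of_le (not_lt.mp hw)
    rw [app_apply_add, app_apply_add]
    exact h _ (by omega)

lemma swapFun_agr {κ κ' : I} {w w' : List A} (p : I × (ℕ → A)) (n : ℕ) :
    ∃ m, ∀ q, Agr m p q → Agr n (swapFun κ w κ' w' p) (swapFun κ w κ' w' q) := by
  refine ⟨w.length + w'.length + n, fun q hq => ?_⟩
  have e1 := cone_agr (κ := κ) (w := w) (by omega) hq
  have e2 := cone_agr (κ := κ') (w := w') (by omega) hq
  by_cases h1 : p ∈ cone κ w
  · rw [swapFun, swapFun, if_pos h1, if_pos (e1.mp h1)]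
    exact agr_app_shift fun i hi => hq.2 i (by omega)
  · by_cases h2 : p ∈ cone κ' w'
    · rw [swapFun, swapFun, if_neg h1, if_neg (fun h => h1 (e1.mpr h)), if_pos h2,
        if_pos (e2.mp h2)]
      exact agr_app_shift fun i hi => hq.2 i (by omega)
    · rw [swapFun_of_not_mem h1 h2, swapFun_of_not_mem (fun h => h1 (e1.mpr h))
        (fun h => h2 (e2.mpr h))]
      exact hq.mono (by omega)

section topology

variable [TopologicalSpace I] [DiscreteTopology I] [TopologicalSpace A] [DiscreteTopology A]

lemma isOpen_cone (κ : I) (w : List A) : IsOpen (cone κ w : Set (I × (ℕ → A))) := by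
  rw [isOpen_iff_mem_nhds]
  intro p hp
  filter_upwards [agr_mem_nhds w.length p] with q hq
  exact (cone_agr le_rfl hq).mp hp

lemma swapFun_continuous (κ κ' : I) (w w' : List A) : Continuous (swapFun κ w κ' w') := by
  rw [continuous_iff_agr]
  exact fun p n => swapFun_agr p n

/-- The swap of two disjoint cones as a homeomorphism. -/
noncomputable def swapH (κ : I) (w : List A) (κ' : I) (w' : List A)
    (h : Disjoint (cone κ w) (cone κ' w')) : (I × (ℕ → A)) ≃ₜ (I × (ℕ → A)) where
  toFun := swapFun κ w κ' w'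
  invFun := swapFun κ w κ' w'
  left_inv := swapFun_swapFun h
  right_inv := swapFun_swapFun h
  continuous_toFun := swapFun_continuous κ κ' w w'
  continuous_invFun := swapFun_continuous κ κ' w w'

lemma swapFun_lTail {κ κ' : I} {w w' : List A} (h : Disjoint (cone κ w) (cone κ' w')) :
    LTail (swapFun κ w κ' w') := by
  intro p
  by_cases h1 : p ∈ cone κ w
  · refine ⟨w.length, w'.length, ?_⟩
    filter_upwards [agr_mem_nhds w.length p] with q hq i
    have h2 : q ∈ cone κ w := (cone_agr le_rfl hq).mp h1
    rw [swapFun, if_pos h2]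
    exact app_apply_add w' _ i
  · by_cases h2 : p ∈ cone κ' w'
    · refine ⟨w'.length, w.length, ?_⟩
      filter_upwards [agr_mem_nhds w'.length p] with q hq i
      have h3 : q ∈ cone κ' w' := (cone_agr le_rfl hq).mp h2
      have h4 : q ∉ cone κ w := fun hc => Set.disjoint_left.mp h hc h3
      rw [swapFun, if_neg h4, if_pos h3]
      exact app_apply_add w _ i
    · refine ⟨0, 0, ?_⟩
      filter_upwards [agr_mem_nhds (w.length + w'.length) p] with q hq i
      have h3 : q ∉ cone κ w := fun hc => h1 ((cone_agr (by omega) hq).mpr hc)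
      have h4 : q ∉ cone κ' w' := fun hc => h2 ((cone_agr (by omega) hq).mpr hc)
      rw [swapFun_of_not_mem h3 h4]

lemma swapH_biLoc {κ κ' : I} {w w' : List A} (h : Disjoint (cone κ w) (cone κ' w')) :
    BiLoc (swapH κ w κ' w' h) :=
  ⟨(swapFun_lTail h).locU, (swapFun_lTail h).locU⟩

lemma swapH_preimage {κ κ' : I} {w w' : List A} (h : Disjoint (cone κ w) (cone κ' w')) :
    (swapH κ w κ' w' h) ⁻¹' cone κ' w' = cone κ w := by
  ext p
  change swapFun κ w κ' w' p ∈ cone κ' w' ↔ p ∈ cone κ w
  constructor
  · intro hp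
    by_contra h1
    by_cases h2 : p ∈ cone κ' w'
    · rw [cone_eq h2, swapFun_right h] at hp
      exact Set.disjoint_left.mp h (mem_cone_app κ w _) hp
    · rw [swapFun_of_not_mem h1 h2] at hp
      exact h2 hp
  · intro hp
    rw [cone_eq hp, swapFun_left]
    exact mem_cone_app _ _ _

section measure

variable [MeasurableSpace (I × (ℕ → A))] [BorelSpace (I × (ℕ → A))]

lemma measurableSet_cone (κ : I) (w : List A) : MeasurableSet (cone κ w : Set (I × (ℕ → A))) :=
  (isOpen_cone κ w).measurableSet

lemma measure_cone_eq {μ : Measure (I × (ℕ → A))} {κ κ' : I} {w w' : List A}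
    (h : Disjoint (cone κ w) (cone κ' w')) (hμ : μ.map (swapH κ w κ' w' h) = μ) :
    μ (cone κ' w') = μ (cone κ w) := by
  conv_lhs => rw [← hμ]
  rw [Measure.map_apply (swapH κ w κ' w' h).continuous.measurable (measurableSet_cone κ' w'),
    swapH_preimage]

/-- An open set is null when the measure is invariant under all swaps of disjoint cones
contained in it. -/
theorem null_of_swaps [Finite I] [Finite A] [Nontrivial A] {μ : Measure (I × (ℕ → A))}
    [IsFiniteMeasure μ] {O : Set (I × (ℕ → A))} (hO : IsOpen O)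
    (hμ : ∀ (κ κ' : I) (w w' : List A) (h : Disjoint (cone κ w) (cone κ' w')),
      cone κ w ⊆ O → cone κ' w' ⊆ O → μ.map (swapH κ w κ' w' h) = μ) : μ O = 0 := by
  have step : ∀ (κ : I) (w : List A), cone κ w ⊆ O → μ (cone κ w) = 0 := by
    intro κ w hw
    have hsub : ∀ w', cone κ (w ++ w') ⊆ O := fun w' => (cone_append_subset κ w w').trans hw
    have key : ∀ a : A, μ (cone κ (w ++ [a])) = 0 := by
      intro a
      obtain ⟨a', ha'⟩ := exists_ne a
      have d1 : Disjoint (cone κ (w ++ [a])) (cone κ (w ++ [a'])) :=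
        cone_disjoint_of_ne ha'.symm
      have d2 : Disjoint (cone κ (w ++ [a])) (cone κ (w ++ [a', a])) :=
        cone_disjoint_of_ne ha'.symm
      have d3 : Disjoint (cone κ (w ++ [a])) (cone κ (w ++ [a', a'])) :=
        cone_disjoint_of_ne ha'.symm
      have m1 := measure_cone_eq d1 (hμ _ _ _ _ d1 (hsub _) (hsub _))
      have m2 := measure_cone_eq d2 (hμ _ _ _ _ d2 (hsub _) (hsub _))
      have m3 := measure_cone_eq d3 (hμ _ _ _ _ d3 (hsub _) (hsub _))
      have d4 : Disjoint (cone κ (w ++ [a', a])) (cone κ (w ++ [a', a'])) := by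
        have := cone_disjoint_of_ne (κ := κ) (w := w ++ [a']) (w₁ := []) (w₂ := []) ha'.symm
        simpa using this
      have s1 : cone κ (w ++ [a', a]) ⊆ cone κ (w ++ [a']) := by
        have := cone_append_subset κ (w ++ [a']) [a]
        simpa using this
      have s2 : cone κ (w ++ [a', a']) ⊆ cone κ (w ++ [a']) := by
        have := cone_append_subset κ (w ++ [a']) [a']
        simpa using this
      have h1 : μ (cone κ (w ++ [a', a])) + μ (cone κ (w ++ [a', a'])) ≤
          μ (cone κ (w ++ [a'])) := by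
        rw [← measure_union d4 (measurableSet_cone _ _)]
        exact measure_mono (Set.union_subset s1 s2)
      rw [m1, m2, m3] at h1
      by_contra hne
      have h2 : μ (cone κ (w ++ [a])) < μ (cone κ (w ++ [a])) + μ (cone κ (w ++ [a])) :=
        ENNReal.lt_add_right (measure_ne_top μ _) hne
      exact absurd h1 (not_le.mpr h2)
    have h0 : μ (⋃ a : A, cone κ (w ++ [a])) = 0 := by
      have : Countable A := Finite.to_countable
      exact measure_iUnion_null key
    exact measure_mono_null (cone_subset_iUnion κ w) h0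
  have hcover : O ⊆ ⋃ x : {x : I × List A // cone x.1 x.2 ⊆ O}, cone x.1.1 x.1.2 := by
    intro p hp
    have : ∀ᶠ q in 𝓝 p, q ∈ O := hO.mem_nhds hp
    rw [eventually_iff_agr] at this
    obtain ⟨n, hn⟩ := this
    refine Set.mem_iUnion.mpr ⟨⟨(p.1, pre p.2 n), ?_⟩, ?_⟩
    · intro q hq
      apply hn
      have h1 := hq.2
      simp only [length_pre] at h1
      refine ⟨hq.1.symm, fun i hi => ?_⟩
      have h2 : (pre q.2 n)[i]'(by simpa using hi) = (pre p.2 n)[i]'(by simpa using hi) := by
        simp only [h1]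
      simpa [pre] using h2.symm
    · exact ⟨rfl, by simp⟩
  have hcount : Countable {x : I × List A // cone x.1 x.2 ⊆ O} := by
    have : Countable A := Finite.to_countable
    have : Countable I := Finite.to_countable
    infer_instance
  refine measure_mono_null hcover (measure_iUnion_null fun x => step _ _ x.2)

end measure

end topology

end Pool.Agent.Lib.MP_e5892f_al
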