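import Mathlib
import Pool.Agent.Lib.MP_e5892f_al.Phi
import Pool.Agent.Lib.MP_e5892f_al.Swap

/-!
# No invariant probability measure
-/

namespace Pool.Agent.Lib.MP_e5892f_al

open Set Filter Topology MeasureTheory HahnSeries Matrix BlockCode

/-- The first nonzero pair of coefficients satisfies `P`. -/
def FirstIn (P : F3 → F3 → Prop) (v : Fin 2 → K) : Prop :=
  ∃ n : ℤ, P ((v 0).coeff n) ((v 1).coeff n) ∧ ∀ k < n, (v 0).coeff k = 0 ∧ (v 1).coeff k = 0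

/-- The first coordinate comes first. -/
def Pa (a b : F3) : Prop := a ≠ 0 ∧ b = 0

/-- The second coordinate comes first. -/
def Pb (a b : F3) : Prop := a = 0 ∧ b ≠ 0

/-- Both come together. -/
def Pc (a b : F3) : Prop := a ≠ 0 ∧ b ≠ 0

/-- The second coordinate comes first, or both come together. -/
def Pbc (_a b : F3) : Prop := b ≠ 0

/-- The first coordinate comes first, or both come together. -/
def Pac (a _b : F3) : Prop := a ≠ 0

lemma FirstIn.and {P Q : F3 → F3 → Prop} (hP : ¬ P 0 0) (hQ : ¬ Q 0 0) {v : Fin 2 → K}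
    (h : FirstIn P v) (h' : FirstIn Q v) : ∃ a b, P a b ∧ Q a b := by
  obtain ⟨n, h1, h2⟩ := h
  obtain ⟨m, h3, h4⟩ := h'
  rcases lt_trichotomy n m with hnm | hnm | hnm
  · rw [(h4 n hnm).1, (h4 n hnm).2] at h1
    exact absurd h1 hP
  · subst hnm
    exact ⟨_, _, h1, h3⟩
  · rw [(h2 m hnm).1, (h2 m hnm).2] at h3
    exact absurd h3 hQ

lemma firstIn_uM {v : Fin 2 → K} (h : FirstIn Pbc v) {ε : F3} (hε : ε ≠ 0) :
    FirstIn Pa ((uM ε).1 *ᵥ v) := by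
  obtain ⟨n, h1, h2⟩ := h
  have e0 : ∀ k, (((uM ε).1 *ᵥ v) 0).coeff k = (v 0).coeff k + ε * (v 1).coeff (k + 1) := by
    intro k
    simp [uM, dotProduct, Fin.sum_univ_two, smul_mul_assoc, coeff_TT_mul]
  have e1 : ∀ k, (((uM ε).1 *ᵥ v) 1).coeff k = (v 1).coeff k := by
    intro k
    simp [uM, dotProduct, Fin.sum_univ_two]
  refine ⟨n - 1, ⟨?_, ?_⟩, fun k hk => ⟨?_, ?_⟩⟩
  · rw [e0, (h2 (n - 1) (by omega)).1, zero_add, sub_add_cancel]
    exact mul_ne_zero hε h1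
  · rw [e1, (h2 (n - 1) (by omega)).2]
  · rw [e0, (h2 k (by omega)).1, (h2 (k + 1) (by omega)).2, mul_zero, add_zero]
  · rw [e1, (h2 k (by omega)).2]

lemma firstIn_vM {v : Fin 2 → K} (h : FirstIn Pac v) {ε : F3} (hε : ε ≠ 0) :
    FirstIn Pb ((vM ε).1 *ᵥ v) := by
  obtain ⟨n, h1, h2⟩ := h
  have e0 : ∀ k, (((vM ε).1 *ᵥ v) 0).coeff k = (v 0).coeff k := by
    intro k
    simp [vM, dotProduct, Fin.sum_univ_two]
  have e1 : ∀ k, (((vM ε).1 *ᵥ v) 1).coeff k = ε * (v 0).coeff (k + 1) + (v 1).coeff k := by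
    intro k
    simp [vM, dotProduct, Fin.sum_univ_two, smul_mul_assoc, coeff_TT_mul]
  refine ⟨n - 1, ⟨?_, ?_⟩, fun k hk => ⟨?_, ?_⟩⟩
  · rw [e0, (h2 (n - 1) (by omega)).1]
  · rw [e1, (h2 (n - 1) (by omega)).2, add_zero, sub_add_cancel]
    exact mul_ne_zero hε h1
  · rw [e0, (h2 k (by omega)).1]
  · rw [e1, (h2 k (by omega)).2, (h2 (k + 1) (by omega)).1, mul_zero, add_zero]

lemma firstIn_of_ne_zero {v : Fin 2 → K} (h : v ≠ 0) :
    FirstIn Pa v ∨ FirstIn Pb v ∨ FirstIn Pc v := by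
  obtain ⟨n, h1, h2⟩ := exists_ledM (v := v) (s := 0) (fun h' => h h'.1)
  have h3 : ∀ k < n, (v 0).coeff k = 0 ∧ (v 1).coeff k = 0 := by
    intro k hk
    have := h1 k hk
    simp only [code, Prod.mk_eq_zero] at this
    exact ⟨this.1, this.2.1⟩
  simp only [code, coeff_zero, ne_eq, Prod.mk_eq_zero, and_true, not_and] at h2
  by_cases ha : (v 0).coeff n = 0
  · exact Or.inr (Or.inl ⟨n, ⟨ha, h2 ha⟩, h3⟩)
  · by_cases hb : (v 1).coeff n = 0
    · exact Or.inl ⟨n, ⟨ha, hb⟩, h3⟩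
    · exact Or.inr (Or.inr ⟨n, ⟨ha, hb⟩, h3⟩)

variable {A I : Type*} (C : BlockCode M3 A) (κ₀ : I)

/-- Decoding of the first nonzero pair. -/
def Gset (P : F3 → F3 → Prop) : Set (I × (ℕ → A)) :=
  {p | ∃ (n : ℕ) (m : M3), P m.1 m.2.1 ∧ (∀ i < C.b, p.2 (n * C.b + i) = C.B m i) ∧
    ∀ k < n, ∃ m' : M3, m'.1 = 0 ∧ m'.2.1 = 0 ∧ ∀ i < C.b, p.2 (k * C.b + i) = C.B m' i}

lemma Phi_mem_Gset {P : F3 → F3 → Prop} (hP : ¬ P 0 0) {v : Fin 2 → K} {s : K}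
    (h : ¬ (v = 0 ∧ s = 0)) : Phi C κ₀ v s ∈ Gset (I := I) C P ↔ FirstIn P v := by
  obtain ⟨n₀, hn⟩ := exists_ledM h
  have happ : ∀ (k : ℕ) (i : ℕ), i < C.b → (Phi C κ₀ v s).2 (k * C.b + i) =
      C.B (code v s (n₀ + k)) i := fun k i hi => hn.J_apply κ₀ k i hi
  constructor
  · rintro ⟨n, m, h1, h2, h3⟩
    have e1 : code v s (n₀ + n) = m := C.inj _ _ fun i hi => by rw [← happ n i hi, h2 i hi]
    refine ⟨n₀ + n, ?_, fun k hk => ?_⟩
    · rw [← e1] at h1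
      exact h1
    · by_cases hk0 : k < n₀
      · have := hn.1 k hk0
        simp only [code, Prod.mk_eq_zero] at this
        exact ⟨this.1, this.2.1⟩
      · obtain ⟨j, rfl⟩ : ∃ j : ℕ, k = n₀ + j := ⟨(k - n₀).toNat, by omega⟩
        obtain ⟨m', h4, h5, h6⟩ := h3 j (by omega)
        have e2 : code v s (n₀ + j) = m' := C.inj _ _ fun i hi => by rw [← happ j i hi, h6 i hi]
        rw [← e2] at h4 h5
        exact ⟨h4, h5⟩
  · rintro ⟨n, h1, h2⟩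
    have hn0 : n₀ ≤ n := by
      by_contra hlt
      push Not at hlt
      have := hn.1 n hlt
      simp only [code, Prod.mk_eq_zero] at this
      rw [this.1, this.2.1] at h1
      exact hP h1
    obtain ⟨j, rfl⟩ : ∃ j : ℕ, n = n₀ + j := ⟨(n - n₀).toNat, by omega⟩
    refine ⟨j, code v s (n₀ + j), h1, fun i hi => happ j i hi, fun k hk => ?_⟩
    exact ⟨code v s (n₀ + k), (h2 _ (by omega)).1, (h2 _ (by omega)).2, fun i hi => happ k i hi⟩

/-- The closed set carrying the dynamics. -/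
def Yset : Set (I × (ℕ → A)) := {p | C.InY κ₀ p}

lemma mem_Yset_iff {p : I × (ℕ → A)} :
    p ∈ Yset C κ₀ ↔ ∃ (v : Fin 2 → K) (s : K), ¬ (v = 0 ∧ s = 0) ∧ p = Phi C κ₀ v s := by
  constructor
  · intro hp
    obtain ⟨mm, hmm, rfl⟩ := InY.exists_J κ₀ hp
    -- the Laurent series with the given coefficients
    have hser : ∀ f : ℤ → F3, (∀ n < 0, f n = 0) → ∃ x : K, x.coeff = f := by
      intro f hf
      refine ⟨HahnSeries.ofSuppBddBelow f ⟨0, ?_⟩, rfl⟩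
      intro n hn
      by_contra hlt
      exact hn (hf n (by simpa using hlt))
    obtain ⟨x, hx⟩ := hser (fun n => (mm n).1) fun n hn => by
      rw [hmm.1 n hn]; rfl
    obtain ⟨y, hy⟩ := hser (fun n => (mm n).2.1) fun n hn => by
      rw [hmm.1 n hn]; rfl
    obtain ⟨s, hs⟩ := hser (fun n => (mm n).2.2) fun n hn => by
      rw [hmm.1 n hn]; rfl
    have hcode : code ![x, y] s = mm := by
      funext n
      simp only [code, Matrix.cons_val_zero, Matrix.cons_val_one]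
      rw [hx, hy, hs]
    refine ⟨![x, y], s, ?_, by rw [Phi, hcode]⟩
    rintro ⟨h1, h2⟩
    apply hmm.2
    rw [← hcode, h1, h2]
    simp [code]
  · rintro ⟨v, s, h, rfl⟩
    obtain ⟨n₀, hn⟩ := exists_ledM h
    exact hn.inY κ₀

section topology

variable [TopologicalSpace I] [DiscreteTopology I] [TopologicalSpace A] [DiscreteTopology A]

lemma isOpen_Gset (P : F3 → F3 → Prop) : IsOpen (Gset (I := I) C P) := by
  rw [isOpen_iff_mem_nhds]
  rintro p ⟨n, m, h1, h2, h3⟩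
  filter_upwards [agr_mem_nhds (n * C.b + C.b) p] with q hq
  refine ⟨n, m, h1, fun i hi => by rw [← hq.2 _ (by omega), h2 i hi], fun k hk => ?_⟩
  obtain ⟨m', h4, h5, h6⟩ := h3 k hk
  refine ⟨m', h4, h5, fun i hi => ?_⟩
  have h7 : k * C.b ≤ n * C.b := Nat.mul_le_mul_right _ (by omega)
  rw [← hq.2 _ (by omega), h6 i hi]

lemma isOpen_Yset_compl : IsOpen (Yset C κ₀)ᶜ := by
  rw [isOpen_iff_mem_nhds]
  intro p hp
  obtain ⟨N, hN⟩ := not_inY_agr κ₀ (C := C) (p := p) hp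
  filter_upwards [agr_mem_nhds N p] with q hq
  exact hN q hq

variable [MeasurableSpace (I × (ℕ → A))] [BorelSpace (I × (ℕ → A))]

/-- No probability measure is invariant. -/
theorem no_invariant_measure [Finite I] [Finite A] [Nontrivial A]
    (μ : Measure (I × (ℕ → A))) [IsProbabilityMeasure μ]
    (hswap : ∀ (κ κ' : I) (w w' : List A) (h : Disjoint (cone κ w) (cone κ' w')),
      cone κ w ⊆ (Yset C κ₀)ᶜ → cone κ' w' ⊆ (Yset C κ₀)ᶜ → μ.map (swapH κ w κ' w' h) = μ)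
    (hU : ∀ ε, μ.map (liftA C κ₀ (phiU ε) (phiU_sq ε)) = μ)
    (hV : ∀ ε, μ.map (liftA C κ₀ (phiV ε) (phiV_sq ε)) = μ)
    (hS : μ.map (liftA C κ₀ phiS phiS_sq) = μ) : False := by
  have hY0 : μ (Yset C κ₀)ᶜ = 0 := null_of_swaps (isOpen_Yset_compl C κ₀) hswap
  have hYm : MeasurableSet (Yset C κ₀) := (isOpen_Yset_compl C κ₀).measurableSet.of_compl
  -- the sets
  set S : (F3 → F3 → Prop) → Set (I × (ℕ → A)) := fun P => Yset C κ₀ ∩ Gset C P with hSdef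
  have hSm : ∀ P, MeasurableSet (S P) := fun P => hYm.inter (isOpen_Gset C P).measurableSet
  have hinv : ∀ (g : (I × (ℕ → A)) ≃ₜ (I × (ℕ → A))), μ.map g = μ → ∀ T, MeasurableSet T →
      μ (g ⁻¹' T) = μ T := by
    intro g hg T hT
    conv_rhs => rw [← hg]
    rw [Measure.map_apply g.continuous.measurable hT]
  have hPa : ¬ Pa 0 0 := fun h => h.1 rfl
  have hPb : ¬ Pb 0 0 := fun h => h.2 rfl
  have hPc : ¬ Pc 0 0 := fun h => h.1 rfl
  have hPbc : ¬ Pbc 0 0 := fun h => h rfl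
  have hPac : ¬ Pac 0 0 := fun h => h rfl
  -- membership in preimages
  have hpre : ∀ (g : (I × (ℕ → A)) ≃ₜ (I × (ℕ → A))) (γ : SL) (_ : Acts C κ₀ g γ 0)
      (P : F3 → F3 → Prop) (_ : ¬ P 0 0) (p : I × (ℕ → A)), p ∈ Yset C κ₀ ∩ g ⁻¹' S P →
      ∃ (v : Fin 2 → K) (s : K), ¬ (v = 0 ∧ s = 0) ∧ p = Phi C κ₀ v s ∧ FirstIn P (γ.1 *ᵥ v) := by
    rintro g γ hg P hP p ⟨hp1, hp2, hp3⟩
    obtain ⟨v, s, hvs, rfl⟩ := (mem_Yset_iff C κ₀).mp hp1
    refine ⟨v, s, hvs, rfl, ?_⟩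
    rw [hg v s hvs] at hp3
    have := (Phi_mem_Gset C κ₀ hP (ne_zero_of_affine hvs)).mp hp3
    simpa using this
  have hgen : ∀ (P Q : F3 → F3 → Prop) (_ : ¬ P 0 0) (_ : ¬ Q 0 0)
      (g₁ g₂ : (I × (ℕ → A)) ≃ₜ (I × (ℕ → A))) (γ₁ γ₂ : SL) (_ : μ.map g₁ = μ)
      (_ : μ.map g₂ = μ) (_ : Acts C κ₀ g₁ γ₁ 0) (_ : Acts C κ₀ g₂ γ₂ 0)
      (_ : ∀ v, FirstIn P (γ₁.1 *ᵥ v) → FirstIn Q v)
      (_ : ∀ v, FirstIn P (γ₂.1 *ᵥ v) → FirstIn Q v)
      (_ : ∀ v, FirstIn P (γ₁.1 *ᵥ v) → FirstIn P (γ₂.1 *ᵥ v) → False),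
      μ (S P) + μ (S P) ≤ μ (S Q) := by
    intro P Q hP hQ g₁ g₂ γ₁ γ₂ i₁ i₂ a₁ a₂ k₁ k₂ kd
    have sub : ∀ (g : (I × (ℕ → A)) ≃ₜ (I × (ℕ → A))) (γ : SL) (_ : Acts C κ₀ g γ 0)
        (_ : ∀ v, FirstIn P (γ.1 *ᵥ v) → FirstIn Q v), Yset C κ₀ ∩ g ⁻¹' S P ⊆ S Q := by
      intro g γ a k p hp
      obtain ⟨v, s, hvs, hpv, hF⟩ := hpre g γ a P hP p hp
      refine ⟨hp.1, ?_⟩
      rw [hpv]
      exact (Phi_mem_Gset C κ₀ hQ hvs).mpr (k v hF)
    have meas : ∀ (g : (I × (ℕ → A)) ≃ₜ (I × (ℕ → A))) (_ : μ.map g = μ),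
        μ (Yset C κ₀ ∩ g ⁻¹' S P) = μ (S P) := by
      intro g i
      rw [Set.inter_comm, measure_inter_conull hY0, hinv g i _ (hSm P)]
    have disj : Disjoint (Yset C κ₀ ∩ g₁ ⁻¹' S P) (Yset C κ₀ ∩ g₂ ⁻¹' S P) := by
      rw [Set.disjoint_left]
      rintro p hp1 hp2
      obtain ⟨v, s, hvs, rfl⟩ := (mem_Yset_iff C κ₀).mp hp1.1
      have q1 : FirstIn P (γ₁.1 *ᵥ v) := by
        have h3 := hp1.2.2
        rw [a₁ v s hvs] at h3
        have := (Phi_mem_Gset C κ₀ hP (ne_zero_of_affine hvs)).mp h3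
        simpa using this
      have q2 : FirstIn P (γ₂.1 *ᵥ v) := by
        have h3 := hp2.2.2
        rw [a₂ v s hvs] at h3
        have := (Phi_mem_Gset C κ₀ hP (ne_zero_of_affine hvs)).mp h3
        simpa using this
      exact kd v q1 q2
    calc μ (S P) + μ (S P) = μ (Yset C κ₀ ∩ g₁ ⁻¹' S P) + μ (Yset C κ₀ ∩ g₂ ⁻¹' S P) := by
          rw [meas g₁ i₁, meas g₂ i₂]
      _ = μ ((Yset C κ₀ ∩ g₁ ⁻¹' S P) ∪ (Yset C κ₀ ∩ g₂ ⁻¹' S P)) := by
          rw [measure_union disj]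
          exact hYm.inter (g₂.continuous.measurable (hSm P))
      _ ≤ μ (S Q) := measure_mono (Set.union_subset (sub g₁ γ₁ a₁ k₁) (sub g₂ γ₂ a₂ k₂))
  -- algebra of the unipotent matrices
  have hone : (1 : F3) ≠ 0 := by decide
  have htwo : (2 : F3) ≠ 0 := by decide
  have uu : ∀ (ε δ : F3) (v : Fin 2 → K), (uM ε).1 *ᵥ ((uM δ).1 *ᵥ v) = (uM (ε + δ)).1 *ᵥ v := by
    intro ε δ v
    rw [Matrix.mulVec_mulVec, ← uM_mul]
    rfl
  have vv : ∀ (ε δ : F3) (v : Fin 2 → K), (vM ε).1 *ᵥ ((vM δ).1 *ᵥ v) = (vM (ε + δ)).1 *ᵥ v := by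
    intro ε δ v
    rw [Matrix.mulVec_mulVec, ← vM_mul]
    rfl
  have u0 : ∀ v : Fin 2 → K, (uM 0).1 *ᵥ v = v := by
    intro v
    rw [uM_zero]
    exact Matrix.one_mulVec v
  have v0 : ∀ v : Fin 2 → K, (vM 0).1 *ᵥ v = v := by
    intro v
    rw [vM_zero]
    exact Matrix.one_mulVec v
  have h12 : (2 : F3) + 1 = 0 := by decide
  have h21 : (1 : F3) + 2 = 0 := by decide
  have h22 : (2 : F3) + 2 = 1 := by decide
  have kU1 : ∀ v, FirstIn Pbc ((uM 1).1 *ᵥ v) → FirstIn Pa v := by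
    intro v hv
    have := firstIn_uM hv htwo
    rwa [uu, h12, u0] at this
  have kU2 : ∀ v, FirstIn Pbc ((uM 2).1 *ᵥ v) → FirstIn Pa v := by
    intro v hv
    have := firstIn_uM hv hone
    rwa [uu, h21, u0] at this
  have kUd : ∀ v, FirstIn Pbc ((uM 1).1 *ᵥ v) → FirstIn Pbc ((uM 2).1 *ᵥ v) → False := by
    intro v h1 h2
    have := firstIn_uM h2 htwo
    rw [uu, h22] at this
    obtain ⟨a, b, h3, h4⟩ := h1.and hPbc hPa this
    exact h3 h4.2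
  have kV1 : ∀ v, FirstIn Pac ((vM 1).1 *ᵥ v) → FirstIn Pb v := by
    intro v hv
    have := firstIn_vM hv htwo
    rwa [vv, h12, v0] at this
  have kV2 : ∀ v, FirstIn Pac ((vM 2).1 *ᵥ v) → FirstIn Pb v := by
    intro v hv
    have := firstIn_vM hv hone
    rwa [vv, h21, v0] at this
  have kVd : ∀ v, FirstIn Pac ((vM 1).1 *ᵥ v) → FirstIn Pac ((vM 2).1 *ᵥ v) → False := by
    intro v h1 h2
    have := firstIn_vM h2 htwo
    rw [vv, h22] at this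
    obtain ⟨a, b, h3, h4⟩ := h1.and hPac hPb this
    exact h3 h4.1
  have ineq1 : μ (S Pbc) + μ (S Pbc) ≤ μ (S Pa) :=
    hgen Pbc Pa hPbc hPa _ _ (uM 1) (uM 2) (hU 1) (hU 2) (acts_U 1) (acts_U 2) kU1 kU2 kUd
  have ineq2 : μ (S Pac) + μ (S Pac) ≤ μ (S Pb) :=
    hgen Pac Pb hPac hPb _ _ (vM 1) (vM 2) (hV 1) (hV 2) (acts_V 1) (acts_V 2) kV1 kV2 kVd
  have mono : ∀ P Q : F3 → F3 → Prop, (∀ a b, P a b → Q a b) → S P ⊆ S Q := by
    rintro P Q hPQ p ⟨hp1, n, m, h1, h2, h3⟩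
    exact ⟨hp1, n, m, hPQ _ _ h1, h2, h3⟩
  have hba : μ (S Pb) ≤ μ (S Pbc) := measure_mono (mono _ _ fun a b h => h.2)
  have haa : μ (S Pa) ≤ μ (S Pac) := measure_mono (mono _ _ fun a b h => h.1)
  have hca : μ (S Pc) ≤ μ (S Pbc) := measure_mono (mono _ _ fun a b h => h.2)
  have fin : ∀ P, μ (S P) ≠ ⊤ := fun P => measure_ne_top μ _
  have za : μ (S Pbc) = 0 := by
    -- `2 x ≤ a ≤ y`, `2 y ≤ b ≤ x`
    have h1 : μ (S Pbc) + μ (S Pbc) ≤ μ (S Pac) := ineq1.trans haa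
    have h2 : μ (S Pac) + μ (S Pac) ≤ μ (S Pbc) := ineq2.trans hba
    by_contra hne
    have h3 : μ (S Pbc) < μ (S Pbc) + μ (S Pbc) := ENNReal.lt_add_right (fin _) hne
    have h4 : μ (S Pbc) < μ (S Pac) := h3.trans_le h1
    have h5 : μ (S Pac) ≤ μ (S Pac) + μ (S Pac) := le_self_add
    exact absurd h4 (not_lt.mpr (h5.trans h2))
  have zb : μ (S Pb) = 0 := le_antisymm (hba.trans za.le) zero_le
  have zac : μ (S Pac) = 0 := by
    have h5 : μ (S Pac) ≤ μ (S Pac) + μ (S Pac) := le_self_add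
    exact le_antisymm ((h5.trans ineq2).trans zb.le) zero_le
  have zaa : μ (S Pa) = 0 := le_antisymm (haa.trans zac.le) zero_le
  have zc : μ (S Pc) = 0 := le_antisymm (hca.trans za.le) zero_le
  -- the points with vanishing vector
  have hcover : (Set.univ : Set (I × (ℕ → A))) ⊆ (Yset C κ₀)ᶜ ∪ (S Pa ∪ (S Pb ∪ (S Pc ∪
      (liftA C κ₀ phiS phiS_sq) ⁻¹' S Pa))) := by
    intro p _
    by_cases hp : p ∈ Yset C κ₀
    · right
      obtain ⟨v, s, hvs, rfl⟩ := (mem_Yset_iff C κ₀).mp hp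
      by_cases hv : v = 0
      · right; right; right
        have hs : s ≠ 0 := fun hs => hvs ⟨hv, hs⟩
        change liftA C κ₀ phiS phiS_sq (Phi C κ₀ v s) ∈ S Pa
        rw [acts_S v s hvs]
        have hne := ne_zero_of_affine (γ := 1) (c := ![TT, 0]) hvs
        refine ⟨(mem_Yset_iff C κ₀).mpr ⟨_, _, hne, rfl⟩, ?_⟩
        rw [Phi_mem_Gset C κ₀ hPa hne, hv]
        have h1 : ((1 : SL).1 *ᵥ (0 : Fin 2 → K) + s • ![TT, 0]) = ![TT * s, 0] := by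
          rw [Matrix.mulVec_zero, zero_add]
          funext i
          fin_cases i <;> simp [mul_comm]
        rw [h1]
        have hTs : (TT * s) ≠ 0 := by
          apply mul_ne_zero _ hs
          rw [TT]
          exact single_ne_zero one_ne_zero
        refine ⟨(TT * s).order, ⟨?_, ?_⟩, fun k hk => ⟨?_, ?_⟩⟩
        · simp only [Matrix.cons_val_zero]
          exact fun h => hTs (coeff_order_eq_zero.mp h)
        · simp
        · simp only [Matrix.cons_val_zero]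
          exact coeff_eq_zero_of_lt_order hk
        · simp
      · rcases firstIn_of_ne_zero hv with h | h | h
        · left
          exact ⟨hp, (Phi_mem_Gset C κ₀ hPa hvs).mpr h⟩
        · right; left
          exact ⟨hp, (Phi_mem_Gset C κ₀ hPb hvs).mpr h⟩
        · right; right; left
          exact ⟨hp, (Phi_mem_Gset C κ₀ hPc hvs).mpr h⟩
    · exact Or.inl hp
  have hz : μ ((liftA C κ₀ phiS phiS_sq) ⁻¹' S Pa) = 0 := by
    rw [hinv _ hS _ (hSm Pa), zaa]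
  have h0 : μ ((Yset C κ₀)ᶜ ∪ (S Pa ∪ (S Pb ∪ (S Pc ∪
      (liftA C κ₀ phiS phiS_sq) ⁻¹' S Pa)))) = 0 := by
    refine measure_union_null hY0 (measure_union_null zaa (measure_union_null zb
      (measure_union_null zc hz)))
  have h1 : μ (Set.univ : Set (I × (ℕ → A))) = 0 := measure_mono_null hcover h0
  rw [measure_univ] at h1
  exact one_ne_zero h1

end topology

end Pool.Agent.Lib.MP_e5892f_al
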