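import Mathlib
import Pool.Agent.Lib.MP_e5892f_al.Measure
import Pool.Agent.Lib.MP_e5892f_al.Code

/-!
# The counterexamples for the automorphism groups of the Higman-Thompson groups and for the
rational groups
-/

namespace Pool.Agent.Lib.MP_e5892f_al

open Set Filter Topology MeasureTheory Matrix

section general

variable {A I : Type*} [TopologicalSpace I] [DiscreteTopology I] [TopologicalSpace A]
  [DiscreteTopology A] (C : BlockCode M3 A) (κ₀ : I)

/-- The generators. -/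
def gens : Set ((I × (ℕ → A)) ≃ₜ (I × (ℕ → A))) :=
  {g | (∃ ε, g = liftA C κ₀ (phiU ε) (phiU_sq ε)) ∨ (∃ ε, g = liftA C κ₀ (phiV ε) (phiV_sq ε)) ∨
    g = liftA C κ₀ phiS phiS_sq ∨
    ∃ (κ κ' : I) (w w' : List A) (h : Disjoint (cone κ w) (cone κ' w')),
      cone κ w ⊆ (Yset C κ₀)ᶜ ∧ cone κ' w' ⊆ (Yset C κ₀)ᶜ ∧ g = swapH κ w κ' w' h}

/-- The subgroup. -/
noncomputable def HH : Subgroup ((I × (ℕ → A)) ≃ₜ (I × (ℕ → A))) := Subgroup.closure (gens C κ₀)

variable {C κ₀}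

lemma HH_acts {g : (I × (ℕ → A)) ≃ₜ (I × (ℕ → A))} (hg : g ∈ HH C κ₀) :
    ∃ γ ∈ uHom.range ⊔ vHom.range, ∃ c, Acts C κ₀ g γ c := by
  apply acts_of_closure _ hg
  rintro g (⟨ε, rfl⟩ | ⟨ε, rfl⟩ | rfl | ⟨κ, κ', w, w', h, h1, h2, rfl⟩)
  · exact ⟨uM ε, Subgroup.mem_sup_left (mem_uRange.mpr ⟨ε, rfl⟩), 0, acts_U ε⟩
  · exact ⟨vM ε, Subgroup.mem_sup_right (mem_vRange.mpr ⟨ε, rfl⟩), 0, acts_V ε⟩
  · exact ⟨1, one_mem _, _, acts_S⟩
  · refine ⟨1, one_mem _, 0, fun v s hvs => ?_⟩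
    have hY : Phi C κ₀ v s ∈ Yset C κ₀ := (mem_Yset_iff C κ₀).mpr ⟨v, s, hvs, rfl⟩
    have e : swapH κ w κ' w' h (Phi C κ₀ v s) = Phi C κ₀ v s :=
      swapFun_of_not_mem (fun hc => h1 hc hY) (fun hc => h2 hc hY)
    rw [e]
    simp

lemma HH_biLoc {g : (I × (ℕ → A)) ≃ₜ (I × (ℕ → A))} (hg : g ∈ HH C κ₀) : BiLoc g := by
  apply BiLoc.closure _ hg
  rintro g (⟨ε, rfl⟩ | ⟨ε, rfl⟩ | rfl | ⟨κ, κ', w, w', h, h1, h2, rfl⟩)
  · exact BlockCode.lift_biLoc κ₀ _ _
  · exact BlockCode.lift_biLoc κ₀ _ _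
  · exact BlockCode.lift_biLoc κ₀ _ _
  · exact swapH_biLoc h

variable [Finite I] [Finite A]

lemma HH_not_pingPong : ¬ HasPingPongPair (HH C κ₀) :=
  not_hasPingPongPair (C := C) (κ₀ := κ₀) fun _ hg => HH_acts hg

lemma HH_no_measure [Nontrivial A] [MeasurableSpace (I × (ℕ → A))]
    [BorelSpace (I × (ℕ → A))] (μ : Measure (I × (ℕ → A))) [IsProbabilityMeasure μ]
    (hμ : ∀ g ∈ HH C κ₀, μ.map g = μ) : False := by
  apply no_invariant_measure C κ₀ μ
  · intro κ κ' w w' h h1 h2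
    exact hμ _ (Subgroup.subset_closure (Or.inr (Or.inr (Or.inr
      ⟨κ, κ', w, w', h, h1, h2, rfl⟩))))
  · intro ε
    exact hμ _ (Subgroup.subset_closure (Or.inl ⟨ε, rfl⟩))
  · intro ε
    exact hμ _ (Subgroup.subset_closure (Or.inr (Or.inl ⟨ε, rfl⟩)))
  · exact hμ _ (Subgroup.subset_closure (Or.inr (Or.inr (Or.inl rfl))))

lemma HH_not_preserves [Nontrivial A] : ¬ PreservesProbability (HH C κ₀) := by
  intro h
  unfold PreservesProbability at h
  let _ : MeasurableSpace (I × (ℕ → A)) := borel (I × (ℕ → A))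
  have : BorelSpace (I × (ℕ → A)) := ⟨rfl⟩
  obtain ⟨μ, h1, -, h2⟩ := h
  exact HH_no_measure μ h2

end general

theorem autHigmanThompson_fails (d k : ℕ) (hd : 2 ≤ d) (hk : 1 ≤ k) :
    ∃ H : Subgroup ((Fin k × (ℕ → Fin d)) ≃ₜ (Fin k × (ℕ → Fin d))),
      (H : Set ((Fin k × (ℕ → Fin d)) ≃ₜ (Fin k × (ℕ → Fin d)))) ⊆ AutHigmanThompson d k ∧
      ¬ PreservesProbability H ∧ ¬ HasPingPongPair H := by
  have : Nontrivial (Fin d) := Fin.nontrivial_iff_two_le.mpr hd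
  have ho : (⟨1, by omega⟩ : Fin d) ≠ ⟨0, by omega⟩ := by
    intro h
    have := congrArg Fin.val h
    simp at this
  refine ⟨HH (blockCode _ _ ho) ⟨0, hk⟩, ?_, HH_not_preserves, HH_not_pingPong⟩
  intro f hf h
  exact (HH_biLoc hf).normalizes h

section transport

variable {X Y : Type*} [TopologicalSpace X] [TopologicalSpace Y] (e : X ≃ₜ Y)

/-- Conjugation by a homeomorphism. -/
def conjEquiv : (X ≃ₜ X) →* (Y ≃ₜ Y) where
  toFun f := e.symm.trans (f.trans e)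
  map_one' := by
    ext y
    change e (e.symm y) = y
    exact e.apply_symm_apply y
  map_mul' f g := by
    ext y
    change e (f (g (e.symm y))) = e (f (e.symm (e (g (e.symm y)))))
    rw [e.symm_apply_apply]

lemma conjEquiv_apply (f : X ≃ₜ X) (y : Y) : conjEquiv e f y = e (f (e.symm y)) := rfl

lemma hasPingPongPair_of_map {H : Subgroup (X ≃ₜ X)}
    (h : HasPingPongPair (H.map (conjEquiv e))) : HasPingPongPair H := by
  obtain ⟨g, hg, h, hh, U₁, U₂, V₁, V₂, oU₁, oU₂, oV₁, oV₂, d1, d2, d3, d4, d5, d6, m1, m2⟩ := h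
  obtain ⟨g', hg', rfl⟩ := hg
  obtain ⟨h', hh', rfl⟩ := hh
  refine ⟨g', hg', h', hh', e ⁻¹' U₁, e ⁻¹' U₂, e ⁻¹' V₁, e ⁻¹' V₂,
    oU₁.preimage e.continuous, oU₂.preimage e.continuous, oV₁.preimage e.continuous,
    oV₂.preimage e.continuous, d1.preimage _, d2.preimage _, d3.preimage _, d4.preimage _,
    d5.preimage _, d6.preimage _, ?_, ?_⟩
  · rintro _ ⟨x, hx, rfl⟩
    have : conjEquiv e g' (e x) ∈ V₁ := m1 ⟨e x, hx, rfl⟩
    rw [conjEquiv_apply, e.symm_apply_apply] at this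
    exact this
  · rintro _ ⟨x, hx, rfl⟩
    have : conjEquiv e h' (e x) ∈ V₂ := m2 ⟨e x, hx, rfl⟩
    rw [conjEquiv_apply, e.symm_apply_apply] at this
    exact this

end transport

theorem rationalGroup_fails (A : Type) [TopologicalSpace A] [DiscreteTopology A] [Finite A]
    [Nontrivial A] :
    ∃ H : Subgroup ((ℕ → A) ≃ₜ (ℕ → A)), (H : Set ((ℕ → A) ≃ₜ (ℕ → A))) ⊆ RationalGroup A ∧
      ¬ PreservesProbability H ∧ ¬ HasPingPongPair H := by
  obtain ⟨z, o, ho⟩ := exists_pair_ne A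
  set C : BlockCode M3 A := blockCode z o ho.symm with hC
  set e : Unit × (ℕ → A) ≃ₜ (ℕ → A) := Homeomorph.punitProd (ℕ → A) with he
  have he1 : ∀ p, e p = p.2 := fun p => rfl
  have he2 : ∀ x, e.symm x = ((), x) := fun x => rfl
  refine ⟨(HH C ()).map (conjEquiv e), ?_, ?_, ?_⟩
  · rintro _ ⟨g, hg, rfl⟩
    have h1 := (HH_biLoc hg).1
    exact h1.rational g.continuous
  · intro h
    unfold PreservesProbability at h
    let m1 : MeasurableSpace (ℕ → A) := borel (ℕ → A)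
    have : BorelSpace (ℕ → A) := ⟨rfl⟩
    let m2 : MeasurableSpace (Unit × (ℕ → A)) := borel (Unit × (ℕ → A))
    have : BorelSpace (Unit × (ℕ → A)) := ⟨rfl⟩
    obtain ⟨μ, h1, -, h2⟩ := h
    have hm : Measurable e.symm := e.symm.continuous.measurable
    have : IsProbabilityMeasure (μ.map e.symm) := Measure.isProbabilityMeasure_map hm.aemeasurable
    apply HH_no_measure (C := C) (κ₀ := ()) (μ.map e.symm)
    intro g hg
    have h3 := h2 (conjEquiv e g) ⟨g, hg, rfl⟩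
    rw [Measure.map_map g.continuous.measurable hm]
    have h4 : (g : Unit × (ℕ → A) → Unit × (ℕ → A)) ∘ e.symm = e.symm ∘ (conjEquiv e g) := by
      funext x
      change g (e.symm x) = e.symm (e (g (e.symm x)))
      rw [e.symm_apply_apply]
    rw [h4, ← Measure.map_map hm (conjEquiv e g).continuous.measurable, h3]
  · intro h
    exact HH_not_pingPong (hasPingPongPair_of_map e h)

end Pool.Agent.Lib.MP_e5892f_al
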